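import Pool.Agent.Lib.MP_5d4057_al.TW.Defs
import Pool.Agent.Lib.MP_5d4057_al.GX.Pos

/-!
# TW: the two hyperplanes meet
-/

set_option autoImplicit false

namespace Pool.Agent.Lib.MP_5d4057_al.TW

open MeasureTheory hiding extend
open Matrix Filter Topology Pool.Agent.Lib.MP_5d4057_al
  Pool.Agent.Lib.MP_5d4057_al.Hyb Pool.Agent.Lib.MP_5d4057_al.HM
  Pool.Agent.Lib.MP_5d4057_al.NU Pool.Agent.Lib.MP_5d4057_al.GX

variable {k : ℕ}

/-- A group whose elements all preserve the line of one nonzero vector is not a lattice. -/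
theorem not_line {m : ℕ} (hm : 1 ≤ m) {G : Subgroup (SUGroup m)} (hlat : IsLattice G)
    {n0 : Vec m} (hne : n0 ≠ 0) (h : ∀ x ∈ G, ∃ c : ℂ, act x n0 = c • n0) : False := by
  have hspan : ∀ M : Matrix (Fin (m + 1)) (Fin (m + 1)) ℂ, ∃ c : ℂ, M *ᵥ n0 = c • n0 := by
    intro M
    have hM : M ∈ Submodule.span ℂ (SUGroup.toMatrix '' (G : Set (SUGroup m))) := by
      rw [span_top hm _ hlat]
      trivial
    induction hM using Submodule.span_induction with
    | mem x hx =>
      obtain ⟨γ, hγ, rfl⟩ := hx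
      exact h γ hγ
    | zero => exact ⟨0, by rw [zero_mulVec, zero_smul]⟩
    | add x y _ _ hx hy =>
      obtain ⟨c, hc⟩ := hx
      obtain ⟨d, hd⟩ := hy
      exact ⟨c + d, by rw [add_mulVec, hc, hd, add_smul]⟩
    | smul a x _ hx =>
      obtain ⟨c, hc⟩ := hx
      exact ⟨a * c, by rw [smul_mulVec, hc, smul_smul]⟩
  obtain ⟨j, hj⟩ : ∃ j, n0 j ≠ 0 := by
    by_contra hcon
    push Not at hcon
    exact hne (funext hcon)
  have : Nontrivial (Fin (m + 1)) := Fin.nontrivial_iff_two_le.2 (by omega)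
  obtain ⟨i, hi⟩ : ∃ i : Fin (m + 1), i ≠ j := exists_ne j
  obtain ⟨c, hc⟩ := hspan (Matrix.single i j 1)
  have h4 := congrFun hc j
  have h5 := congrFun hc i
  rw [Matrix.mulVec, dotProduct] at h4 h5
  rw [Finset.sum_eq_zero (fun l _ => by
    rw [Matrix.single_apply, if_neg (by rintro ⟨h6, -⟩; exact hi h6), zero_mul])] at h4
  rw [Finset.sum_eq_single j (fun l _ hl => by
    rw [Matrix.single_apply, if_neg (by rintro ⟨-, h6⟩; exact hl h6.symm), zero_mul])
    (fun h6 => absurd (Finset.mem_univ _) h6), Matrix.single_apply, if_pos ⟨rfl, rfl⟩, one_mul] at h5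
  have hc0 : c = 0 := by
    rcases mul_eq_zero.1 h4.symm with h6 | h6
    · exact h6
    · exact absurd h6 hj
  rw [hc0, zero_smul] at h5
  exact hj h5

/-- The normal vectors of the two pieces are not proportional. -/
theorem not_prop_line {G : Subgroup (SUGroup (k + 2))} (hlat : IsLattice G)
    {n : Fin 2 → Vec (k + 2)} (hq : ∀ b, q (n b) = 1)
    (hgen : G ≤ Subgroup.closure {x | ∃ b, ∃ c : ℂ, act x (n b) = c • n b}) (ζ : ℂ) :
    n 1 ≠ ζ • n 0 := by
  intro h
  have hne : ∀ b, n b ≠ 0 := by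
    intro b h0
    have h1 := hq b
    rw [h0] at h1
    simp [q, herm] at h1
  have hζ : ζ ≠ 0 := by
    intro h0
    rw [h0, zero_smul] at h
    exact hne 1 h
  refine not_line (by omega) hlat (hne 0) fun x hx => ?_
  have hall : ∀ y ∈ Subgroup.closure {x | ∃ b, ∃ c : ℂ, act x (n b) = c • n b},
      ∃ c : ℂ, act y (n 0) = c • n 0 := by
    intro y hy
    induction hy using Subgroup.closure_induction with
    | mem x hx =>
      obtain ⟨b, c, hc⟩ := hx
      fin_cases b
      · exact ⟨c, hc⟩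
      · refine ⟨c, ?_⟩
        have h3 : act x (ζ • n 0) = c • (ζ • n 0) := by
          rw [← h]
          exact hc
        rw [act_smul, smul_comm] at h3
        exact smul_right_injective _ hζ h3
    | one => exact ⟨1, by rw [act_one, one_smul]⟩
    | mul x y _ _ hx hy =>
      obtain ⟨c, hc⟩ := hx
      obtain ⟨d, hd⟩ := hy
      exact ⟨d * c, by rw [act_mul, hd, act_smul, hc, smul_smul]⟩
    | inv x _ hx =>
      obtain ⟨c, hc⟩ := hx
      have hc0 : c ≠ 0 := by
        intro h0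
        rw [h0, zero_smul] at hc
        refine hne 0 ?_
        rw [← act_one (n 0), ← inv_mul_cancel x, act_mul, hc, act, mulVec_zero]
      refine ⟨c⁻¹, ?_⟩
      have h5 : act x⁻¹ (act x (n 0)) = n 0 := by
        rw [← act_mul, inv_mul_cancel, act_one]
      rw [hc, act_smul] at h5
      rw [← h5, smul_smul, inv_mul_cancel₀ hc0, one_smul, h5]
  exact hall x (hgen hx)

/-- **The hyperplanes meet.** Two vectors of norm one which are not proportional and which are fixed
by an embedded lattice of `SU(k, 1)` inside a lattice of `SU(k + 2, 1)` span a positive plane. -/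
theorem herm_lt_one_fix (hk : 1 ≤ k) {Γ₃ : Subgroup (SUGroup k)} (h₃ : IsLattice Γ₃)
    {G : Subgroup (SUGroup (k + 2))} (hlat : IsLattice G) (hf : FGG G)
    (j : Γ₃ →* SUGroup (k + 2)) (hj : Function.Injective j) (hmem : ∀ γ, j γ ∈ G)
    {n0 n1 : Vec (k + 2)} (hn0 : q n0 = 1) (hn1 : q n1 = 1)
    (h0 : ∀ γ, act (j γ) n0 = n0) (h1 : ∀ γ, act (j γ) n1 = n1)
    (hne : ∀ ζ : ℂ, n1 ≠ ζ • n0) : ‖herm n0 n1‖ < 1 := by
  by_contra hcon
  push Not at hcon
  obtain ⟨c, hc⟩ : ∃ c, c = herm n0 n1 := ⟨_, rfl⟩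
  rw [← hc] at hcon
  have hq0 : herm n0 n0 = 1 := by rw [herm_self, hn0, Complex.ofReal_one]
  have hq1 : herm n1 n1 = 1 := by rw [herm_self, hn1, Complex.ofReal_one]
  have hc' : herm n1 n0 = star c := by rw [herm_comm, ← hc]
  obtain ⟨p, hp⟩ : ∃ p, p = n1 + (-c) • n0 := ⟨_, rfl⟩
  have hqp : herm p p = ((1 - ‖c‖ ^ 2 : ℝ) : ℂ) := by
    rw [hp, herm_add_right, herm_add_left, herm_smul_right, herm_add_left, herm_smul_left,
      herm_smul_left, hq0, hq1, ← hc, hc', star_neg]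
    have hcc : star c * c = (‖c‖ : ℂ) ^ 2 := by
      rw [RCLike.star_def, Complex.conj_mul']
    push_cast
    rw [← hcc]
    ring
  have hqp' : q p = 1 - ‖c‖ ^ 2 := by
    have h2 := herm_self p
    rw [hqp] at h2
    exact_mod_cast h2.symm
  have hp0 : p ≠ 0 := by
    intro h2
    refine hne c ?_
    rw [hp, neg_smul, ← sub_eq_add_neg, sub_eq_zero] at h2
    exact h2
  have hfix : ∀ γ, act (j γ) p = p := by
    intro γ
    rw [hp, act_add, act_smul, h0, h1]
  have hnot : ¬ ∀ γ : Γ₃, IsOfFinOrder (j γ) := by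
    intro hall
    obtain ⟨γ, hγ, hnf⟩ := exists_not_fin hk h₃
    obtain ⟨N, hN, hN1⟩ := isOfFinOrder_iff_pow_eq_one.1 (hall ⟨γ, hγ⟩)
    rw [← map_pow, ← map_one j] at hN1
    refine hnf (isOfFinOrder_iff_pow_eq_one.2 ⟨N, hN, ?_⟩)
    exact congrArg Subtype.val (hj hN1)
  rcases hcon.lt_or_eq with hlt | heq
  · refine hnot fun γ => ?_
    refine fin_of_fix_neg hlat.1 (hmem γ) (v := p) ?_ (hfix γ)
    show q p < 0
    rw [hqp']
    nlinarith
  · have hq : q p = 0 := by
      rw [hqp', ← heq]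
      norm_num
    rcases fix_null (by omega) hlat hf hp0 hq (D := j.range) (by
      rintro _ ⟨γ, rfl⟩
      exact hmem γ) (by
      rintro _ ⟨γ, rfl⟩
      exact hfix γ) with hA | ⟨D', hD', hrel, hnil⟩
    · exact hnot fun γ => hA _ ⟨γ, rfl⟩
    · refine not_nilp hk h₃ (D := (D'.comap j).map Γ₃.subtype) ?_ ?_ ?_
      · rintro _ ⟨γ, -, rfl⟩
        exact γ.2
      · rw [Subgroup.relIndex, Subgroup.subgroupOf,
          Subgroup.comap_map_eq_self_of_injective Γ₃.subtype_injective, Subgroup.index_comap]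
        exact hrel
      · have hn1 : Group.IsNilpotent (D'.comap j) := by
          have hnil' : Group.IsNilpotent D' := hnil
          refine Subgroup.isNilpotent_of_ker_le_center (j.subgroupComap D') ?_
          rw [(MonoidHom.ker_eq_bot_iff _).2]
          · exact bot_le
          · intro x y hxy
            exact Subtype.ext (hj (congrArg Subtype.val hxy))
        exact Group.nilpotent_of_mulEquiv
          ((D'.comap j).equivMapOfInjective Γ₃.subtype Γ₃.subtype_injective)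

/-- A twisted element preserves the line of the normal vector. -/
theorem TwEl.line {m : ℕ} {Γ : Subgroup (SUGroup m)} {g x : SUGroup (m + 1)}
    (h : TwEl Γ g x) : ∃ c : ℂ, act x (act g (e0 m)) = c • act g (e0 m) := by
  obtain ⟨γ, -, χ, ψ, hx⟩ := h
  refine ⟨χ, ?_⟩
  rw [act_frame, ← act_smul]
  congr 1
  rw [act, hx]
  ext i
  rw [mulVec, dotProduct, Fin.sum_univ_succ, Finset.sum_eq_zero (fun l _ => by
    rw [e0, Pi.single_eq_of_ne (Fin.succ_ne_zero l), mul_zero]), add_zero]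
  rw [e0, Pi.single_eq_same, mul_one, Pi.smul_apply, smul_eq_mul]
  refine Fin.cases ?_ (fun i => ?_) i
  · rw [dsum_zero_zero, Pi.single_eq_same, mul_one]
  · rw [dsum_succ_zero, Pi.single_eq_of_ne (Fin.succ_ne_zero i), mul_zero]

/-- The hyperplanes meet: twisted pieces. -/
theorem herm_lt_one_tw (hk : 1 ≤ k) {Γ₃ : Subgroup (SUGroup k)} (h₃ : IsLattice Γ₃)
    {Γ Γ' : Fin 2 → Subgroup (SUGroup (k + 1))} {g : Fin 2 → SUGroup (k + 2)}
    {G : Subgroup (SUGroup (k + 2))} (hT : Tw Γ Γ' g G)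
    (hlat : IsLattice G) (hf : FGG G) (j : Γ₃ →* SUGroup (k + 2))
    (hj : Function.Injective j) (h0 : ∀ γ, j γ ∈ (Γ' 0).map (emb (g 0)))
    (h1 : ∀ γ, j γ ∈ (Γ' 1).map (emb (g 1))) :
    ‖herm (act (g 0) (e0 (k + 1))) (act (g 1) (e0 (k + 1)))‖ < 1 := by
  refine herm_lt_one_fix hk h₃ hlat hf j hj ?_ ?_ ?_ ?_ ?_ ?_
  · intro γ
    obtain ⟨a, ha, ha'⟩ := h0 γ
    rw [← ha']
    exact hT.std 0 a ha
  · rw [q_act, q_e0]
  · rw [q_act, q_e0]
  · intro γ
    obtain ⟨a, -, ha⟩ := h0 γ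
    rw [← ha]
    exact act_emb_e0 _ _
  · intro γ
    obtain ⟨a, -, ha⟩ := h1 γ
    rw [← ha]
    exact act_emb_e0 _ _
  · intro ζ
    refine not_prop_line hlat (n := fun b => act (g b) (e0 (k + 1)))
      (fun b => by rw [q_act, q_e0]) (hT.gen.trans (Subgroup.closure_mono ?_)) ζ
    rintro x ⟨-, b, hx⟩
    exact ⟨b, hx.line⟩

end Pool.Agent.Lib.MP_5d4057_al.TW
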