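import Pool.Agent.Lib.MP_5d4057_al.RC.WideC
import Pool.Agent.Lib.MP_5d4057_al.HM.CocSub

/-!
# TW: twisted pieces

`Γ b` are the pieces (arithmetic lattices), `Γ' b` are subgroups of finite index on which the
homomorphism is standard, `G` is the big lattice, generated by elements of the form `χ ⊕ ψ γ` in the
frames `g b`, `γ ∈ Γ b`.
-/

set_option autoImplicit false

namespace Pool.Agent.Lib.MP_5d4057_al.TW

open Matrix Filter Topology Pool.Agent.Lib.MP_5d4057_al Pool.Agent.Lib.MP_5d4057_al.Hyb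
  Pool.Agent.Lib.MP_5d4057_al.HM

variable {m k : ℕ}

/-- In the frame `g` the element `x` is `χ ⊕ ψ γ`, with `γ ∈ Γ` and scalars `χ`, `ψ`. -/
def TwEl (Γ : Subgroup (SUGroup m)) (g x : SUGroup (m + 1)) : Prop :=
  ∃ γ ∈ Γ, ∃ χ ψ : ℂ, (g⁻¹ * x * g).toMatrix = dsum χ (ψ • γ.toMatrix)

/-- `G` is generated by twisted pieces and contains the standard parts. -/
structure Tw (Γ Γ' : Fin 2 → Subgroup (SUGroup (k + 1))) (g : Fin 2 → SUGroup (k + 2))
    (G : Subgroup (SUGroup (k + 2))) : Prop where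
  le : ∀ b, Γ' b ≤ Γ b
  std : ∀ b, ∀ γ ∈ Γ' b, emb (g b) γ ∈ G
  gen : G ≤ Subgroup.closure {x | x ∈ G ∧ ∃ b, TwEl (Γ b) (g b) x}

theorem Tw.hybrid_le {Γ Γ' : Fin 2 → Subgroup (SUGroup (k + 1))} {g : Fin 2 → SUGroup (k + 2)}
    {G : Subgroup (SUGroup (k + 2))} (h : Tw Γ Γ' g G) : hybrid Γ' g ≤ G := by
  rw [hybrid, Subgroup.closure_le]
  rintro x ⟨b, γ, hγ, rfl⟩
  exact h.std b γ hγ

/-- The scalars have absolute value one, and `χ ψ ^ (m + 1) = 1`. -/
theorem TwEl.scalars {g x : SUGroup (m + 1)} {γ : SUGroup m}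
    {χ ψ : ℂ} (h : (g⁻¹ * x * g).toMatrix = dsum χ (ψ • γ.toMatrix)) :
    star χ * χ = 1 ∧ star ψ * ψ = 1 ∧ χ * ψ ^ (m + 1) = 1 := by
  have hd : (dsum χ (ψ • γ.toMatrix)).det = 1 := by
    rw [← h]
    exact det_toMatrix _
  rw [det_dsum, det_smul, det_toMatrix, Fintype.card_fin, mul_one] at hd
  have hu : (dsum χ (ψ • γ.toMatrix))ᴴ * J (m + 1) * dsum χ (ψ • γ.toMatrix) = J (m + 1) := by
    rw [← h]
    exact pres _
  rw [J_succ, dsum_conjTranspose, dsum_mul, dsum_mul, mul_one, conjTranspose_smul,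
    Matrix.smul_mul, Matrix.smul_mul, Matrix.mul_smul, pres, smul_smul] at hu
  refine ⟨?_, ?_, hd⟩
  · have := congrFun (congrFun hu 0) 0
    rwa [dsum_zero_zero, dsum_zero_zero] at this
  · have := congrFun (congrFun hu (Fin.last m).succ) (Fin.last m).succ
    rw [dsum_succ_succ, dsum_succ_succ, Matrix.smul_apply, J, Matrix.diagonal_apply_eq,
      if_pos rfl, smul_eq_mul] at this
    linear_combination -this

/-- A standard part in the big group. -/
def embG {Δ : Subgroup (SUGroup m)} {g : SUGroup (m + 1)} {G : Subgroup (SUGroup (m + 1))}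
    (h : ∀ γ ∈ Δ, emb g γ ∈ G) : Δ →* G where
  toFun γ := ⟨emb g γ, h γ γ.2⟩
  map_one' := Subtype.ext (by simp)
  map_mul' x y := Subtype.ext (by simp)

theorem embG_coe {Δ : Subgroup (SUGroup m)} {g : SUGroup (m + 1)} {G : Subgroup (SUGroup (m + 1))}
    (h : ∀ γ ∈ Δ, emb g γ ∈ G) (γ : Δ) : (embG h γ : SUGroup (m + 1)) = emb g γ := rfl

theorem act_emb_hyp (g : SUGroup (m + 1)) (γ : SUGroup m) (w : Vec m) :
    act (emb g γ) (HM.hyp g w) = HM.hyp g (act γ w) := by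
  rw [emb_apply, hyp_apply, hyp_apply, ← act_mul, ← act_extend, ← act_mul, inv_mul_cancel_right]

/-- Restriction of an equivariant metric to a hyperplane. -/
theorem equi_hypG {l : ℕ} {Δ : Subgroup (SUGroup m)} {g : SUGroup (m + 1)}
    {G : Subgroup (SUGroup (m + 1))} (h : ∀ γ ∈ Δ, emb g γ ∈ G) {ρ : G →* Mat l}
    {F : Vec (m + 1) → Mat l} (hF : Equi ρ F) :
    Equi (ρ.comp (embG h)) fun w => F (HM.hyp g w) := by
  intro γ w hw
  show F (HM.hyp g (act (γ : SUGroup m) w)) = ρ (embG h γ) * F (HM.hyp g w) * (ρ (embG h γ))ᴴ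
  rw [← hF _ _ (hyp_mem g hw), embG_coe, act_emb_hyp]

/-- The conjugate representation on a standard part. -/
theorem rhoT_embG (t : ℂ ≃+* ℂ) {Δ : Subgroup (SUGroup m)} {g : SUGroup (m + 1)}
    {G : Subgroup (SUGroup (m + 1))} (h : ∀ γ ∈ Δ, emb g γ ∈ G) (γ : Δ) :
    ((rhoT t G).comp (embG h)) γ =
      g.toMatrix.map t * dsum 1 (rhoT t Δ γ) * (g.toMatrix.map t)⁻¹ := by
  show (emb g (γ : SUGroup m)).toMatrix.map t = _
  rw [emb_apply, toMatrix_mul, toMatrix_mul, tm_mul, tm_mul, tm_gp_inv, extend_toMatrix, tm_dsum,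
    map_one]
  rfl

/-- A twisted element in the frame `g`. -/
theorem toMatrix_of_frame {g x : SUGroup (m + 1)} {M : Mat (m + 2)}
    (h : (g⁻¹ * x * g).toMatrix = M) :
    x.toMatrix = g.toMatrix * M * (g⁻¹).toMatrix := by
  rw [← h, ← toMatrix_mul, ← toMatrix_mul]
  congr 1
  group

theorem tm_of_frame (t : ℂ ≃+* ℂ) {g x : SUGroup (m + 1)} {M : Mat (m + 2)}
    (h : (g⁻¹ * x * g).toMatrix = M) :
    x.toMatrix.map t = g.toMatrix.map t * M.map t * (g.toMatrix.map t)⁻¹ := by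
  rw [toMatrix_of_frame h, tm_mul, tm_mul, tm_gp_inv]

/-- The action in the frame. -/
theorem act_frame (g x : SUGroup (m + 1)) (v : Vec (m + 1)) :
    act x (act g v) = act g (act (g⁻¹ * x * g) v) := by
  rw [← act_mul, ← act_mul]
  congr 1
  group

/-- A twisted element on the hyperplane. -/
theorem act_hyp_of_frame {g x : SUGroup (m + 1)} {γ : SUGroup m} {χ ψ : ℂ}
    (h : (g⁻¹ * x * g).toMatrix = dsum χ (ψ • γ.toMatrix)) (w : Vec m) :
    act x (HM.hyp g w) = ψ • HM.hyp g (act γ w) := by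
  rw [hyp_apply, act_frame, ← hyp_apply, ← map_smul, hyp_apply, hyp_apply]
  congr 1
  rw [act, h, dsum_mulVec_inc, smul_mulVec]
  rfl

end Pool.Agent.Lib.MP_5d4057_al.TW
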