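import Pool.Agent.Lib.MP_5d4057_al.TW.Defs
import Pool.Agent.Lib.MP_5d4057_al.IN.GFin
import Pool.Agent.Lib.MP_5d4057_al.IN.FixG
import Pool.Agent.Lib.MP_5d4057_al.IN.FEmb
import Pool.Agent.Lib.MP_5d4057_al.IN.FRep
import Pool.Agent.Lib.MP_5d4057_al.RC.Lat

/-!
# Integrality of the traces of a lattice with a connected family of arithmetic divisors

`G` is a lattice in `SU(j+1,1)`, `g i` frames of hyperplanes (`i` in any set), `G` contains
`emb (g i) (Λ i)` with arithmetic lattices `Λ i` of `SU(j,1)`, and the union of the translates of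
the hyperplanes under `G` is connected (in the form: `G` is generated by elements which map a point
of one hyperplane to a point of another one, and the incidence graph is connected). Then all traces
of `G` are algebraic integers.
-/

set_option autoImplicit false

namespace Pool.Agent.Lib.MP_5d4057_al.IN

open Matrix MeasureTheory Filter Topology Module Pool.Agent.Lib.MP_5d4057_al
  Pool.Agent.Lib.MP_5d4057_al.Hyb Pool.Agent.Lib.MP_5d4057_al.HM Pool.Agent.Lib.MP_5d4057_al.NU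

variable {n j : ℕ} {k : Type} [NontriviallyNormedField k] [IsUltrametricDist k] [ProperSpace k]
  {V : Type} [AddCommGroup V] [Module k V] [FiniteDimensional k V]

/-- Restriction to a subgroup. -/
theorem PshG.mono {Γ Γ₁ : Subgroup (SUGroup n)} {ρ : Γ →* (V ≃ₗ[k] V)} {f : Vec n → Nm k V}
    (hf : PshG ρ f) (h : Γ₁ ≤ Γ) : PshG (ρ.comp (Subgroup.inclusion h)) f :=
  ⟨hf.hom, hf.cont, hf.gr, fun γ v hv => hf.equi (Subgroup.inclusion h γ) v hv, hf.vsub⟩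

/-- The subgroup generated by one piece, as a hybrid of two equal pieces. -/
private theorem hyb_le {Λ : Subgroup (SUGroup j)} {g : SUGroup (j + 1)}
    {G : Subgroup (SUGroup (j + 1))} (h : ∀ γ ∈ Λ, emb g γ ∈ G) :
    hybrid (fun _ => Λ) (fun _ => g) ≤ G := by
  rw [hybrid, Subgroup.closure_le]
  rintro x ⟨-, γ, hγ, rfl⟩
  exact h γ hγ

/-- The map is constant on a hyperplane whose stabiliser contains a bounded lattice. -/
theorem PshG.const_hyp (hj : 1 ≤ j) {Λ : Subgroup (SUGroup j)} {g : SUGroup (j + 1)}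
    {G : Subgroup (SUGroup (j + 1))} (h : ∀ γ ∈ Λ, emb g γ ∈ G) {ρ : G →* (V ≃ₗ[k] V)}
    {f : Vec (j + 1) → Nm k V} (hf : PshG ρ f) (hR : RC.Rec Λ)
    (hb : Bdd ((ρ.comp (Subgroup.inclusion (hyb_le h))).comp
      (embHyb (fun _ => Λ) (fun _ => g) 0))) :
    ∀ v ∈ Cone j, f (HM.hyp g v) = f (act g (base (j + 1))) := by
  intro v hv
  have h1 := ((hf.mono (hyb_le h)).hyp (Γ := fun _ => Λ) (g := fun _ => g) 0).const_of_bdd
    hj hR hb v hv
  rw [← hyp_base]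
  exact h1

/-- All values on the hyperplanes are equal, and the group fixes this norm. -/
theorem PshG.trace_le_conf {G : Subgroup (SUGroup (j + 1))} {I : Type}
    {g : I → SUGroup (j + 1)} {ρ : G →* (V ≃ₗ[k] V)} {f : Vec (j + 1) → Nm k V}
    (hf : PshG ρ f)
    (hc : ∀ i, ∀ v ∈ Cone j, f (HM.hyp (g i) v) = f (act (g i) (base (j + 1))))
    (hconn : ∀ i i', Relation.EqvGen
      (fun a b => ∃ v ∈ Cone j, ∃ w ∈ Cone j, HM.hyp (g a) v = HM.hyp (g b) w) i i')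
    (hgen : G ≤ Subgroup.closure {x | x ∈ G ∧ ∃ i i', ∃ v ∈ Cone j, ∃ w ∈ Cone j,
      act x (HM.hyp (g i) v) = HM.hyp (g i') w}) (γ : G) :
    ‖LinearMap.trace k V (ρ γ : V →ₗ[k] V)‖ ≤ 1 := by
  by_cases hI : Nonempty I
  swap
  · have hbot : γ = 1 := by
      have h1 : (γ : SUGroup (j + 1)) ∈ Subgroup.closure {x | x ∈ G ∧ ∃ i i', ∃ v ∈ Cone j,
          ∃ w ∈ Cone j, act x (HM.hyp (g i) v) = HM.hyp (g i') w} := hgen γ.2
      have h2 : {x | x ∈ G ∧ ∃ i i', ∃ v ∈ Cone j,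
          ∃ w ∈ Cone j, act x (HM.hyp (g i) v) = HM.hyp (g i') w} = ∅ := by
        ext x
        constructor
        · rintro ⟨-, i, -⟩
          exact hI ⟨i⟩
        · intro h
          exact h.elim
      rw [h2, Subgroup.closure_empty, Subgroup.mem_bot] at h1
      exact Subtype.ext h1
    refine Nm.trace_le (f (base (j + 1))) _ ?_
    have h3 : ρ γ = 1 := by rw [hbot, map_one]
    exact (congrArg (fun e => Nm.act e (f (base (j + 1)))) h3).trans (Nm.act_one _)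
  obtain ⟨i₀⟩ := hI
  have hval : ∀ i i', f (act (g i) (base (j + 1))) = f (act (g i') (base (j + 1))) := by
    intro i i'
    have h1 := hconn i i'
    induction h1 with
    | rel a b h =>
      obtain ⟨v, hv, w, hw, e⟩ := h
      rw [← hc a v hv, ← hc b w hw, e]
    | refl a => rfl
    | symm a b _ ih => exact ih.symm
    | trans a b c _ _ ih1 ih2 => exact ih1.trans ih2
  obtain ⟨N, hN⟩ : ∃ N, N = f (act (g i₀) (base (j + 1))) := ⟨_, rfl⟩
  have hall : ∀ i, ∀ v ∈ Cone j, f (HM.hyp (g i) v) = N := by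
    intro i v hv
    rw [hc i v hv, hval i i₀, hN]
  have key : ∀ (x : SUGroup (j + 1)) (_ : x ∈ Subgroup.closure {x | x ∈ G ∧ ∃ i i',
      ∃ v ∈ Cone j, ∃ w ∈ Cone j, act x (HM.hyp (g i) v) = HM.hyp (g i') w}),
      ∃ hx : x ∈ G, N.act (ρ ⟨x, hx⟩) = N := by
    intro x hx
    induction hx using Subgroup.closure_induction with
    | mem x hx =>
      obtain ⟨hxG, i, i', v, hv, w, hw, e⟩ := hx
      refine ⟨hxG, ?_⟩
      have h1 := hf.equi ⟨x, hxG⟩ (HM.hyp (g i) v) (hyp_mem (g i) hv)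
      have h2 : act ((⟨x, hxG⟩ : G) : SUGroup (j + 1)) (HM.hyp (g i) v) = HM.hyp (g i') w := e
      rw [h2, hall i' w hw, hall i v hv] at h1
      exact h1.symm
    | one =>
      refine ⟨G.one_mem, ?_⟩
      have h1 : ρ ⟨1, G.one_mem⟩ = 1 := map_one ρ
      exact (congrArg (fun e => Nm.act e N) h1).trans (Nm.act_one _)
    | mul x y _ _ ihx ihy =>
      obtain ⟨hx, ihx⟩ := ihx
      obtain ⟨hy, ihy⟩ := ihy
      refine ⟨G.mul_mem hx hy, ?_⟩
      have h1 : ρ ⟨x * y, G.mul_mem hx hy⟩ = ρ ⟨x, hx⟩ * ρ ⟨y, hy⟩ :=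
        map_mul ρ ⟨x, hx⟩ ⟨y, hy⟩
      refine (congrArg (fun e => Nm.act e N) h1).trans ?_
      show Nm.act (ρ ⟨x, hx⟩ * ρ ⟨y, hy⟩) N = _
      rw [Nm.act_mul, ihy, ihx]
    | inv x _ ih =>
      obtain ⟨hx, ih⟩ := ih
      refine ⟨G.inv_mem hx, ?_⟩
      have h1 : ρ ⟨x⁻¹, G.inv_mem hx⟩ * ρ ⟨x, hx⟩ = 1 := by
        rw [← map_mul, ← map_one ρ]
        congr 1
        exact Subtype.ext (inv_mul_cancel x)
      calc Nm.act (ρ ⟨x⁻¹, G.inv_mem hx⟩) N
          = Nm.act (ρ ⟨x⁻¹, G.inv_mem hx⟩) (Nm.act (ρ ⟨x, hx⟩) N) := by rw [ih]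
        _ = N := by rw [← Nm.act_mul, h1, Nm.act_one]
  obtain ⟨hx, h2⟩ := key γ (hgen γ.2)
  exact Nm.trace_le _ _ h2

/-- **Integrality.** -/
theorem integral_conf (hj : 1 ≤ j) {G : Subgroup (SUGroup (j + 1))} (hlat : IsLattice G)
    (hF : FGG G) {I : Type} (g : I → SUGroup (j + 1)) (Λ : I → Subgroup (SUGroup j))
    (hR : ∀ i, RC.Rec (Λ i)) (hA : ∀ i, ∃ Δ, IsArith j Δ ∧ Λ i ≤ Δ)
    (hstd : ∀ i, ∀ γ ∈ Λ i, emb (g i) γ ∈ G)
    (hconn : ∀ i i', Relation.EqvGen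
      (fun a b => ∃ v ∈ Cone j, ∃ w ∈ Cone j, HM.hyp (g a) v = HM.hyp (g b) w) i i')
    (hgen : G ≤ Subgroup.closure {x | x ∈ G ∧ ∃ i i', ∃ v ∈ Cone j, ∃ w ∈ Cone j,
      act x (HM.hyp (g i) v) = HM.hyp (g i') w}) :
    ∀ γ ∈ G, IsIntegral ℤ γ.toMatrix.trace := by
  intro γ hγ
  by_contra hcon
  obtain ⟨p, hp, σ, hσ⟩ := exists_embed hcon
  obtain ⟨χ, y, hχ, hy, hI⟩ := exists_inN (by omega) hlat hF
  obtain ⟨kk, I1, I2, I3, i, ρ, hi, hRep, hρ⟩ := exists_rep p σ hF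
    (span_top (by omega : 1 ≤ j + 1) G hlat)
  have hfr : 0 < finrank kk (Fin (j + 1 + 1) → kk) := by
    rw [Module.finrank_fin_fun]
    omega
  obtain ⟨f, hf⟩ := exists_pshG (by omega : 1 ≤ j + 1) hfr hχ hy hRep
    (hI kk (PadicAlgCl p) (σ : ℂ →+* PadicAlgCl p) i hi ρ hρ)
  have hc : ∀ l, ∀ v ∈ Cone j, f (HM.hyp (g l) v) = f (act (g l) (base (j + 1))) := by
    intro l
    obtain ⟨Δ, hΔ, hle⟩ := hA l
    obtain ⟨C, hC⟩ := bdd_of_isArith p σ hΔ
    refine hf.const_hyp hj (hstd l) (hR l) ?_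
    exact bdd_of_entries p (Γ := fun _ => Λ l) (g := fun _ => g l) hi
      (ρ := ρ.comp (Subgroup.inclusion (hyb_le (hstd l))))
      (fun x => hρ (Subgroup.inclusion (hyb_le (hstd l)) x)) 0
      fun x hx => hC x (hle hx)
  have h1 := hf.trace_le_conf hc hconn hgen ⟨γ, hγ⟩
  have h2 : i (LinearMap.trace kk (Fin (j + 1 + 1) → kk)
      (ρ ⟨γ, hγ⟩ : (Fin (j + 1 + 1) → kk) →ₗ[kk] (Fin (j + 1 + 1) → kk))) =
      σ γ.toMatrix.trace := by
    have h3 : LinearMap.trace kk (Fin (j + 1 + 1) → kk)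
        (ρ ⟨γ, hγ⟩ : (Fin (j + 1 + 1) → kk) →ₗ[kk] (Fin (j + 1 + 1) → kk)) =
        (LinearMap.toMatrix' (ρ ⟨γ, hγ⟩ :
          (Fin (j + 1 + 1) → kk) →ₗ[kk] (Fin (j + 1 + 1) → kk))).trace := by
      rw [← Matrix.trace_toLin'_eq, Matrix.toLin'_toMatrix']
    rw [h3]
    have h4 := hρ ⟨γ, hγ⟩
    have h5 : i (LinearMap.toMatrix' (ρ ⟨γ, hγ⟩ :
        (Fin (j + 1 + 1) → kk) →ₗ[kk] (Fin (j + 1 + 1) → kk))).trace =
        ((LinearMap.toMatrix' (ρ ⟨γ, hγ⟩ :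
        (Fin (j + 1 + 1) → kk) →ₗ[kk] (Fin (j + 1 + 1) → kk))).map i).trace := by
      rw [Matrix.trace, Matrix.trace, map_sum]
      rfl
    rw [h5, h4, Matrix.trace, Matrix.trace, map_sum]
    rfl
  rw [← hi, h2] at h1
  exact absurd h1 (not_le.2 hσ)

end Pool.Agent.Lib.MP_5d4057_al.IN

namespace Pool.Agent.Lib.MP_5d4057_al.TW

open Matrix Pool.Agent.Lib.MP_5d4057_al Pool.Agent.Lib.MP_5d4057_al.Hyb
  Pool.Agent.Lib.MP_5d4057_al.HM Pool.Agent.Lib.MP_5d4057_al.NU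

variable {k : ℕ}

private theorem ti_smul_mem {j : ℕ} {c : ℂ} (hc : c ≠ 0) {v : Vec j} (hv : v ∈ Cone j) :
    c • v ∈ Cone j := by
  show q (c • v) < 0
  rw [q_smul]
  have h1 : 0 < ‖c‖ ^ 2 := by positivity
  have h2 : q v < 0 := hv
  nlinarith

/-- Twisted elements preserve the hyperplane. -/
theorem TwEl.map_hyp {j : ℕ} {Γ : Subgroup (SUGroup j)} {g x : SUGroup (j + 1)}
    (h : TwEl Γ g x) : ∃ v ∈ Cone j, ∃ w ∈ Cone j, act x (HM.hyp g v) = HM.hyp g w := by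
  obtain ⟨γ, -, χ, ψ, h1⟩ := h
  have hψ : ψ ≠ 0 := by
    intro h0
    have h2 := (TwEl.scalars h1).2.1
    rw [h0, mul_zero] at h2
    exact zero_ne_one h2
  refine ⟨base j, base_mem j, ψ • act γ (base j), ti_smul_mem hψ (orbit_mem γ), ?_⟩
  have h2 : act (g⁻¹ * x * g) (inc j (base j)) = inc j (ψ • act γ (base j)) := by
    rw [act, h1, dsum_mulVec_inc, smul_mulVec, act]
  rw [hyp_apply, hyp_apply, ← h2, ← act_mul, ← act_mul]
  congr 1
  group

/-- **Integrality of the traces for twisted pieces.** -/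
theorem integral_tw (hk : 1 ≤ k) {Γ Γ' : Fin 2 → Subgroup (SUGroup (k + 1))}
    {g : Fin 2 → SUGroup (k + 2)} {G : Subgroup (SUGroup (k + 2))} (hT : Tw Γ Γ' g G)
    (hL' : ∀ b, IsLattice (Γ' b)) (hA : ∀ b, IsArith (k + 1) (Γ b)) {ζ : ℂ} (hζ : ζ ≠ 0)
    (hg : act (g 1) (base (k + 2)) = ζ • act (g 0) (base (k + 2))) (hlat : IsLattice G)
    (hf : FGG G) : ∀ x ∈ G, IsIntegral ℤ x.toMatrix.trace := by
  refine IN.integral_conf (by omega : 1 ≤ k + 1) hlat hf g Γ'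
    (fun b => RC.rec_of_lattice (by omega) (hL' b) ((RC.fgg_of_isArith (hA b)).mono (hT.le b)))
    (fun b => ⟨Γ b, hA b, hT.le b⟩) hT.std ?_ ?_
  · have h01 : Relation.EqvGen (fun a b : Fin 2 => ∃ v ∈ Cone (k + 1), ∃ w ∈ Cone (k + 1),
        HM.hyp (g a) v = HM.hyp (g b) w) 0 1 := by
      refine Relation.EqvGen.rel _ _ ⟨ζ • base (k + 1), ti_smul_mem hζ (base_mem _),
        base (k + 1), base_mem _, ?_⟩
      rw [map_smul, hyp_base, hyp_base, hg]
    intro i i'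
    fin_cases i <;> fin_cases i'
    · exact Relation.EqvGen.refl _
    · exact h01
    · exact Relation.EqvGen.symm _ _ h01
    · exact Relation.EqvGen.refl _
  · refine hT.gen.trans (Subgroup.closure_mono ?_)
    rintro x ⟨hx, b, hb⟩
    obtain ⟨v, hv, w, hw, e⟩ := hb.map_hyp
    exact ⟨hx, b, b, v, hv, w, hw, e⟩

end Pool.Agent.Lib.MP_5d4057_al.TW
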