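import Pool.Agent.Lib.MP_5d4057_al.TW.Defs
import Pool.Agent.Lib.MP_5d4057_al.RC.Orth

/-! TW: the metric on a hyperplane and the conjugates of the twisted elements. -/

set_option autoImplicit false

namespace Pool.Agent.Lib.MP_5d4057_al.TW

open Matrix Filter Topology Pool.Agent.Lib.MP_5d4057_al
  Pool.Agent.Lib.MP_5d4057_al.Hyb Pool.Agent.Lib.MP_5d4057_al.HM Pool.Agent.Lib.MP_5d4057_al.RC

open scoped ComplexOrder MatrixOrder Matrix.Norms.L2Operator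

variable {m k : ℕ}

/-- The metric on a hyperplane, for an automorphism `t` which agrees with `s` on `K`. -/
theorem slice_data_tw {Γ Γ' : Subgroup (SUGroup (k + 1))} {g : SUGroup (k + 2)} (hle : Γ' ≤ Γ)
    (hL' : IsLattice Γ') (hfin : Γ'.relIndex Γ ≠ 0) (hR' : Rec Γ')
    {G : Subgroup (SUGroup (k + 2))} (hstd : ∀ γ ∈ Γ', emb g γ ∈ G)
    {K : Subfield ℂ} {μ : ℂ} {D : Mat (k + 1)} (hμ : μ ≠ 0) (hD : D.det ≠ 0)
    (hrat : ∀ γ ∈ Γ', EntriesIn K (dsum μ D) γ.toMatrix)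
    (t s t' : ℂ ≃+* ℂ) (hts : ∀ x, t x = s (t' x)) (ht' : ∀ x : K, t' (x : ℂ) = x)
    {S : Vec (k + 1) → Mat (k + 2)} (hS : Harm S) (hSp : Pol fun w => (S w)⁻¹)
    (hSe : Equi (rhoT s Γ) S)
    {F : Vec (k + 2) → Mat (k + 3)} (hF : Harm F) (hFp : Pol F)
    (hFe : Equi (rhoT t G) F) :
    ∃ (ν : ℂ) (E : Mat (k + 1)) (l a : ℂ), ν ≠ 0 ∧ IsUnit E ∧ 0 < l ∧ 0 < a ∧
      (∀ w ∈ Cone (k + 1), F (HM.hyp g w) =
        (g.toMatrix.map t * dsum 1 (dsum ν E)) * dsum l (a • S w) *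
          (g.toMatrix.map t * dsum 1 (dsum ν E))ᴴ) ∧
      (∀ γ ∈ Γ', (g * extend (k + 1) γ * g⁻¹).toMatrix.map t =
        (g.toMatrix.map t * dsum 1 (dsum ν E)) * dsum 1 (γ.toMatrix.map s) *
          (g.toMatrix.map t * dsum 1 (dsum ν E))⁻¹) ∧
      ∀ x ∈ G, ∀ γ ∈ Γ, ∀ χ ψ : ℂ, (g⁻¹ * x * g).toMatrix = dsum χ (ψ • γ.toMatrix) →
        ∃ χ' ψ' : ℂ, χ' * star χ' = 1 ∧ ψ' * star ψ' = 1 ∧ x.toMatrix.map t =
        (g.toMatrix.map t * dsum 1 (dsum ν E)) * dsum χ' (ψ' • γ.toMatrix.map s) *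
          (g.toMatrix.map t * dsum 1 (dsum ν E))⁻¹ := by
  have hBd : (dsum μ D).det ≠ 0 := by
    rw [det_dsum]
    exact mul_ne_zero hμ hD
  have hmts : ∀ {l : ℕ} (A : Mat l), A.map t = (A.map t').map s := by
    intro l A
    ext i j
    exact hts _
  set E₀ : Mat (k + 1) := D.map t' * D⁻¹ with hE₀
  set ν₀ : ℂ := t' μ * μ⁻¹ with hν₀
  have hEb : (dsum μ D).map t' * (dsum μ D)⁻¹ = dsum ν₀ E₀ := by
    rw [tm_dsum, dsum_inv _ _ hμ hD, dsum_mul]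
  have hν₀0 : ν₀ ≠ 0 := mul_ne_zero ((map_ne_zero t').2 hμ) (inv_ne_zero hμ)
  have hE₀u : IsUnit E₀ := (tm_unit t' hD).mul
    (isUnit_nonsing_inv_iff.2 ((isUnit_iff_isUnit_det D).2 (isUnit_iff_ne_zero.2 hD)))
  have hE₀d : E₀.det ≠ 0 := ((isUnit_iff_isUnit_det E₀).1 hE₀u).ne_zero
  set E : Mat (k + 1) := E₀.map s with hE
  set ν : ℂ := s ν₀ with hν
  have hν0 : ν ≠ 0 := (map_ne_zero s).2 hν₀0
  have hEu : IsUnit E := tm_unit s hE₀d
  have hEd : E.det ≠ 0 := ((isUnit_iff_isUnit_det E).1 hEu).ne_zero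
  have hR₀d : (dsum ν₀ E₀).det ≠ 0 := by
    rw [det_dsum]
    exact mul_ne_zero hν₀0 hE₀d
  have hRd : (dsum ν E).det ≠ 0 := by
    rw [det_dsum]
    exact mul_ne_zero hν0 hEd
  have hRs : (dsum ν₀ E₀).map s = dsum ν E := tm_dsum s _ _
  set Q : Mat (k + 3) := g.toMatrix.map t * dsum 1 (dsum ν E) with hQ
  have hRu : IsUnit (dsum ν E) := (isUnit_iff_isUnit_det _).2 (isUnit_iff_ne_zero.2 hRd)
  have hQu : IsUnit Q := by
    refine (tm_gp_unit t g).mul ?_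
    rw [isUnit_iff_isUnit_det, det_dsum, one_mul]
    exact (isUnit_iff_isUnit_det _).1 hRu
  have hsmall : ∀ γ ∈ Γ', γ.toMatrix.map t = dsum ν E * γ.toMatrix.map s * (dsum ν E)⁻¹ := by
    intro γ hγ
    rw [hmts, tm_fix t' ht' hBd (hrat γ hγ), hEb, tm_mul, tm_mul, ← tm_inv s hR₀d, hRs]
  -- conjugates of block matrices
  have htr : ∀ (x : SUGroup (k + 2)) (γ : SUGroup (k + 1)) (χ ψ : ℂ) (B : Mat (k + 2)),
      (g⁻¹ * x * g).toMatrix = dsum χ (ψ • γ.toMatrix) →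
      γ.toMatrix.map t = dsum ν E * B * (dsum ν E)⁻¹ →
      x.toMatrix.map t = Q * dsum (t χ) (t ψ • B) * Q⁻¹ := by
    intro x γ χ ψ B hx hB
    rw [tm_of_frame t hx, tm_dsum, tm_smul, hB, hQ, Matrix.mul_inv_rev,
      dsum_inv' one_ne_zero hRu, inv_one]
    have h3 : dsum (t χ) (t ψ • (dsum ν E * B * (dsum ν E)⁻¹)) =
        dsum 1 (dsum ν E) * dsum (t χ) (t ψ • B) * dsum 1 (dsum ν E)⁻¹ := by
      rw [dsum_mul, dsum_mul, one_mul, mul_one, Matrix.mul_smul, Matrix.smul_mul]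
    rw [h3]
    simp only [Matrix.mul_assoc]
  have hstdx : ∀ γ : SUGroup (k + 1), (g⁻¹ * emb g γ * g).toMatrix =
      dsum 1 ((1 : ℂ) • γ.toMatrix) := by
    intro γ
    rw [emb_apply, one_smul, ← extend_toMatrix]
    congr 1
    group
  have hc : ∀ γ ∈ Γ', (g * extend (k + 1) γ * g⁻¹).toMatrix.map t =
      Q * dsum 1 (γ.toMatrix.map s) * Q⁻¹ := by
    intro γ hγ
    have h1 := htr (emb g γ) γ 1 1 _ (hstdx γ) (hsmall γ hγ)
    rwa [map_one, one_smul, emb_apply] at h1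
  obtain ⟨l, a, hl, ha, hFb⟩ := slice_form_rec (by omega) hR' (rhoT s Γ')
    (span_rhoT _ _ (span_top (by omega) _ hL')) hS hSp
    (fun γ w hw => hSe (Subgroup.inclusion hle γ) w hw) hQu (hF.hyp g) (hFp.comp_hyp g)
    ((rhoT t G).comp (embG hstd))
    (fun γ => hc γ γ.2) (equi_hypG hstd hFe)
  refine ⟨ν, E, l, a, hν0, hEu, hl, ha, hFb, hc, ?_⟩
  intro x hx γ hγ χ ψ hxγ
  obtain ⟨e, he⟩ := wide_scalar (by omega) hL' hle hfin t s hRu hsmall γ hγ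
  have h1 : x.toMatrix.map t = Q * dsum (t χ) ((t ψ * e) • γ.toMatrix.map s) * Q⁻¹ := by
    rw [htr x γ χ ψ _ hxγ he, smul_smul]
  have hψ0 : ψ ≠ 0 := by
    intro h0
    have h2 := (TwEl.scalars hxγ).2.1
    rw [h0, mul_zero] at h2
    exact zero_ne_one h2
  set χ' : ℂ := t χ with hχ'
  set ψ' : ℂ := t ψ * e with hψ'
  clear_value Q χ' ψ'
  have hb := base_mem (k + 1)
  have h2 : F (HM.hyp g (act γ (base (k + 1)))) =
      x.toMatrix.map t * F (HM.hyp g (base (k + 1))) * (x.toMatrix.map t)ᴴ := by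
    have h3 : F (act x (HM.hyp g (base (k + 1)))) =
        x.toMatrix.map t * F (HM.hyp g (base (k + 1))) * (x.toMatrix.map t)ᴴ :=
      hFe ⟨x, hx⟩ _ (hyp_mem g hb)
    rw [act_hyp_of_frame hxγ, hF.hom ψ hψ0 _ (hyp_mem g (act_mem γ hb))] at h3
    exact h3
  have h3 : S (act γ (base (k + 1))) =
      γ.toMatrix.map s * S (base (k + 1)) * (γ.toMatrix.map s)ᴴ := hSe ⟨γ, hγ⟩ _ hb
  rw [hFb _ (act_mem γ hb), hFb _ hb, h1] at h2
  have e1 : Q⁻¹ * Q = 1 := nonsing_inv_mul _ ((isUnit_iff_isUnit_det _).1 hQu)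
  have e2 : Qᴴ * (Q⁻¹)ᴴ = 1 := by rw [← conjTranspose_mul, e1, conjTranspose_one]
  have h4 : Q * dsum l (a • S (act γ (base (k + 1)))) * Qᴴ =
      Q * dsum (χ' * star χ' * l) ((ψ' * star ψ' * a) • S (act γ (base (k + 1)))) * Qᴴ := by
    rw [h2]
    calc Q * dsum χ' (ψ' • γ.toMatrix.map s) * Q⁻¹ * (Q * dsum l (a • S (base (k + 1))) * Qᴴ) *
          (Q * dsum χ' (ψ' • γ.toMatrix.map s) * Q⁻¹)ᴴ
        = Q * (dsum χ' (ψ' • γ.toMatrix.map s) * (Q⁻¹ * Q) * dsum l (a • S (base (k + 1))) *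
          (Qᴴ * (Q⁻¹)ᴴ) * (dsum χ' (ψ' • γ.toMatrix.map s))ᴴ) * Qᴴ := by
          rw [conjTranspose_mul, conjTranspose_mul]
          simp only [Matrix.mul_assoc]
      _ = _ := by
          rw [e1, e2, Matrix.mul_one, Matrix.mul_one, dsum_conjTranspose, dsum_mul, dsum_mul,
            h3, conjTranspose_smul]
          simp only [Matrix.mul_smul, Matrix.smul_mul, smul_smul]
          congr 3
          · ring
          · congr 1
            ring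
  have h5 := hQu.mul_left_cancel (((isUnit_conjTranspose _).2 hQu).mul_right_cancel h4)
  obtain ⟨h6l, h6⟩ := dsum_inj h5
  refine ⟨χ', ψ', ?_, ?_, by rw [← hQ]; exact h1⟩
  · have h7 : l * (χ' * star χ' - 1) = 0 := by linear_combination -h6l
    have h8 := (mul_eq_zero.1 h7).resolve_left hl.ne'
    linear_combination h8
  · have hpd := hS.pos _ (act_mem γ hb)
    have h7 : (a - ψ' * star ψ' * a) • S (act γ (base (k + 1))) = 0 := by
      rw [sub_smul, h6, sub_self]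
    rcases smul_eq_zero.1 h7 with h8 | h8
    · have h9 : a * (1 - ψ' * star ψ') = 0 := by linear_combination h8
      have h10 := (mul_eq_zero.1 h9).resolve_left ha.ne'
      linear_combination -h10
    · have h9 := hpd.isUnit
      rw [h8] at h9
      exact absurd h9 not_isUnit_zero

end Pool.Agent.Lib.MP_5d4057_al.TW
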