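import Pool.Agent.Lib.MP_5d4057_al.TW.Top

/-!
# The theorem for amalgams, with short names for the groups
-/

namespace Pool.Agent.Lib.MP_5d4057_al.TW

open Matrix Pool.Agent.Lib.MP_5d4057_al Pool.Agent.Lib.MP_5d4057_al.Hyb
  Pool.Agent.Lib.MP_5d4057_al.HM

/-- The subgroup `A` as a group. -/
def Grp {m : ℕ} (A : Subgroup (SUGroup m)) : Type := ↥A

instance Grp.instGroup {m : ℕ} (A : Subgroup (SUGroup m)) : Group (Grp A) :=
  Subgroup.toGroup A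

/-- The element of `SU(m,1)` given by an element of `A`. -/
def Grp.val {m : ℕ} {A : Subgroup (SUGroup m)} (x : Grp A) : SUGroup m := Subtype.val x

variable {k : ℕ} {Γ₃ : Subgroup (SUGroup k)} {Γ : Fin 2 → Subgroup (SUGroup (k + 1))}

/-- The amalgam of `Γ 0` and `Γ 1` over `Γ₃`, along `ι 0` and `ι 1`. -/
def Amalgam (ι : ∀ b, Grp Γ₃ →* Grp (Γ b)) : Type := Monoid.PushoutI ι

noncomputable instance Amalgam.instGroup (ι : ∀ b, Grp Γ₃ →* Grp (Γ b)) : Group (Amalgam ι) :=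
  Monoid.PushoutI.instGroup

/-- The homomorphism from the factor `Γ b` to the amalgam. -/
noncomputable def Amalgam.of (ι : ∀ b, Grp Γ₃ →* Grp (Γ b)) (b : Fin 2) :
    Grp (Γ b) →* Amalgam ι :=
  Monoid.PushoutI.of (φ := ι) b

/-- `g (1 + x) g⁻¹`, with the block sum `1 + x`. -/
noncomputable def conjStd (g : SUGroup (k + 2)) (x : SUGroup (k + 1)) : SUGroup (k + 2) :=
  g * extend (k + 1) x * g⁻¹

/-- `ρ x = g_b (1 + x) g_b⁻¹` for all `x` in `Γ b ∩ D b`, `b = 0, 1`. -/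
def VirtStd {ι : ∀ b, Grp Γ₃ →* Grp (Γ b)} (ρ : Amalgam ι →* SUGroup (k + 2))
    (D : Fin 2 → Subgroup (SUGroup (k + 1))) (g : Fin 2 → SUGroup (k + 2)) : Prop :=
  ∀ (b : Fin 2) (x : Grp (Γ b)), x.val ∈ D b →
    ρ (Amalgam.of ι b x) = conjStd (g b) x.val

theorem amalgam_short (k : ℕ) (hk : 1 ≤ k) (Γ₃ : Subgroup (SUGroup k))
    (Γ D : Fin 2 → Subgroup (SUGroup (k + 1))) (h₃ : IsLattice Γ₃) (hL : ∀ b, IsLattice (Γ b))
    (hA : ∀ b, IsArith (k + 1) (Γ b)) (ι : ∀ b, Grp Γ₃ →* Grp (Γ b))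
    (hι : ∀ b, Function.Injective (ι b)) (ρ : Amalgam ι →* SUGroup (k + 2))
    (g : Fin 2 → SUGroup (k + 2)) (hfin : ∀ b, (D b).relIndex (Γ b) ≠ 0)
    (hρ : VirtStd ρ D g) (hlat : IsLattice ρ.range) : IsArith (k + 2) ρ.range :=
  amalgam_twisted k hk Γ₃ Γ D h₃ hL hA ι hι ρ g hfin (fun b x hx => hρ b x hx) hlat

end Pool.Agent.Lib.MP_5d4057_al.TW
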