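import Pool.Agent.Lib.MP_5d4057_al.TW.Form
import Pool.Agent.Lib.MP_5d4057_al.RC.WideE

/-!
# TW: the arithmeticity of a lattice generated by twisted pieces, given integral traces
-/

set_option autoImplicit false

namespace Pool.Agent.Lib.MP_5d4057_al.TW

open Matrix Filter Topology Pool.Agent.Lib.MP_5d4057_al Pool.Agent.Lib.MP_5d4057_al.Hyb
  Pool.Agent.Lib.MP_5d4057_al.HM Pool.Agent.Lib.MP_5d4057_al.NU Pool.Agent.Lib.MP_5d4057_al.RC

variable {m k : ℕ}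

/-- A subgroup of finite index inside the rational part of an arithmetic group is arithmetic. -/
theorem isArithmetic_inf {Γ Γ' : Subgroup (SUGroup m)} (hle : Γ' ≤ Γ) (hfin : Γ'.relIndex Γ ≠ 0)
    {K : Subfield ℂ} {H : Matrix (Fin (m + 1)) (Fin (m + 1)) K}
    {B : Matrix (Fin (m + 1)) (Fin (m + 1)) ℂ} (hf : IsForm m K H B)
    (hc : Subgroup.Commensurable Γ (integralPoints m K B)) :
    (Γ' ⊓ ratPart Γ K B).relIndex Γ ≠ 0 ∧ IsArithmetic m (Γ' ⊓ ratPart Γ K B) := by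
  have h1 : (Γ' ⊓ ratPart Γ K B).relIndex Γ ≠ 0 :=
    Subgroup.relIndex_inf_ne_zero hfin (ratPart_relIndex hc)
  refine ⟨h1, K, H, B, hf, fun γ hγ => hγ.2.2.1, ?_⟩
  have h2 : Subgroup.Commensurable (Γ' ⊓ ratPart Γ K B) Γ := by
    refine ⟨h1, ?_⟩
    rw [Subgroup.relIndex_eq_one.2 (inf_le_left.trans hle)]
    exact one_ne_zero
  exact h2.trans hc

/-- **Twisted pieces, given integral traces.** -/
theorem arith_tw_all (hk : 1 ≤ k) (Γ₃ : Subgroup (SUGroup k))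
    {Γ Γ' : Fin 2 → Subgroup (SUGroup (k + 1))} {g : Fin 2 → SUGroup (k + 2)}
    {G : Subgroup (SUGroup (k + 2))} (hT : Tw Γ Γ' g G)
    (hfin : ∀ b, (Γ' b).relIndex (Γ b) ≠ 0)
    (h₃ : IsLattice Γ₃) (hL : ∀ b, IsLattice (Γ b)) (hA : ∀ b, IsArith (k + 1) (Γ b))
    (hsub : ∀ b, ∀ γ ∈ Γ₃, extend k γ ∈ Γ' b)
    (hagree : ∀ γ ∈ Γ₃, g 0 * extend (k + 1) (extend k γ) * (g 0)⁻¹ =
      g 1 * extend (k + 1) (extend k γ) * (g 1)⁻¹)
    (hlat : IsLattice G) (hf : FGG G) (hint : ∀ γ ∈ G, IsIntegral ℤ γ.toMatrix.trace) :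
    IsArith (k + 2) G := by
  have hfg : ∀ b, FGG (Γ b) := fun b => fgg_of_isArith (hA b)
  have h3 := fun b => exists_form hk h₃ (hA b) fun γ hγ => hT.le b (hsub b γ hγ)
  choose K HH B hform hc using h3
  obtain ⟨Γ'', hΓ''⟩ : ∃ Γ'' : Fin 2 → Subgroup (SUGroup (k + 1)),
    Γ'' = fun b => Γ' b ⊓ ratPart (Γ b) (K b) (B b) := ⟨_, rfl⟩
  have h4 : ∀ b, Γ'' b ≤ Γ' b ∧ (Γ'' b).relIndex (Γ b) ≠ 0 ∧ IsArithmetic (k + 1) (Γ'' b) := by
    intro b
    rw [hΓ'']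
    exact ⟨inf_le_left, isArithmetic_inf (hT.le b) (hfin b) (hform b) (hc b)⟩
  have hT' : Tw Γ Γ'' g G := by
    refine ⟨fun b => (h4 b).1.trans (hT.le b), fun b γ hγ => hT.std b γ ((h4 b).1 hγ), hT.gen⟩
  have hL' : ∀ b, IsLattice (Γ'' b) := fun b =>
    isLattice_of_relIndex (hL b) (hT'.le b) (h4 b).2.1
  have h3' : IsLattice (commonPart Γ₃ Γ'') :=
    isLattice_of_relIndex h₃ (commonPart_le Γ₃ Γ'')
      (commonPart_relIndex (fun b γ hγ => hT.le b (hsub b γ hγ)) fun b => (h4 b).2.1)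
  exact arith_tw hk (commonPart Γ₃ Γ'') hT' (fun b => (h4 b).2.1) h3' hL (fun b => (h4 b).2.2)
    (commonPart_sub Γ₃ Γ'') (fun γ hγ => hagree γ (commonPart_le Γ₃ Γ'' hγ)) hlat
    (rec_of_lattice (by omega) hlat hf) (fun t => harm_lat (by omega) hlat hf t)
    (fun b => rec_of_lattice (by omega) (hL' b) ((hfg b).mono (hT'.le b)))
    (fun b => van_of_lattice (by omega) (hL' b) ((hfg b).mono (hT'.le b))) hint

end Pool.Agent.Lib.MP_5d4057_al.TW
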