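import Pool.Agent.Lib.MP_5d4057_al.TW.Out
import Pool.Agent.Lib.MP_5d4057_al.TW.Fin
import Pool.Agent.Lib.MP_5d4057_al.TW.Int

/-!
# TW: the final theorem
-/

set_option autoImplicit false

namespace Pool.Agent.Lib.MP_5d4057_al.TW

open Matrix Pool.Agent.Lib.MP_5d4057_al Pool.Agent.Lib.MP_5d4057_al.Hyb
  Pool.Agent.Lib.MP_5d4057_al.HM Pool.Agent.Lib.MP_5d4057_al.NU Pool.Agent.Lib.MP_5d4057_al.IN
  Pool.Agent.Lib.MP_5d4057_al.RC

/-- The theorem on twisted pieces in adapted frames. -/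
theorem twAll : TwAll := by
  intro k hk Γ₃ Γ Γ' g G hT hfin h₃ hL hA hsub hagree hlat hf
  obtain ⟨X, ζ, hζ, -, hg⟩ := frame hk Γ₃ h₃ g hagree
  have hζ0 : ζ ≠ 0 := by
    intro h
    rw [h, mul_zero] at hζ
    exact zero_ne_one hζ
  exact arith_tw_all hk Γ₃ hT hfin h₃ hL hA hsub hagree hlat hf
    (integral_tw hk hT (fun b => isLattice_of_relIndex (hL b) (hT.le b) (hfin b)) hA hζ0
      (act_gen_one hg) hlat hf)

end Pool.Agent.Lib.MP_5d4057_al.TW
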