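import Pool.Agent.Lib.MP_5d4057_al.TW.Defs
import Pool.Agent.Lib.MP_5d4057_al.Hyb.Aug
import Pool.Agent.Lib.MP_5d4057_al.Hyb.SpanFin

/-!
# TW: a homomorphism which is standard on a subgroup of finite index is twisted

If `r : Γ →* SU(m+1,1)` is `x ↦ g (1 ⊕ x) g⁻¹` on a subgroup of finite index of the lattice `Γ`, then
`r x = g (χ ⊕ ψ x) g⁻¹` for all `x ∈ Γ`, with scalars `χ`, `ψ`.
-/

set_option autoImplicit false

namespace Pool.Agent.Lib.MP_5d4057_al.TW

open Matrix Pool.Agent.Lib.MP_5d4057_al Pool.Agent.Lib.MP_5d4057_al.Hyb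
  Pool.Agent.Lib.MP_5d4057_al.HM

variable {m k : ℕ}

/-- A matrix commuting with `0 ⊕ Y` for all `Y` is `χ ⊕ ψ`. -/
theorem exists_dsum {n : ℕ} (A : Matrix (Fin (n + 1)) (Fin (n + 1)) ℂ)
    (h : ∀ Y : Matrix (Fin n) (Fin n) ℂ, A * dsum 0 Y = dsum 0 Y * A) :
    ∃ χ ψ : ℂ, A = dsum χ (ψ • 1) := by
  have h1 := h 1
  have hi0 : ∀ i : Fin n, A i.succ 0 = 0 := by
    intro i
    have := congrFun (congrFun h1 i.succ) 0
    simpa [Matrix.mul_apply, Fin.sum_univ_succ, Matrix.one_apply] using this.symm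
  have h0i : ∀ i : Fin n, A 0 i.succ = 0 := by
    intro i
    have := congrFun (congrFun h1 0) i.succ
    simpa [Matrix.mul_apply, Fin.sum_univ_succ, Matrix.one_apply] using this
  set Z : Matrix (Fin n) (Fin n) ℂ := A.submatrix (fun i => i.succ) (fun i => i.succ) with hZ
  have hA : A = dsum (A 0 0) Z := by
    ext i j
    refine Fin.cases ?_ (fun i => ?_) i <;> refine Fin.cases ?_ (fun j => ?_) j
    · rfl
    · rw [dsum_zero_succ, h0i]
    · rw [dsum_succ_zero, hi0]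
    · rfl
  have hcomm : ∀ Y : Matrix (Fin n) (Fin n) ℂ, Z * Y = Y * Z := by
    intro Y
    have h2 := h Y
    rw [hA, dsum_mul, dsum_mul] at h2
    ext i j
    have h3 := congrFun (congrFun h2 i.succ) j.succ
    rwa [dsum_succ_succ, dsum_succ_succ] at h3
  obtain ⟨ζ, hζ⟩ := Matrix.mem_range_scalar_of_commute_single (M := Z)
    (fun i j _ => (hcomm (Matrix.single i j 1)).symm)
  refine ⟨A 0 0, ζ, ?_⟩
  rw [hA, ← hζ]
  congr 1
  rw [Matrix.scalar_apply, Matrix.smul_one_eq_diagonal]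

/-- A matrix commuting with `1 ⊕ Y` for all `Y` in a spanning group is `χ ⊕ ψ`. -/
theorem exists_dsum_of_span (hm : 1 ≤ m) (Δ : Subgroup (SUGroup m))
    (hspan : Submodule.span ℂ (SUGroup.toMatrix '' (Δ : Set (SUGroup m))) = ⊤)
    (A : Matrix (Fin (m + 1 + 1)) (Fin (m + 1 + 1)) ℂ)
    (h : ∀ γ ∈ Δ, A * dsum 1 γ.toMatrix = dsum 1 γ.toMatrix * A) :
    ∃ χ ψ : ℂ, A = dsum χ (ψ • 1) := by
  have hs : Submodule.span ℂ {X | ∃ B ∈ SUGroup.toMatrix '' (Δ : Set (SUGroup m)),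
      X = B - 1} = ⊤ := by
    refine span_sub_one (by omega) _ ⟨1, Δ.one_mem, rfl⟩ ?_ hspan
    rintro _ ⟨x, hx, rfl⟩ _ ⟨y, hy, rfl⟩
    exact ⟨x * y, Δ.mul_mem hx hy, rfl⟩
  refine exists_dsum A fun Y => ?_
  have hY : Y ∈ Submodule.span ℂ {X | ∃ B ∈ SUGroup.toMatrix '' (Δ : Set (SUGroup m)),
      X = B - 1} := by
    rw [hs]
    trivial
  have hadd : ∀ (Y Z : Matrix (Fin (m + 1)) (Fin (m + 1)) ℂ),
      dsum 0 (Y + Z) = dsum 0 Y + dsum (0 : ℂ) Z := by
    intro Y Z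
    ext i j
    refine Fin.cases ?_ (fun i => ?_) i <;> refine Fin.cases ?_ (fun j => ?_) j <;> simp
  have hsm : ∀ (c : ℂ) (Y : Matrix (Fin (m + 1)) (Fin (m + 1)) ℂ),
      dsum 0 (c • Y) = c • dsum (0 : ℂ) Y := by
    intro c Y
    ext i j
    refine Fin.cases ?_ (fun i => ?_) i <;> refine Fin.cases ?_ (fun j => ?_) j <;> simp
  induction hY using Submodule.span_induction with
  | mem Y hY =>
    obtain ⟨_, ⟨x, hx, rfl⟩, rfl⟩ := hY
    have h3 : ∀ (Y Z : Matrix (Fin (m + 1)) (Fin (m + 1)) ℂ),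
        dsum 0 (Y - Z) = dsum 1 Y - dsum (1 : ℂ) Z := by
      intro Y Z
      ext i j
      refine Fin.cases ?_ (fun i => ?_) i <;> refine Fin.cases ?_ (fun j => ?_) j <;> simp
    have h2 : dsum 0 (x.toMatrix - 1) = dsum 1 x.toMatrix - (1 : Matrix _ _ ℂ) := by
      rw [h3, dsum_one]
    rw [h2, Matrix.mul_sub, Matrix.sub_mul, h x hx, Matrix.mul_one, Matrix.one_mul]
  | zero =>
    have h2 : dsum (0 : ℂ) (0 : Matrix (Fin (m + 1)) (Fin (m + 1)) ℂ) = 0 := by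
      have := hsm 0 0
      rwa [zero_smul, zero_smul] at this
    rw [h2, Matrix.mul_zero, Matrix.zero_mul]
  | add Y Z _ _ hY hZ => rw [hadd, Matrix.mul_add, Matrix.add_mul, hY, hZ]
  | smul c Y _ hY => rw [hsm, Matrix.mul_smul, Matrix.smul_mul, hY]

/-- **A homomorphism which is standard on a subgroup of finite index.** -/
theorem twist_of_hom (hm : 1 ≤ m) {Γ Γ' : Subgroup (SUGroup m)} (hΓ : IsLattice Γ)
    (hfin : Γ'.relIndex Γ ≠ 0) (r : Γ →* SUGroup (m + 1)) (g : SUGroup (m + 1))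
    (hr : ∀ x : Γ, (x : SUGroup m) ∈ Γ' → r x = emb g (x : SUGroup m)) (x : Γ) :
    ∃ χ ψ : ℂ, (g⁻¹ * r x * g).toMatrix = dsum χ (ψ • (x : SUGroup m).toMatrix) := by
  -- the normal core
  obtain ⟨N, hN⟩ : ∃ N : Subgroup Γ, N = (Γ'.subgroupOf Γ).normalCore := ⟨_, rfl⟩
  have hNn : N.Normal := by rw [hN]; exact Subgroup.normalCore_normal _
  have hNle : ∀ y ∈ N, (y : SUGroup m) ∈ Γ' := by
    intro y hy
    rw [hN] at hy
    exact Subgroup.mem_subgroupOf.1 (Subgroup.normalCore_le _ hy)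
  have hNi : N.index ≠ 0 := by
    have hfi : (Γ'.subgroupOf Γ).FiniteIndex := ⟨hfin⟩
    rw [hN]
    exact (Subgroup.finiteIndex_normalCore (Γ'.subgroupOf Γ)).index_ne_zero
  obtain ⟨Δ, hΔ⟩ : ∃ Δ : Subgroup (SUGroup m), Δ = N.map Γ.subtype := ⟨_, rfl⟩
  have hΔi : Δ.relIndex Γ ≠ 0 := by
    have h1 : Δ.subgroupOf Γ = N := by
      rw [hΔ]
      exact Subgroup.comap_map_eq_self_of_injective Γ.subtype_injective N
    rw [Subgroup.relIndex, h1]
    exact hNi
  have hspan := span_top_fin hm Γ Δ hΓ hΔi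
  -- the twisted element
  obtain ⟨h, hh⟩ : ∃ h, h = g⁻¹ * r x * g := ⟨_, rfl⟩
  obtain ⟨c, hc⟩ : ∃ c, c = (extend m (x : SUGroup m))⁻¹ * h := ⟨_, rfl⟩
  have hcomm : ∀ γ ∈ Δ, c.toMatrix * dsum 1 γ.toMatrix = dsum 1 γ.toMatrix * c.toMatrix := by
    intro γ hγ
    rw [hΔ] at hγ
    obtain ⟨y, hy, rfl⟩ := hγ
    have h1 : r (x * y * x⁻¹) = emb g (x * y * x⁻¹ : Γ) :=
      hr _ (hNle _ (hNn.conj_mem y hy x))
    have h2 : r y = emb g (y : SUGroup m) := hr _ (hNle _ hy)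
    rw [map_mul, map_mul, map_inv, h2] at h1
    have h3 : h * extend m (y : SUGroup m) * h⁻¹ =
        extend m (x : SUGroup m) * extend m (y : SUGroup m) * (extend m (x : SUGroup m))⁻¹ := by
      have h4 : (emb g ((x * y * x⁻¹ : Γ) : SUGroup m)) =
          g * (extend m (x : SUGroup m) * extend m (y : SUGroup m) *
            (extend m (x : SUGroup m))⁻¹) * g⁻¹ := by
        rw [emb_apply]
        simp
      rw [h4, emb_apply] at h1
      have h5 : h * extend m (y : SUGroup m) * h⁻¹ =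
          g⁻¹ * (r x * (g * extend m (y : SUGroup m) * g⁻¹) * (r x)⁻¹) * g := by
        rw [hh]
        group
      rw [h5, h1]
      group
    have h6 : c * extend m (y : SUGroup m) = extend m (y : SUGroup m) * c := by
      rw [hc]
      calc (extend m (x : SUGroup m))⁻¹ * h * extend m (y : SUGroup m)
          = (extend m (x : SUGroup m))⁻¹ * (h * extend m (y : SUGroup m) * h⁻¹) * h := by group
        _ = _ := by
          rw [h3]
          group
    have h7 := congrArg SUGroup.toMatrix h6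
    rwa [toMatrix_mul, toMatrix_mul, extend_toMatrix] at h7
  obtain ⟨χ, ψ, hcd⟩ := exists_dsum_of_span hm Δ hspan c.toMatrix hcomm
  refine ⟨χ, ψ, ?_⟩
  have h8 : h = extend m (x : SUGroup m) * c := by
    rw [hc]
    group
  rw [← hh, h8, toMatrix_mul, hcd, extend_toMatrix, dsum_mul, one_mul, Matrix.mul_smul,
    Matrix.mul_one]

end Pool.Agent.Lib.MP_5d4057_al.TW
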