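import Pool.Agent.Lib.MP_5d4057_al.TW.Defs

/-!
# TW: the data of F2 for a lattice generated by twisted pieces
-/

set_option autoImplicit false

namespace Pool.Agent.Lib.MP_5d4057_al.TW

open Matrix Filter Topology Pool.Agent.Lib.MP_5d4057_al Pool.Agent.Lib.MP_5d4057_al.Hyb
  Pool.Agent.Lib.MP_5d4057_al.HM Pool.Agent.Lib.MP_5d4057_al.RC

open scoped ComplexOrder MatrixOrder Matrix.Norms.L2Operator

variable {n m j k : ℕ}

/-- Conjugation of a congruence. -/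
theorem conj_congr {Q : Mat m} (hQ : IsUnit Q) (M A : Mat m) :
    Q * M * Q⁻¹ * (Q * A * Qᴴ) * (Q * M * Q⁻¹)ᴴ = Q * (M * A * Mᴴ) * Qᴴ := by
  have hd := (isUnit_iff_isUnit_det _).1 hQ
  have e1 : Q⁻¹ * Q = 1 := nonsing_inv_mul _ hd
  have e2 : Qᴴ * (Q⁻¹)ᴴ = 1 := by
    rw [← conjTranspose_mul, e1, conjTranspose_one]
  rw [conjTranspose_mul, conjTranspose_mul]
  calc Q * M * Q⁻¹ * (Q * A * Qᴴ) * ((Q⁻¹)ᴴ * (Mᴴ * Qᴴ))
      = Q * M * (Q⁻¹ * Q) * A * (Qᴴ * (Q⁻¹)ᴴ) * Mᴴ * Qᴴ := by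
        simp only [Matrix.mul_assoc]
    _ = _ := by
        rw [e1, e2]
        simp only [Matrix.mul_assoc, Matrix.mul_one]

/-- The data of F2, for twisted pieces: `Γ b` is the piece (rational up to scalars), `Γ' b` its
rational standard part. -/
theorem two_data_tw {Γ Γ' : Fin 2 → Subgroup (SUGroup (k + 1))} {g : Fin 2 → SUGroup (k + 2)}
    {G : Subgroup (SUGroup (k + 2))} (hT : Tw Γ Γ' g G) (hR : Rec G) (HL : HLat G)
    (hcocb : ∀ b, Rec (Γ' b))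
    (hspanb : ∀ b, Submodule.span ℂ (SUGroup.toMatrix '' (Γ' b : Set (SUGroup (k + 1)))) = ⊤)
    {K : Subfield ℂ} {D : Matrix (Fin (k + 1)) (Fin (k + 1)) ℂ}
    {HD : Matrix (Fin (k + 1)) (Fin (k + 1)) K} {μ : Fin 2 → ℂ} {q : Fin 2 → K}
    (hn : IsNF k K D HD μ q) (hrat' : ∀ b, ∀ γ ∈ Γ' b, EntriesIn K (dsum (μ b) D) γ.toMatrix)
    (hsc : ∀ b, ∀ γ ∈ Γ b, ∃ s : ℂ, s ≠ 0 ∧ s ^ (k + 2) ∈ K ∧
      EntriesIn K (dsum (μ b) D) (s⁻¹ • γ.toMatrix))
    {X : Matrix (Fin 2) (Fin 2) ℂ} {ζ : ℂ} (hζ : star ζ * ζ = 1)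
    (hg : (g 1).toMatrix = (g 0).toMatrix * (ζ • bsum X 1)) (h01 : X 0 1 ≠ 0)
    (t : ℂ ≃+* ℂ) (ht : ∀ x : K, t (x : ℂ) = x) :
    ∃ (F : Vec (k + 2) → Mat (k + 3)) (Q : Fin 2 → Mat (k + 3)) (l a : Fin 2 → ℂ) (Y : Mat 2),
      (∀ b, IsUnit (Q b)) ∧
      Homog F ∧
      (∀ b, Pce (k + 1) (Γ' b) (fun v => (Q b)⁻¹ * F (act (g b) v) * ((Q b)⁻¹)ᴴ) (l b) (a b)) ∧
      (∀ b, HarmG fun v => (Q b)⁻¹ * F (act (g b) v) * ((Q b)⁻¹)ᴴ) ∧
      (∀ b, ∀ x : SUGroup (k + 2), ∀ γ : SUGroup (k + 1), ∀ χ ψ s : ℂ, s ≠ 0 →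
        ((g b)⁻¹ * x * g b).toMatrix = dsum χ (ψ • γ.toMatrix) →
        EntriesIn K (dsum (μ b) D) (s⁻¹ • γ.toMatrix) →
        x.toMatrix.map t = Q b * dsum (t χ) ((t ψ * (t s / s)) • γ.toMatrix) * (Q b)⁻¹ ∧
        (x ∈ G → star (t χ) * t χ = 1 ∧ (s ^ (k + 2) ∈ K → star (t ψ * (t s / s)) * (t ψ * (t s / s)) = 1) ∧
          ∀ v ∈ Cone (k + 2),
          (Q b)⁻¹ * F (act (g b) (act ((g b)⁻¹ * x * g b) v)) * ((Q b)⁻¹)ᴴ =
          dsum (t χ) ((t ψ * (t s / s)) • γ.toMatrix) * ((Q b)⁻¹ * F (act (g b) v) * ((Q b)⁻¹)ᴴ) *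
            (dsum (t χ) ((t ψ * (t s / s)) • γ.toMatrix))ᴴ)) ∧
      Q 1 = Q 0 * bsum Y (t ζ • 1) ∧ Y 0 1 ≠ 0 ∧ a 0 = t ζ * star (t ζ) * a 1 := by
  set ρ := rhoT t G
  obtain ⟨F, hG, hFe⟩ := HL t
  have hF : Harm F := hG.toHarm
  -- the matrices
  have hBd : ∀ b, (dsum (μ b) D).det ≠ 0 := by
    intro b
    rw [det_dsum]
    exact mul_ne_zero (hn.μ_ne b) hn.det
  set E : Mat (k + 1) := D.map t * D⁻¹ with hE
  set ν : Fin 2 → ℂ := fun b => t (μ b) * (μ b)⁻¹ with hν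
  have hν0 : ∀ b, ν b ≠ 0 := fun b => mul_ne_zero ((map_ne_zero t).2 (hn.μ_ne b))
    (inv_ne_zero (hn.μ_ne b))
  have hEb : ∀ b, (dsum (μ b) D).map t * (dsum (μ b) D)⁻¹ = dsum (ν b) E := by
    intro b
    rw [tm_dsum, dsum_inv _ _ (hn.μ_ne b) hn.det, dsum_mul]
  have hEu : IsUnit E := (tm_unit t hn.det).mul
    (isUnit_nonsing_inv_iff.2 ((isUnit_iff_isUnit_det D).2 (isUnit_iff_ne_zero.2 hn.det)))
  have hEd : E.det ≠ 0 := ((isUnit_iff_isUnit_det E).1 hEu).ne_zero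
  have hEbu : ∀ b, IsUnit (dsum (ν b) E) := by
    intro b
    rw [isUnit_iff_isUnit_det, det_dsum, isUnit_iff_ne_zero]
    exact mul_ne_zero (hν0 b) hEd
  set Q : Fin 2 → Mat (k + 3) := fun b => (g b).toMatrix.map t * dsum 1 (dsum (ν b) E) with hQ
  have hQu : ∀ b, IsUnit (Q b) := by
    intro b
    refine (tm_gp_unit t (g b)).mul ?_
    rw [isUnit_iff_isUnit_det, det_dsum, one_mul]
    exact (isUnit_iff_isUnit_det _).1 (hEbu b)
  have hQρ : ∀ b, ∀ x : SUGroup (k + 2), ∀ γ : SUGroup (k + 1), ∀ χ ψ s : ℂ, s ≠ 0 →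
      ((g b)⁻¹ * x * g b).toMatrix = dsum χ (ψ • γ.toMatrix) →
      EntriesIn K (dsum (μ b) D) (s⁻¹ • γ.toMatrix) →
      x.toMatrix.map t = Q b * dsum (t χ) ((t ψ * (t s / s)) • γ.toMatrix) * (Q b)⁻¹ := by
    intro b x γ χ ψ s hs hx hγs
    have h0 : γ.toMatrix.map t =
        dsum (ν b) E * ((t s / s) • γ.toMatrix) * (dsum (ν b) E)⁻¹ := by
      have h3 : γ.toMatrix = s • (s⁻¹ • γ.toMatrix) := by
        rw [smul_smul, mul_inv_cancel₀ hs, one_smul]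
      have h4 : (s • (s⁻¹ • γ.toMatrix)).map t =
          dsum (ν b) E * ((t s / s) • γ.toMatrix) * (dsum (ν b) E)⁻¹ := by
        rw [tm_smul, tm_fix t ht (hBd b) hγs, hEb b]
        simp only [Matrix.mul_smul, Matrix.smul_mul, smul_smul, div_eq_mul_inv]
      rw [← h4, ← h3]
    rw [tm_of_frame t hx, tm_dsum, tm_smul, h0, hQ]
    show _ = (g b).toMatrix.map t * dsum 1 (dsum (ν b) E) *
      dsum (t χ) ((t ψ * (t s / s)) • γ.toMatrix) *
      ((g b).toMatrix.map t * dsum 1 (dsum (ν b) E))⁻¹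
    rw [Matrix.mul_inv_rev, dsum_inv' one_ne_zero (hEbu b), inv_one]
    have h3 : dsum (t χ) (t ψ • (dsum (ν b) E * ((t s / s) • γ.toMatrix) *
        (dsum (ν b) E)⁻¹)) = dsum 1 (dsum (ν b) E) *
          dsum (t χ) ((t ψ * (t s / s)) • γ.toMatrix) * dsum 1 (dsum (ν b) E)⁻¹ := by
      rw [dsum_mul, dsum_mul, one_mul, mul_one]
      simp only [Matrix.mul_smul, Matrix.smul_mul, smul_smul]
    rw [h3]
    simp only [Matrix.mul_assoc]
  -- the scalars have absolute value one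
  have hχ : ∀ s : ℂ, s ≠ 0 → s ^ (k + 2) ∈ K → star (t s / s) * (t s / s) = 1 := by
    intro s hs hsK
    have h1 : (t s / s) ^ (k + 2) = 1 := by
      have h2 := ht ⟨_, hsK⟩
      have h3 : t s ^ (k + 2) = s ^ (k + 2) := by rw [← map_pow]; exact h2
      rw [div_pow, h3, div_self (pow_ne_zero _ hs)]
    have h2 : ‖t s / s‖ = 1 := Complex.norm_eq_one_of_pow_eq_one h1 (by omega)
    rw [mul_comm, Complex.star_def, Complex.mul_conj, Complex.normSq_eq_norm_sq, h2]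
    simp
  have hstd : ∀ b, ∀ γ : SUGroup (k + 1), ((g b)⁻¹ * emb (g b) γ * g b).toMatrix =
      dsum 1 ((1 : ℂ) • γ.toMatrix) := by
    intro b γ
    have h1 : (g b)⁻¹ * emb (g b) γ * g b = extend (k + 1) γ := by
      rw [emb_apply]
      group
    rw [h1, extend_toMatrix, one_smul]
  have hQρ' : ∀ b, ∀ γ : Γ' b, ρ (embG (hT.std b) γ) =
      Q b * dsum 1 (γ : SUGroup (k + 1)).toMatrix * (Q b)⁻¹ := by
    intro b γ
    have h1 := hQρ b (emb (g b) γ) γ 1 1 1 one_ne_zero (hstd b γ) (by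
      rw [inv_one, one_smul]
      exact hrat' b γ γ.2)
    rw [map_one, div_one, one_mul, one_smul] at h1
    exact h1
  -- the metric on the hyperplanes
  have hsl : ∀ b, ∃ l a : ℂ, 0 < l ∧ 0 < a ∧ ∀ w ∈ Cone (k + 1), F (HM.hyp (g b) w) =
      Q b * dsum l (a • std w) * (Q b)ᴴ := by
    intro b
    refine slice_form_rec (by omega) (hcocb b) (rhoT (RingEquiv.refl ℂ) (Γ' b))
      (span_rhoT _ _ (hspanb b)) harm_std pol_std_inv (equi_std (Γ' b)) (hQu b) (hF.hyp (g b))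
      (hG.gr.comp_hyp (g b))
      (ρ.comp (embG (hT.std b))) ?_ (equi_hypG (hT.std b) hFe)
    intro γ
    rw [rhoT_refl]
    exact hQρ' b γ
  choose l a hl ha hFb using hsl
  -- the relation of the matrices
  set Y : Mat 2 := t ζ • (!![1, 0; 0, (ν 0)⁻¹] * X.map t * !![1, 0; 0, ν 1]) with hY
  have hQ1 : Q 1 = Q 0 * bsum Y (t ζ • 1) := by
    show (g 1).toMatrix.map t * dsum 1 (dsum (ν 1) E) =
      (g 0).toMatrix.map t * dsum 1 (dsum (ν 0) E) * bsum Y (t ζ • 1)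
    rw [hg, tm_mul, tm_smul, tm_bsum, tm_one, dsum_dsum, dsum_dsum, Matrix.mul_assoc,
      Matrix.mul_assoc]
    congr 1
    rw [Matrix.smul_mul, bsum_mul, bsum_mul, smul_bsum]
    congr 1
    · rw [hY, Matrix.mul_smul, ← Matrix.mul_assoc, ← Matrix.mul_assoc]
      have h4 : (!![1, 0; 0, ν 0] : Mat 2) * !![1, 0; 0, (ν 0)⁻¹] = 1 := by
        rw [Matrix.mul_fin_two, Matrix.one_fin_two]
        simp [hν0 0]
      rw [h4, Matrix.one_mul]
    · rw [Matrix.one_mul, Matrix.mul_smul, Matrix.mul_one]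
  have hζ0 : t ζ ≠ 0 := by
    refine (map_ne_zero t).2 ?_
    intro h
    rw [h, mul_zero] at hζ
    exact zero_ne_one hζ
  have hY01 : Y 0 1 ≠ 0 := by
    have : Y 0 1 = t ζ * (t (X 0 1) * ν 1) := by
      simp only [hY, Matrix.smul_apply, Matrix.mul_apply, Fin.sum_univ_two, Matrix.of_apply,
        Matrix.cons_val', Matrix.cons_val_zero, Matrix.cons_val_one, Matrix.map_apply, smul_eq_mul,
        one_mul, zero_mul, mul_zero, add_zero, zero_add, Matrix.cons_val_fin_one]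
    rw [this]
    exact mul_ne_zero hζ0 (mul_ne_zero ((map_ne_zero t).2 h01) (hν0 1))
  clear_value Q Y
  -- the scalars of the twisted elements
  have hab : ∀ b, ∀ x ∈ G, ∀ γ : SUGroup (k + 1), ∀ χ ψ s : ℂ, s ≠ 0 →
      ((g b)⁻¹ * x * g b).toMatrix = dsum χ (ψ • γ.toMatrix) →
      EntriesIn K (dsum (μ b) D) (s⁻¹ • γ.toMatrix) → star (t χ) * t χ = 1 := by
    intro b x hxG γ χ ψ s hs hx hγs
    have hb := base_mem (k + 1)
    have hsp := (TwEl.scalars hx).2.1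
    have hψ0 : ψ ≠ 0 := by
      intro h
      rw [h, mul_zero] at hsp
      exact zero_ne_one hsp
    have h1 := hFe ⟨x, hxG⟩ _ (hyp_mem (g b) hb)
    have h2 : ρ ⟨x, hxG⟩ = Q b * dsum (t χ) ((t ψ * (t s / s)) • γ.toMatrix) * (Q b)⁻¹ :=
      hQρ b x γ χ ψ s hs hx hγs
    have h3 : F (act x (HM.hyp (g b) (base (k + 1)))) = F (HM.hyp (g b) (act γ (base (k + 1)))) := by
      rw [act_hyp_of_frame hx]
      exact hF.hom ψ hψ0 _ (hyp_mem (g b) (act_mem γ hb))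
    have h4 : F (HM.hyp (g b) (act γ (base (k + 1)))) =
        ρ ⟨x, hxG⟩ * F (HM.hyp (g b) (base (k + 1))) * (ρ ⟨x, hxG⟩)ᴴ := by
      rw [← h3]
      exact h1
    rw [hFb b _ hb, hFb b _ (act_mem γ hb), h2] at h4
    have hQh : IsUnit (Q b)ᴴ := (isUnit_conjTranspose _).2 (hQu b)
    rw [conj_congr (hQu b)] at h4
    have h5 := h4
    have h6 := (hQu b).mul_left_cancel (hQh.mul_right_cancel h5)
    rw [dsum_conjTranspose, dsum_mul, dsum_mul] at h6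
    have h7 := congrFun (congrFun h6 0) 0
    rw [dsum_zero_zero, dsum_zero_zero] at h7
    have h8 : l b * (star (t χ) * t χ - 1) = 0 := by linear_combination -h7
    have h9 := (mul_eq_zero.1 h8).resolve_left (hl b).ne'
    linear_combination h9
  have hab' : ∀ b, ∀ x ∈ G, ∀ γ : SUGroup (k + 1), ∀ χ ψ s : ℂ, s ≠ 0 → s ^ (k + 2) ∈ K →
      ((g b)⁻¹ * x * g b).toMatrix = dsum χ (ψ • γ.toMatrix) →
      EntriesIn K (dsum (μ b) D) (s⁻¹ • γ.toMatrix) →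
      star (t ψ * (t s / s)) * (t ψ * (t s / s)) = 1 := by
    intro b x hxG γ χ ψ s hs hsK hx hγs
    have h1 := hab b x hxG γ χ ψ s hs hx hγs
    have h2 := hχ s hs hsK
    have h3 := congrArg t (TwEl.scalars hx).2.2
    rw [map_mul, map_pow, map_one] at h3
    have h4 : star (t ψ) * t ψ = 1 := by
      have h5 : ‖t χ‖ = 1 := by
        have := congrArg norm h1
        rw [norm_mul, norm_star, norm_one] at this
        nlinarith [norm_nonneg (t χ)]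
      have h6 : ‖t ψ‖ ^ (k + 2) = 1 := by
        have := congrArg norm h3
        rw [norm_mul, norm_pow, norm_one, h5, one_mul] at this
        exact this
      have h7 : ‖t ψ‖ = 1 := (pow_eq_one_iff_of_nonneg (norm_nonneg _) (by omega)).1 h6
      rw [mul_comm, Complex.star_def, Complex.mul_conj, Complex.normSq_eq_norm_sq, h7]
      simp
    rw [star_mul]
    linear_combination (star (t s / s) * (t s / s)) * h4 + h2
  -- comparison at the base point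
  have hb : base (k + 1) ∈ Cone (k + 1) := base_mem _
  have hb0 := hFb 0 _ hb
  have hb1 := hFb 1 _ hb
  have hQ0' : IsUnit (Q 0)ᴴ := (isUnit_conjTranspose _).2 (hQu 0)
  have hcmp : dsum (l 0) (a 0 • (1 : Mat (k + 2))) = bsum Y (t ζ • 1) *
      dsum (l 1) (a 1 • (1 : Mat (k + 2))) * (bsum Y (t ζ • 1))ᴴ := by
    rw [std_base] at hb0 hb1
    rw [hyp_agree hζ hg hF.hom, hb0, hQ1, conjTranspose_mul] at hb1
    have h3 : Q 0 * (dsum (l 0) (a 0 • (1 : Mat (k + 2)))) * (Q 0)ᴴ = Q 0 * (bsum Y (t ζ • 1) *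
        dsum (l 1) (a 1 • (1 : Mat (k + 2))) * (bsum Y (t ζ • 1))ᴴ) * (Q 0)ᴴ := by
      rw [hb1]
      simp only [Matrix.mul_assoc]
    exact (hQu 0).mul_left_cancel (hQ0'.mul_right_cancel h3)
  have hone : (1 : Mat (k + 2)) = dsum 1 1 := dsum_one.symm
  rw [hone, smul_dsum, smul_dsum, dsum_dsum, dsum_dsum, bsum_conjTranspose, bsum_mul, bsum_mul]
    at hcmp
  obtain ⟨hc1, hc2⟩ := bsum_inj hcmp
  have ha01 : a 0 = t ζ * star (t ζ) * a 1 := by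
    have h1 := congrFun (congrFun hc2 0) 0
    rw [conjTranspose_smul, conjTranspose_one] at h1
    simp only [Matrix.mul_smul, Matrix.mul_one, Matrix.smul_apply,
      Matrix.one_apply_eq, smul_eq_mul] at h1
    linear_combination h1
  -- the invariant form
  have hJu : ∀ b, dsum (l b) (a b • J (k + 1)) * dsum (l b)⁻¹ ((a b)⁻¹ • J (k + 1)) = 1 := by
    intro b
    rw [dsum_mul, Matrix.smul_mul, Matrix.mul_smul, J_J, smul_smul, mul_inv_cancel₀ (hl b).ne',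
      mul_inv_cancel₀ (ha b).ne', one_smul, dsum_one]
  set N : Mat (k + 3) := Q 0 * dsum (l 0) (a 0 • J (k + 1)) * (Q 0)ᴴ with hN
  have hNb : ∀ b, N = Q b * dsum (l b) (a b • J (k + 1)) * (Q b)ᴴ := by
    rw [Fin.forall_fin_two]
    refine ⟨rfl, ?_⟩
    rw [hN, hQ1, conjTranspose_mul]
    have h1 : dsum (l 0) (a 0 • J (k + 1)) = bsum Y (t ζ • 1) * dsum (l 1) (a 1 • J (k + 1)) *
        (bsum Y (t ζ • 1))ᴴ := by
      rw [J_succ, smul_dsum, smul_dsum, dsum_dsum, dsum_dsum, bsum_conjTranspose, bsum_mul, bsum_mul,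
        ← hc1]
      congr 1
      rw [conjTranspose_smul, conjTranspose_one, ha01]
      simp only [Matrix.mul_smul, Matrix.smul_mul, Matrix.mul_one, Matrix.one_mul, smul_smul]
      congr 1
      ring
    rw [h1]
    simp only [Matrix.mul_assoc]
  have hNu : IsUnit N := ((hQu 0).mul (IsUnit.of_mul_eq_one _ (hJu 0))).mul hQ0'
  have hreal : ∀ {z : ℂ}, 0 < z → star z = z := by
    intro z hz
    rw [Complex.star_def, Complex.conj_eq_iff_im]
    exact (Complex.lt_def.1 hz).2.symm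
  have hNh : Nᴴ = N := by
    rw [hN, conjTranspose_mul, conjTranspose_mul, conjTranspose_conjTranspose, dsum_conjTranspose,
      conjTranspose_smul, J_herm, hreal (hl 0), hreal (ha 0), Matrix.mul_assoc]
  have hNinv : ∀ γ : G, ρ γ * N * (ρ γ)ᴴ = N := by
    have h1 : ∀ x ∈ G, x.toMatrix.map t * N * (x.toMatrix.map t)ᴴ = N := by
      intro x hx
      replace hx := hT.gen hx
      induction hx using Subgroup.closure_induction with
      | mem x hx =>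
        obtain ⟨hxG, b, γ, hγ, χ, ψ, hx⟩ := hx
        obtain ⟨s, hs, hsK, hγs⟩ := hsc b γ hγ
        have h2 := hQρ b x γ χ ψ s hs hx hγs
        have hχ1 := hab b x hxG γ χ ψ s hs hx hγs
        have hψ1 := hab' b x hxG γ χ ψ s hs hsK hx hγs
        obtain ⟨c, hc⟩ : ∃ c, c = t ψ * (t s / s) := ⟨_, rfl⟩
        rw [← hc] at h2 hψ1
        rw [h2, hNb b]
        have e3 : dsum (t χ) (c • γ.toMatrix) * dsum (l b) (a b • J (k + 1)) *
            (dsum (t χ) (c • γ.toMatrix))ᴴ = dsum (l b) (a b • J (k + 1)) := by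
          rw [dsum_conjTranspose, dsum_mul, dsum_mul, conjTranspose_smul]
          simp only [Matrix.mul_smul, Matrix.smul_mul, smul_smul]
          rw [mul_J_mul, mul_left_comm, hψ1, mul_one]
          congr 1
          linear_combination (l b) * hχ1
        rw [conj_congr (hQu b), e3]
      | one => rw [toMatrix_one, tm_one, Matrix.one_mul, conjTranspose_one, Matrix.mul_one]
      | mul x y _ _ hx hy =>
        rw [toMatrix_mul, tm_mul, conjTranspose_mul]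
        calc x.toMatrix.map t * y.toMatrix.map t * N * ((y.toMatrix.map t)ᴴ * (x.toMatrix.map t)ᴴ)
            = x.toMatrix.map t * (y.toMatrix.map t * N * (y.toMatrix.map t)ᴴ) *
              (x.toMatrix.map t)ᴴ := by simp only [Matrix.mul_assoc]
          _ = _ := by rw [hy, hx]
      | inv x _ hx =>
        have hu := tm_gp_unit t x
        have hd := (isUnit_iff_isUnit_det _).1 hu
        rw [tm_gp_inv]
        set A := x.toMatrix.map t with hA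
        have e1 : A⁻¹ * A = 1 := nonsing_inv_mul _ hd
        have e2 : Aᴴ * (A⁻¹)ᴴ = 1 := by rw [← conjTranspose_mul, e1, conjTranspose_one]
        calc A⁻¹ * N * (A⁻¹)ᴴ = A⁻¹ * (A * N * Aᴴ) * (A⁻¹)ᴴ := by rw [hx]
          _ = (A⁻¹ * A) * N * (Aᴴ * (A⁻¹)ᴴ) := by simp only [Matrix.mul_assoc]
          _ = N := by rw [e1, e2, Matrix.one_mul, Matrix.mul_one]
    intro γ
    exact h1 γ γ.2
  -- the reflected metric
  have hF' : Harm fun v => N * (F v)⁻¹ * N := by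
    have := hF.inv.congr hNu
    rwa [hNh] at this
  have hρu : ∀ γ, IsUnit (ρ γ) := fun γ => tm_gp_unit t (γ : SUGroup (k + 2))
  have hFe' : Equi ρ fun v => N * (F v)⁻¹ * N := by
    intro γ v hv
    show N * (F (act (γ : SUGroup (k + 2)) v))⁻¹ * N = ρ γ * (N * (F v)⁻¹ * N) * (ρ γ)ᴴ
    rw [hFe γ v hv]
    have hd := (isUnit_iff_isUnit_det _).1 (hρu γ)
    have hi := hNinv γ
    set A := ρ γ with hA
    have e1 : A⁻¹ * A = 1 := nonsing_inv_mul _ hd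
    have hd' := (isUnit_iff_isUnit_det _).1 ((isUnit_conjTranspose A).2 (hρu γ))
    have e2 : Aᴴ * Aᴴ⁻¹ = 1 := mul_nonsing_inv _ hd'
    have i1 : N * Aᴴ⁻¹ = A * N := by
      calc N * Aᴴ⁻¹ = (A * N * Aᴴ) * Aᴴ⁻¹ := by rw [hi]
        _ = A * N * (Aᴴ * Aᴴ⁻¹) := by simp only [Matrix.mul_assoc]
        _ = _ := by rw [e2, Matrix.mul_one]
    have i2 : A⁻¹ * N = N * Aᴴ := by
      calc A⁻¹ * N = A⁻¹ * (A * N * Aᴴ) := by rw [hi]
        _ = (A⁻¹ * A) * N * Aᴴ := by simp only [Matrix.mul_assoc]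
        _ = _ := by rw [e1, Matrix.one_mul]
    rw [Matrix.mul_inv_rev, Matrix.mul_inv_rev]
    calc N * (Aᴴ⁻¹ * ((F v)⁻¹ * A⁻¹)) * N = (N * Aᴴ⁻¹) * (F v)⁻¹ * (A⁻¹ * N) := by
          simp only [Matrix.mul_assoc]
      _ = _ := by rw [i1, i2]; simp only [Matrix.mul_assoc]
  have hinvQ : ∀ b, ∀ A : Mat (k + 3), (Q b * A * (Q b)ᴴ)⁻¹ = (Q b)ᴴ⁻¹ * A⁻¹ * (Q b)⁻¹ := by
    intro b A
    rw [Matrix.mul_inv_rev, Matrix.mul_inv_rev, ← Matrix.mul_assoc]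
  have hcan : ∀ b, (Q b)⁻¹ * Q b = 1 ∧ (Q b)ᴴ * (Q b)ᴴ⁻¹ = 1 := by
    intro b
    have hd := (isUnit_iff_isUnit_det _).1 (hQu b)
    have hd' := (isUnit_iff_isUnit_det _).1 ((isUnit_conjTranspose (Q b)).2 (hQu b))
    exact ⟨nonsing_inv_mul _ hd, mul_nonsing_inv _ hd'⟩
  have hrefl : ∀ v ∈ Cone (k + 2), N * (F v)⁻¹ * N = F v := by
    refine eq_of_unique_rec (by omega) hR hF hF' hFe hFe' hG.grInv (hG.grInv.conj N N)
      (hyp_mem (g 0) hb) ?_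
    show N * (F (HM.hyp (g 0) (base (k + 1))))⁻¹ * N = F (HM.hyp (g 0) (base (k + 1)))
    have h1u : IsUnit (a 0 • (1 : Mat (k + 2))) := by
      refine IsUnit.of_mul_eq_one ((a 0)⁻¹ • (1 : Mat (k + 2))) ?_
      rw [Matrix.smul_mul, Matrix.mul_smul, smul_smul, mul_inv_cancel₀ (ha 0).ne',
        one_smul, Matrix.one_mul]
    rw [hb0, std_base, hinvQ, dsum_inv' (hl 0).ne' h1u, hN]
    obtain ⟨e1, e2⟩ := hcan 0
    calc Q 0 * dsum (l 0) (a 0 • J (k + 1)) * (Q 0)ᴴ * ((Q 0)ᴴ⁻¹ *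
          dsum (l 0)⁻¹ (a 0 • (1 : Mat (k + 2)))⁻¹ * (Q 0)⁻¹) *
          (Q 0 * dsum (l 0) (a 0 • J (k + 1)) * (Q 0)ᴴ)
        = Q 0 * dsum (l 0) (a 0 • J (k + 1)) * ((Q 0)ᴴ * (Q 0)ᴴ⁻¹) *
          dsum (l 0)⁻¹ (a 0 • (1 : Mat (k + 2)))⁻¹ * ((Q 0)⁻¹ * Q 0) *
          dsum (l 0) (a 0 • J (k + 1)) * (Q 0)ᴴ := by simp only [Matrix.mul_assoc]
      _ = Q 0 * (dsum (l 0) (a 0 • J (k + 1)) * dsum (l 0)⁻¹ (a 0 • (1 : Mat (k + 2)))⁻¹ *
          dsum (l 0) (a 0 • J (k + 1))) * (Q 0)ᴴ := by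
          rw [e1, e2]
          simp only [Matrix.mul_assoc, Matrix.mul_one]
      _ = _ := by
          have h5 : (a 0 • (1 : Mat (k + 2)))⁻¹ = (a 0)⁻¹ • 1 := by
            apply inv_eq_left_inv
            rw [Matrix.smul_mul, Matrix.mul_smul, smul_smul, inv_mul_cancel₀ (ha 0).ne',
              one_smul, Matrix.one_mul]
          rw [h5, dsum_mul, dsum_mul, mul_inv_cancel₀ (hl 0).ne', one_mul]
          simp only [Matrix.mul_smul, Matrix.smul_mul, smul_smul, J_J,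
            inv_mul_cancel₀ (ha 0).ne', mul_one]
  have hequi : ∀ b, ∀ x : SUGroup (k + 2), ∀ γ : SUGroup (k + 1), ∀ χ ψ s : ℂ, s ≠ 0 →
        ((g b)⁻¹ * x * g b).toMatrix = dsum χ (ψ • γ.toMatrix) →
        EntriesIn K (dsum (μ b) D) (s⁻¹ • γ.toMatrix) → x ∈ G → ∀ v ∈ Cone (k + 2),
          (Q b)⁻¹ * F (act (g b) (act ((g b)⁻¹ * x * g b) v)) * ((Q b)⁻¹)ᴴ =
          dsum (t χ) ((t ψ * (t s / s)) • γ.toMatrix) * ((Q b)⁻¹ * F (act (g b) v) * ((Q b)⁻¹)ᴴ) *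
            (dsum (t χ) ((t ψ * (t s / s)) • γ.toMatrix))ᴴ := by
    intro b x γ χ ψ s hs hx hγs hxG v hv
    obtain ⟨e1, e2⟩ := hcan b
    have e2' : (Q b)ᴴ * ((Q b)⁻¹)ᴴ = 1 := by rw [← conjTranspose_mul, e1, conjTranspose_one]
    have h2 : F (act x (act (g b) v)) = ρ ⟨x, hxG⟩ * F (act (g b) v) * (ρ ⟨x, hxG⟩)ᴴ :=
      hFe ⟨x, hxG⟩ (act (g b) v) (act_mem _ hv)
    have h3 : ρ ⟨x, hxG⟩ = Q b * dsum (t χ) ((t ψ * (t s / s)) • γ.toMatrix) * (Q b)⁻¹ :=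
      hQρ b x γ χ ψ s hs hx hγs
    rw [← act_frame, h2, h3, conjTranspose_mul, conjTranspose_mul]
    have h5 : ∀ A : Mat (k + 3), (Q b)⁻¹ * (Q b * A) = A := fun A => by
      rw [← Matrix.mul_assoc, e1, Matrix.one_mul]
    simp only [Matrix.mul_assoc, h5]
    rw [e2', Matrix.mul_one]
  refine ⟨F, Q, l, a, Y, hQu, hF.hom, ?_, fun b => hG.pre (g b)
    (isUnit_nonsing_inv_iff.2 (hQu b)), fun b x γ χ ψ s hs hx hγs => ⟨hQρ b x γ χ ψ s hs hx hγs,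
    fun hxG => ⟨hab b x hxG γ χ ψ s hs hx hγs, fun hsK => hab' b x hxG γ χ ψ s hs hsK hx hγs,
    hequi b x γ χ ψ s hs hx hγs hxG⟩⟩, hQ1, hY01, ha01⟩
  intro b
  obtain ⟨e1, e2⟩ := hcan b
  have e2' : (Q b)ᴴ * ((Q b)⁻¹)ᴴ = 1 := by rw [← conjTranspose_mul, e1, conjTranspose_one]
  have hQi : IsUnit (Q b)⁻¹ := isUnit_nonsing_inv_iff.2 (hQu b)
  refine ⟨?_, hl b, ha b, ?_, ?_, ?_⟩
  · exact (hF.comp (actC (g b)) fun v hv => act_mem (g b) hv).congr hQi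
  · intro w hw
    show (Q b)⁻¹ * F (HM.hyp (g b) w) * ((Q b)⁻¹)ᴴ = _
    rw [hFb b w hw]
    calc (Q b)⁻¹ * (Q b * dsum (l b) (a b • std w) * (Q b)ᴴ) * ((Q b)⁻¹)ᴴ
        = ((Q b)⁻¹ * Q b) * dsum (l b) (a b • std w) * ((Q b)ᴴ * ((Q b)⁻¹)ᴴ) := by
          simp only [Matrix.mul_assoc]
      _ = _ := by rw [e1, e2', Matrix.one_mul, Matrix.mul_one]
  · intro v hv
    have hv' := act_mem (g b) hv
    have h1 := hrefl _ hv'
    rw [hNb b] at h1
    show dsum (l b) (a b • J (k + 1)) * ((Q b)⁻¹ * F (act (g b) v) * ((Q b)⁻¹)ᴴ)⁻¹ *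
      dsum (l b) (a b • J (k + 1)) = (Q b)⁻¹ * F (act (g b) v) * ((Q b)⁻¹)ᴴ
    have h2 : ((Q b)⁻¹ * F (act (g b) v) * ((Q b)⁻¹)ᴴ)⁻¹ = (Q b)ᴴ * (F (act (g b) v))⁻¹ * Q b := by
      apply inv_eq_left_inv
      have hFi : (F (act (g b) v))⁻¹ * F (act (g b) v) = 1 :=
        nonsing_inv_mul _ ((isUnit_iff_isUnit_det _).1 (hF.unit hv'))
      have e3 : Q b * (Q b)⁻¹ = 1 := mul_nonsing_inv _ ((isUnit_iff_isUnit_det _).1 (hQu b))
      calc (Q b)ᴴ * (F (act (g b) v))⁻¹ * Q b * ((Q b)⁻¹ * F (act (g b) v) * ((Q b)⁻¹)ᴴ)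
          = (Q b)ᴴ * (F (act (g b) v))⁻¹ * (Q b * (Q b)⁻¹) * F (act (g b) v) * ((Q b)⁻¹)ᴴ := by
            simp only [Matrix.mul_assoc]
        _ = (Q b)ᴴ * ((F (act (g b) v))⁻¹ * F (act (g b) v)) * ((Q b)⁻¹)ᴴ := by
            rw [e3]
            simp only [Matrix.mul_assoc, Matrix.mul_one]
        _ = 1 := by rw [hFi, Matrix.mul_one, e2']
    rw [h2]
    calc dsum (l b) (a b • J (k + 1)) * ((Q b)ᴴ * (F (act (g b) v))⁻¹ * Q b) *
          dsum (l b) (a b • J (k + 1))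
        = (Q b)⁻¹ * (Q b * dsum (l b) (a b • J (k + 1)) * (Q b)ᴴ * (F (act (g b) v))⁻¹ *
          (Q b * dsum (l b) (a b • J (k + 1)) * (Q b)ᴴ)) * ((Q b)⁻¹)ᴴ := by
          have : ∀ A : Mat (k + 3), (Q b)⁻¹ * (Q b * A) = A := fun A => by
            rw [← Matrix.mul_assoc, e1, Matrix.one_mul]
          simp only [Matrix.mul_assoc, this]
          rw [e2', Matrix.mul_one]
      _ = _ := by rw [h1]
  · intro γ hγ v hv
    have h1 := hequi b (emb (g b) γ) γ 1 1 1 one_ne_zero (hstd b γ) (by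
      rw [inv_one, one_smul]
      exact hrat' b γ hγ) (hT.std b γ hγ) v hv
    have h2 : (g b)⁻¹ * emb (g b) γ * g b = extend (k + 1) γ := by
      rw [emb_apply]
      group
    rw [map_one, div_one, one_mul, one_smul, h2] at h1
    exact h1

end Pool.Agent.Lib.MP_5d4057_al.TW
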