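import Pool.Agent.Lib.MP_5d4057_al.TW.Data
import Pool.Agent.Lib.MP_5d4057_al.HM.AppVan

/-!
# TW: the scalars of the twisted elements
-/

set_option autoImplicit false

namespace Pool.Agent.Lib.MP_5d4057_al.HM

open Matrix Filter Topology Pool.Agent.Lib.MP_5d4057_al Pool.Agent.Lib.MP_5d4057_al.Hyb

open scoped ComplexOrder MatrixOrder Matrix.Norms.L2Operator

variable {n m j k : ℕ}

/-- The scalars of a twisted element. -/
theorem Pce.scalar_tw {Γ : Subgroup (SUGroup j)} {G : Vec (j + 1) → Mat (j + 2)} {l a : ℂ}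
    (P : Pce j Γ G l a) {p : ℂ} (hp0 : p ≠ 0)
    (hp : ∀ w ∈ Cone j, NN G w = (-(q w : ℂ)⁻¹ * p) • vecMulVec (nrm j) (star (inc j w)))
    (y : SUGroup (j + 1)) (γ : SUGroup j) {χ ψ χ' c : ℂ}
    (hy : y.toMatrix = dsum χ (ψ • γ.toMatrix)) (hψ : star ψ * ψ = 1) (hc : star c * c = 1)
    (hG : ∀ v ∈ Cone (j + 1), G (act y v) =
      dsum χ' (c • γ.toMatrix) * G v * (dsum χ' (c • γ.toMatrix))ᴴ) : c * χ = χ' * ψ := by
  have hw := base_mem j
  have hu := inc_mem hw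
  have hψ0 : ψ ≠ 0 := by
    intro h
    rw [h, mul_zero] at hψ
    exact zero_ne_one hψ
  obtain ⟨M, hM⟩ : ∃ M, M = dsum χ' (c • γ.toMatrix) := ⟨_, rfl⟩
  rw [← hM] at hG
  have h1 : HasZ (fun v => G (actC y v)) (inc j (base j)) (nrm j) _ _ :=
    (hasZ (P.harm.diff (act_mem y hu)) (actC y (nrm j))).comp_lin (actC y)
  have h2 : HasZ (fun v => M * G v * Mᴴ) (inc j (base j)) (nrm j) _ _ :=
    (hasZ (P.harm.diff hu) (nrm j)).clm (ContinuousLinearMap.mulLeftRight ℂ (Mat (j + 2)) M Mᴴ)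
  have h3 : (fun v => G (actC y v)) =ᶠ[𝓝 (inc j (base j))] fun v => M * G v * Mᴴ := by
    filter_upwards [mem_nhds_cone hu] with v hv
    exact hG v hv
  have h4 : pz G (act y (inc j (base j))) (actC y (nrm j)) =
      M * pz G (inc j (base j)) (nrm j) * Mᴴ := by
    rw [← h1.pz, pz_congr h3, h2.pz]
    rfl
  have a1 : actC y (nrm j) = χ • nrm j := by
    rw [actC_apply, act, hy, nrm, dsum_mulVec_cons, mulVec_zero, mul_one]
    ext i
    refine Fin.cases ?_ (fun i => ?_) i <;> simp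
  have a2 : act y (inc j (base j)) = inc j (ψ • act γ (base j)) := by
    rw [act, hy, dsum_mulVec_inc, smul_mulVec]
    rfl
  rw [a1, a2, pz_smul_dir] at h4
  have h5 : χ • NN G (ψ • act γ (base j)) = M * NN G (base j) * Mᴴ := h4
  have hγw := act_mem γ hw
  have hqψ : q (ψ • act γ (base j)) = q (base j) := by
    have h6 : (q (ψ • act γ (base j)) : ℂ) = (q (act γ (base j)) : ℂ) := by
      rw [q_smul', hψ, one_mul]
    have h7 : q (ψ • act γ (base j)) = q (act γ (base j)) := by exact_mod_cast h6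
    rw [h7, q_act]
  rw [hp _ (smul_mem_cone hψ0 hγw), hp _ hw, hqψ, q_base, Matrix.mul_smul, Matrix.smul_mul,
    mul_vecMulVec, vecMulVec_mul, ← star_mulVec] at h5
  have e1 : M *ᵥ nrm j = χ' • nrm j := by
    rw [hM, nrm, dsum_mulVec_cons, mulVec_zero, mul_one]
    ext i
    refine Fin.cases ?_ (fun i => ?_) i <;> simp
  have e2 : M *ᵥ inc j (base j) = c • inc j (act γ (base j)) := by
    rw [hM, dsum_mulVec_inc, smul_mulVec, map_smul]
    rfl
  rw [e1, e2, star_smul, map_smul, star_smul] at h5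
  have hne : act γ (base j) ≠ 0 := by
    intro h
    have h6 : q (act γ (base j)) < 0 := act_mem γ hw
    rw [h] at h6
    have h7 : q (0 : Vec j) = 0 := by
      rw [q, herm, mulVec_zero, dotProduct_zero]
      rfl
    exact absurd h7 h6.ne
  obtain ⟨i, hi⟩ := Function.ne_iff.1 hne
  have h6 := congrFun (congrFun h5 0) i.succ
  simp only [Matrix.smul_apply, vecMulVec_apply, Pi.smul_apply, Pi.star_apply, smul_eq_mul,
    inc_succ] at h6
  have h7 : nrm j 0 = 1 := rfl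
  rw [h7] at h6
  have h8 : star (act γ (base j) i) ≠ 0 := star_ne_zero.2 hi
  have h9 : p * star (act γ (base j) i) * (χ * star ψ - χ' * star c) = 0 := by
    push_cast at h6
    linear_combination h6
  have h10 := (mul_eq_zero.1 h9).resolve_left (mul_ne_zero hp0 h8)
  linear_combination (c * ψ) * h10 - (c * χ) * hψ + (χ' * ψ) * hc

end Pool.Agent.Lib.MP_5d4057_al.HM

namespace Pool.Agent.Lib.MP_5d4057_al.TW

open Matrix Filter Topology Pool.Agent.Lib.MP_5d4057_al Pool.Agent.Lib.MP_5d4057_al.Hyb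
  Pool.Agent.Lib.MP_5d4057_al.HM Pool.Agent.Lib.MP_5d4057_al.RC

open scoped ComplexOrder MatrixOrder Matrix.Norms.L2Operator

variable {n m j k : ℕ}

/-- The scalar of a twisted element is fixed by the automorphisms of `ℂ` over `K`. -/
theorem key_tw {Γ Γ' : Fin 2 → Subgroup (SUGroup (k + 1))} {g : Fin 2 → SUGroup (k + 2)}
    {G₀ : Subgroup (SUGroup (k + 2))} (hT : Tw Γ Γ' g G₀) (hR : Rec G₀) (HL : HLat G₀)
    (hcocb : ∀ b, Rec (Γ' b))
    (hspanb : ∀ b, Submodule.span ℂ (SUGroup.toMatrix '' (Γ' b : Set (SUGroup (k + 1)))) = ⊤)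
    {K : Subfield ℂ} {D : Matrix (Fin (k + 1)) (Fin (k + 1)) ℂ}
    {HD : Matrix (Fin (k + 1)) (Fin (k + 1)) K} {μ : Fin 2 → ℂ} {q : Fin 2 → K}
    (hn : IsNF k K D HD μ q) (hrat' : ∀ b, ∀ γ ∈ Γ' b, EntriesIn K (dsum (μ b) D) γ.toMatrix)
    (hsc : ∀ b, ∀ γ ∈ Γ b, ∃ s : ℂ, s ≠ 0 ∧ s ^ (k + 2) ∈ K ∧
      EntriesIn K (dsum (μ b) D) (s⁻¹ • γ.toMatrix))
    {X : Matrix (Fin 2) (Fin 2) ℂ} {ζ : ℂ} (hζ : star ζ * ζ = 1) (hX : Xᴴ * X = 1)
    (hg : (g 1).toMatrix = (g 0).toMatrix * (ζ • bsum X 1)) (h01 : X 0 1 ≠ 0)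
    (t : ℂ ≃+* ℂ) (ht : ∀ x : K, t (x : ℂ) = x) :
    ∀ b, ∀ x ∈ G₀, ∀ γ : SUGroup (k + 1), ∀ χ ψ s : ℂ, s ≠ 0 → s ^ (k + 2) ∈ K →
      ((g b)⁻¹ * x * g b).toMatrix = dsum χ (ψ • γ.toMatrix) →
      EntriesIn K (dsum (μ b) D) (s⁻¹ • γ.toMatrix) → t (ψ * s / χ) = ψ * s / χ := by
  obtain ⟨F, Q, l, a, Y, hQu, hFh, P, hPG, hequi, hQ1, hY01, ha01⟩ :=
    two_data_tw hT hR HL hcocb hspanb hn hrat' hsc hζ hg h01 t ht
  have hp := fun b => nrm_all_rec (P b) (by omega) (hcocb b) (hPG b).grD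
  choose p hpall using hp
  have hp : ∀ b, pz (fun v => (Q b)⁻¹ * F (act (g b) v) * ((Q b)⁻¹)ᴴ) (base (k + 2))
      (nrm (k + 1)) = p b • vecMulVec (nrm (k + 1)) (star (base (k + 2))) := by
    intro b
    have h1 := hpall b _ (base_mem (k + 1))
    rw [NN, inc_base, q_base] at h1
    rw [h1]
    congr 1
    push_cast
    ring
  have hB := base_mem (k + 2)
  have hζ0 : ζ ≠ 0 := by
    intro h
    rw [h, mul_zero] at hζ
    exact zero_ne_one hζ
  set c : ℂ := t ζ with hc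
  have hc0 : c ≠ 0 := (map_ne_zero t).2 hζ0
  have hc0' : star c ≠ 0 := star_ne_zero.2 hc0
  set R : Mat (k + 3) := bsum Y (c • 1) with hR
  have hRu : IsUnit R := by
    have h1 : IsUnit (Q 0 * R) := by rw [← hQ1]; exact hQu 1
    exact isUnit_of_mul_isUnit_right h1
  have hRd := (isUnit_iff_isUnit_det _).1 hRu
  set G : Fin 2 → Vec (k + 2) → Mat (k + 3) :=
    fun b v => (Q b)⁻¹ * F (act (g b) v) * ((Q b)⁻¹)ᴴ with hG
  have hLX : ∀ v : Vec (k + 2), act (g 1) v =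
      ζ • act (g 0) (bsum X (1 : Mat (k + 1)) *ᵥ v) := by
    intro v
    rw [act, act, hg, ← mulVec_mulVec, smul_mulVec, mulVec_smul]
  have hrel : ∀ v ∈ Cone (k + 2), R * G 1 v * Rᴴ = G 0 (bsum X (1 : Mat (k + 1)) *ᵥ v) := by
    intro v hv
    have h1 : act (g 0) (bsum X (1 : Mat (k + 1)) *ᵥ v) ∈ Cone (k + 2) := by
      have h2 := act_mem (g 1) hv
      rw [hLX v] at h2
      have h3 := smul_mem_cone (inv_ne_zero hζ0) h2
      rwa [smul_smul, inv_mul_cancel₀ hζ0, one_smul] at h3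
    have h4 : F (act (g 1) v) = F (act (g 0) (bsum X (1 : Mat (k + 1)) *ᵥ v)) := by
      rw [hLX v, hFh ζ hζ0 _ h1]
    show R * ((Q 1)⁻¹ * F (act (g 1) v) * ((Q 1)⁻¹)ᴴ) * Rᴴ =
      (Q 0)⁻¹ * F (act (g 0) (bsum X (1 : Mat (k + 1)) *ᵥ v)) * ((Q 0)⁻¹)ᴴ
    rw [h4, hQ1, Matrix.mul_inv_rev, conjTranspose_mul]
    have e1 : R * R⁻¹ = 1 := mul_nonsing_inv _ hRd
    have e2 : (R⁻¹)ᴴ * Rᴴ = 1 := by rw [← conjTranspose_mul, e1, conjTranspose_one]
    calc R * (R⁻¹ * (Q 0)⁻¹ * F (act (g 0) (bsum X (1 : Mat (k + 1)) *ᵥ v)) *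
          (((Q 0)⁻¹)ᴴ * (R⁻¹)ᴴ)) * Rᴴ
        = (R * R⁻¹) * (Q 0)⁻¹ * F (act (g 0) (bsum X (1 : Mat (k + 1)) *ᵥ v)) * ((Q 0)⁻¹)ᴴ *
          ((R⁻¹)ᴴ * Rᴴ) := by simp only [Matrix.mul_assoc]
      _ = _ := by rw [e1, e2, Matrix.one_mul, Matrix.mul_one]
  have hXB : bsum X (1 : Mat (k + 1)) *ᵥ base (k + 2) = base (k + 2) := by
    have := bsum_base (k := k) X 1
    rwa [one_smul, one_smul] at this
  set LX : Vec (k + 2) →L[ℂ] Vec (k + 2) :=
    LinearMap.toContinuousLinearMap (bsum X (1 : Mat (k + 1))).mulVecLin with hLXd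
  have hLXa : ∀ v, LX v = bsum X (1 : Mat (k + 1)) *ᵥ v := fun v => rfl
  have hder : ∀ x y : ℂ, R * pz (G 1) (base (k + 2)) (two k x y) * Rᴴ =
      pz (G 0) (base (k + 2)) (two k (X 0 0 * x + X 0 1 * y) (X 1 0 * x + X 1 1 * y)) := by
    intro x y
    have h1 : HasZ (fun v => R * G 1 v * Rᴴ) (base (k + 2)) (two k x y) _ _ :=
      (hasZ ((P 1).harm.diff hB) (two k x y)).clm
        (ContinuousLinearMap.mulLeftRight ℂ (Mat (k + 3)) R Rᴴ)
    have h2 : HasZ (G 0) (LX (base (k + 2))) (LX (two k x y)) _ _ :=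
      hasZ (by rw [hLXa, hXB]; exact (P 0).harm.diff hB) (LX (two k x y))
    have h3 : HasZ (fun v => G 0 (LX v)) (base (k + 2)) (two k x y) _ _ := h2.comp_lin LX
    have h4 : (fun v => R * G 1 v * Rᴴ) =ᶠ[𝓝 (base (k + 2))] fun v => G 0 (LX v) := by
      filter_upwards [mem_nhds_cone hB] with v hv
      exact hrel v hv
    have h5 := pz_congr h4 (two k x y)
    rw [h1.pz, h3.pz, hLXa, hXB, hLXa, bsum_two] at h5
    exact h5
  have hder2 : ∀ x y : ℂ, (star c) • two k (Y 0 0 * (p 1 * x) + Y 0 1 * (2 * a 1 * y))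
      (Y 1 0 * (p 1 * x) + Y 1 1 * (2 * a 1 * y)) =
      two k (p 0 * (X 0 0 * x + X 0 1 * y)) (2 * a 0 * (X 1 0 * x + X 1 1 * y)) := by
    intro x y
    have h1 := hder x y
    rw [(P 1).deriv_two (hp 1), (P 0).deriv_two (hp 0), mul_vecMulVec, vecMulVec_mul, hR, bsum_two,
      ← star_mulVec, bsum_base, star_smul] at h1
    have h2 := congrArg (fun A : Mat (k + 3) => A *ᵥ base (k + 2)) h1
    have h3 : star (base (k + 2)) ⬝ᵥ base (k + 2) = 1 := by
      rw [base]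
      simp
    simp only [vmv, smul_dotProduct, h3, one_smul, smul_eq_mul, mul_one] at h2
    exact h2
  have htwo_smul : ∀ (s x y : ℂ), s • two k x y = two k (s * x) (s * y) := by
    intro s x y
    ext i
    refine Fin.cases ?_ (fun i => Fin.cases ?_ (fun i => ?_) i) i <;> simp [two]
  have hcol0 := hder2 1 0
  have hcol1 := hder2 0 1
  rw [htwo_smul] at hcol0 hcol1
  obtain ⟨r00, r10⟩ := two_inj hcol0
  obtain ⟨r01, r11⟩ := two_inj hcol1
  have hp0 : p 0 ≠ 0 := by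
    intro h
    rw [h, zero_mul] at r01
    have h2 : star c * (Y 0 1 * (2 * a 1)) = 0 := by linear_combination r01
    exact (mul_ne_zero hc0' (mul_ne_zero hY01 (mul_ne_zero two_ne_zero (P 1).ha.ne'))) h2
  have h10 : X 1 0 ≠ 0 := by
    intro h
    have hXX : X * Xᴴ = 1 := mul_eq_one_comm.1 hX
    have e1 := congrFun (congrFun hXX 1) 1
    have e2 := congrFun (congrFun hXX 0) 1
    rw [Matrix.mul_apply, Fin.sum_univ_two] at e1 e2
    simp only [conjTranspose_apply, Matrix.one_apply_eq, h, star_zero, mul_zero, zero_add] at e1 e2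
    rw [Matrix.one_apply_ne Fin.zero_ne_one] at e2
    have e3 := (mul_eq_zero.1 e2).resolve_left h01
    rw [e3, mul_zero] at e1
    exact zero_ne_one e1
  have hp1 : p 1 ≠ 0 := by
    intro h
    rw [h] at r10
    have h2 : 2 * a 0 * X 1 0 = 0 := by linear_combination -r10
    exact (mul_ne_zero (mul_ne_zero two_ne_zero (P 0).ha.ne') h10) h2
  have hpb : ∀ b, p b ≠ 0 := by
    rw [Fin.forall_fin_two]
    exact ⟨hp0, hp1⟩
  intro b x hx γ χ ψ s hs hsK hxe hγs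
  obtain ⟨-, h1⟩ := hequi b x γ χ ψ s hs hxe hγs
  obtain ⟨h2, h3, h4⟩ := h1 hx
  have hsc3 := TwEl.scalars hxe
  have h5 := (P b).scalar_tw (hpb b) (hpall b) ((g b)⁻¹ * x * g b) γ hxe hsc3.2.1 (h3 hsK) h4
  have hχ0 : χ ≠ 0 := by
    intro h
    have := hsc3.1
    rw [h, mul_zero] at this
    exact zero_ne_one this
  have htχ0 : t χ ≠ 0 := (map_ne_zero t).2 hχ0
  rw [map_div₀, map_mul, div_eq_div_iff htχ0 hχ0]
  have h6 : s * (t ψ * (t s / s)) = t ψ * t s := by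
    field_simp
  linear_combination s * h5 - χ * h6

end Pool.Agent.Lib.MP_5d4057_al.TW
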