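import Pool.Agent.Lib.MP_5d4057_al.TW.Rat
import Pool.Agent.Lib.MP_5d4057_al.TW.Key
import Pool.Agent.Lib.MP_5d4057_al.TW.KeyId
import Pool.Agent.Lib.MP_5d4057_al.TW.KeyLt
import Pool.Agent.Lib.MP_5d4057_al.TW.Fields
import Pool.Agent.Lib.MP_5d4057_al.RC.WideD
import Pool.Agent.Lib.MP_5d4057_al.HM.AppEnd
import Pool.Agent.Lib.MP_5d4057_al.Hyb.ArithA

/-!
# TW: the form and the arithmeticity
-/

set_option autoImplicit false

namespace Pool.Agent.Lib.MP_5d4057_al.TW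

open Matrix Pool.Agent.Lib.MP_5d4057_al Pool.Agent.Lib.MP_5d4057_al.Hyb
  Pool.Agent.Lib.MP_5d4057_al.HM Pool.Agent.Lib.MP_5d4057_al.RC

open scoped ComplexOrder

variable {m k : ℕ}

/-- A lattice contained in `SU(H, K)` with integral traces is commensurable with `SU(H, O_K)`. -/
theorem arith_of_form (hm : 1 ≤ m) {Λ : Subgroup (SUGroup m)} (hlat : IsLattice Λ)
    {K : Subfield ℂ} {H : Matrix (Fin (m + 1)) (Fin (m + 1)) K}
    {B : Matrix (Fin (m + 1)) (Fin (m + 1)) ℂ} (hf : IsForm m K H B)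
    (hent : ∀ γ ∈ Λ, EntriesIn K B γ.toMatrix)
    (hint : ∀ γ ∈ Λ, IsIntegral ℤ γ.toMatrix.trace) : IsArithmetic m Λ := by
  have hspan := span_top hm Λ hlat
  obtain ⟨N, hN, hden⟩ := exists_bounded_denom hf.cm.1 _ hf.det Λ hspan hent hint
  refine ⟨K, H, B, hf, hent, ?_, ?_⟩
  · obtain ⟨U, hU, h1U, hsep⟩ := exists_nhd hf N hN
    refine relIndex_ne_zero_of_isLattice Λ _ hlat U hU h1U ?_
    intro a ha c hc b hb hmem
    refine hsep _ hmem ?_
    intro i j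
    rw [toMatrix_mul, toMatrix_mul, inv_mul_conj_mul, inv_mul_conj_mul]
    have hsum : (N : ℂ) * ((B⁻¹ * a.toMatrix * B) * (B⁻¹ * c.toMatrix * B) *
        (B⁻¹ * b.toMatrix * B)) i j =
        ∑ l, (∑ p, (B⁻¹ * a.toMatrix * B) i p * ((N : ℂ) * (B⁻¹ * c.toMatrix * B) p l)) *
          (B⁻¹ * b.toMatrix * B) l j := by
      rw [Matrix.mul_apply, Finset.mul_sum]
      refine Finset.sum_congr rfl fun l _ => ?_
      rw [Matrix.mul_apply, Finset.sum_mul, Finset.sum_mul, Finset.mul_sum]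
      refine Finset.sum_congr rfl fun p _ => ?_
      ring
    rw [hsum]
    refine Subring.sum_mem _ fun l _ => Subring.mul_mem _ (Subring.sum_mem _ fun p _ => ?_)
      (hb.1 l j)
    exact Subring.mul_mem _ (ha.1 i p) (hden c hc p l)
  · exact relIndex_ne_zero_of_denom hf.cm.1 _ hf.det Λ N hN hden

/-- Arithmeticity passes to finite overgroups. -/
theorem isArith_of_relIndex {Λ Λ' : Subgroup (SUGroup m)} (hle : Λ' ≤ Λ)
    (hfin : Λ'.relIndex Λ ≠ 0) (h : IsArith m Λ') : IsArith m Λ := by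
  obtain ⟨K, A, O, hU, hO, hc⟩ := h
  refine ⟨K, A, O, hU, hO, ?_⟩
  have h1 : Subgroup.Commensurable Λ Λ' := by
    refine ⟨?_, hfin⟩
    rw [Subgroup.relIndex_eq_one.2 hle]
    exact one_ne_zero
  exact h1.trans hc

/-- A lattice contained in `SU(H, K)` up to roots of unity, with integral traces, is
arithmetic. -/
theorem isArith_of_ratUp (hm : 1 ≤ m) {Λ : Subgroup (SUGroup m)} (hlat : IsLattice Λ)
    {K : Subfield ℂ} {H : Matrix (Fin (m + 1)) (Fin (m + 1)) K}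
    {B : Matrix (Fin (m + 1)) (Fin (m + 1)) ℂ} (hf : IsForm m K H B)
    (hent : Λ ≤ ratUp K B hf.det)
    (hint : ∀ γ ∈ Λ, IsIntegral ℤ γ.toMatrix.trace) : IsArith m Λ := by
  have hfin := relIndex_ratPart hf.cm.1 hf.det hent
  have hle := ratPart_le Λ K B
  exact isArith_of_relIndex hle hfin (arith_of_form hm (isLattice_of_relIndex hlat hle hfin) hf
    (fun γ hγ => hγ.2.1) (fun γ hγ => hint γ (hle hγ))).isArith

/-- The hyperplanes of the pieces are different. -/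
theorem X01_ne_tw {Γ Γ' : Fin 2 → Subgroup (SUGroup (k + 1))} {g : Fin 2 → SUGroup (k + 2)}
    {Λ : Subgroup (SUGroup (k + 2))} (hT : Tw Γ Γ' g Λ) (hlat : IsLattice Λ)
    {X : Matrix (Fin 2) (Fin 2) ℂ} {ζ : ℂ} (hζ : star ζ * ζ = 1) (hX : Xᴴ * X = 1)
    (hg : (g 1).toMatrix = (g 0).toMatrix * (ζ • bsum X 1)) : X 0 1 ≠ 0 := by
  intro h01
  have h10 := (unitary_two hX).1 h01
  obtain ⟨e, hedef⟩ : ∃ e : Fin (k + 2 + 1) → ℂ, e = Fin.cons 1 0 := ⟨_, rfl⟩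
  have he : ∀ (χ : ℂ) (A : Matrix (Fin (k + 1 + 1)) (Fin (k + 1 + 1)) ℂ),
      dsum χ A *ᵥ e = χ • e := by
    intro χ A
    rw [hedef, dsum_mulVec_cons, mulVec_zero, mul_one]
    ext i
    refine Fin.cases ?_ (fun i => ?_) i <;> simp
  have hb : bsum X (1 : Matrix (Fin (k + 1)) (Fin (k + 1)) ℂ) *ᵥ e = X 0 0 • e := by
    have h1 : e = Fin.cons 1 (Fin.cons 0 0) := by
      rw [hedef]
      ext i
      refine Fin.cases rfl (fun i => ?_) i
      refine Fin.cases rfl (fun i => rfl) i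
    rw [h1, bsum_mulVec_cons, h10]
    ext i
    refine Fin.cases ?_ (fun i => Fin.cases ?_ (fun i => ?_) i) i <;> simp
  obtain ⟨v, hvdef⟩ : ∃ v, v = (g 0).toMatrix *ᵥ e := ⟨_, rfl⟩
  have hgv : ∀ b, ∃ c : ℂ, c ≠ 0 ∧ (g b).toMatrix *ᵥ e = c • v := by
    rw [Fin.forall_fin_two]
    refine ⟨⟨1, one_ne_zero, by rw [one_smul, hvdef]⟩, ζ * X 0 0, ?_, ?_⟩
    · refine mul_ne_zero ?_ ?_
      · rintro rfl
        simp at hζ
      · intro h00
        have h1 := congrFun (congrFun hX 0) 0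
        rw [Matrix.mul_apply, Fin.sum_univ_two, h10, h00, mul_zero, mul_zero, add_zero,
          one_apply_eq] at h1
        exact zero_ne_one h1
    · rw [hg, ← mulVec_mulVec, smul_mulVec, hb, smul_smul, mulVec_smul, hvdef]
  have hv0 : v ≠ 0 := by
    intro h0
    have h1 : ((g 0)⁻¹).toMatrix *ᵥ ((g 0).toMatrix *ᵥ e) = e := by
      rw [mulVec_mulVec, toMatrix_inv_mul, one_mulVec]
    rw [← hvdef, h0, mulVec_zero, hedef] at h1
    have h2 := congrFun h1 0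
    simp at h2
  have hx1 : ∀ x : SUGroup (k + 2), ∀ c : ℂ, x.toMatrix *ᵥ v = c • v → c ≠ 0 := by
    intro x c hxc h0
    rw [h0, zero_smul] at hxc
    apply hv0
    have h1 : (x⁻¹).toMatrix *ᵥ (x.toMatrix *ᵥ v) = v := by
      rw [mulVec_mulVec, toMatrix_inv_mul, one_mulVec]
    rw [hxc, mulVec_zero] at h1
    exact h1.symm
  have key : ∀ x ∈ Λ, ∃ c : ℂ, x.toMatrix *ᵥ v = c • v := by
    intro x hx
    have hx' := hT.gen hx
    clear hx
    induction hx' using Subgroup.closure_induction with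
    | mem x hx =>
      obtain ⟨-, b, γ, -, χ, ψ, h⟩ := hx
      obtain ⟨c, hc, hcv⟩ := hgv b
      refine ⟨χ, ?_⟩
      have h1 : v = c⁻¹ • ((g b).toMatrix *ᵥ e) := by
        rw [hcv, smul_smul, inv_mul_cancel₀ hc, one_smul]
      have h2 : x.toMatrix *ᵥ ((g b).toMatrix *ᵥ e) = χ • ((g b).toMatrix *ᵥ e) := by
        rw [toMatrix_of_frame h, mulVec_mulVec, Matrix.mul_assoc, toMatrix_inv_mul,
          Matrix.mul_one, ← mulVec_mulVec, he, mulVec_smul]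
      rw [h1, mulVec_smul, h2, smul_comm]
    | one => exact ⟨1, by rw [toMatrix_one, one_mulVec, one_smul]⟩
    | mul x y _ _ hx hy =>
      obtain ⟨c, hc⟩ := hx
      obtain ⟨d, hd⟩ := hy
      exact ⟨d * c, by rw [toMatrix_mul, ← mulVec_mulVec, hd, mulVec_smul, hc, smul_smul]⟩
    | inv x _ hx =>
      obtain ⟨c, hc⟩ := hx
      have hc0 := hx1 x c hc
      refine ⟨c⁻¹, ?_⟩
      have h1 : (x⁻¹).toMatrix *ᵥ (x.toMatrix *ᵥ v) = v := by
        rw [mulVec_mulVec, toMatrix_inv_mul, one_mulVec]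
      rw [hc, mulVec_smul] at h1
      rw [← h1, smul_smul, inv_mul_cancel₀ hc0, one_smul, h1]
  have hspan := span_top (by omega : 1 ≤ k + 2) Λ hlat
  have hall : ∀ A : Matrix (Fin (k + 2 + 1)) (Fin (k + 2 + 1)) ℂ, ∃ c : ℂ, A *ᵥ v = c • v := by
    intro A
    have hA : A ∈ Submodule.span ℂ (SUGroup.toMatrix '' (Λ : Set (SUGroup (k + 2)))) := by
      rw [hspan]; trivial
    induction hA using Submodule.span_induction with
    | mem x hx =>
      obtain ⟨γ, hγ, rfl⟩ := hx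
      exact key γ hγ
    | zero => exact ⟨0, by simp⟩
    | add x y _ _ hx hy =>
      obtain ⟨c, hc⟩ := hx
      obtain ⟨d, hd⟩ := hy
      exact ⟨c + d, by rw [add_mulVec, hc, hd, add_smul]⟩
    | smul a x _ hx =>
      obtain ⟨c, hc⟩ := hx
      exact ⟨a * c, by rw [smul_mulVec, hc, smul_smul]⟩
  obtain ⟨i, hi⟩ := Function.ne_iff.1 hv0
  obtain ⟨j, hj⟩ : ∃ j : Fin (k + 2 + 1), j ≠ i := exists_ne i
  obtain ⟨c, hc⟩ := hall (Matrix.single j i 1)
  have h1 := congrFun hc i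
  have h2 := congrFun hc j
  have e1 : (Matrix.single j i (1 : ℂ) *ᵥ v) i = 0 := by
    simp [Matrix.mulVec, dotProduct, hj]
  have e2 : (Matrix.single j i (1 : ℂ) *ᵥ v) j = v i := by
    simp [Matrix.mulVec, dotProduct, Matrix.single_apply]
  rw [e1] at h1
  rw [e2] at h2
  simp only [Pi.smul_apply, smul_eq_mul] at h1 h2
  rcases mul_eq_zero.1 h1.symm with h3 | h3
  · rw [h3, zero_mul] at h2
    exact hi h2
  · exact hi h3

/-- A group containing a group commensurable with a third one with finite index. -/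
theorem commensurable_of_relIndex {Λ Λ' Δ : Subgroup (SUGroup m)} (hle : Λ' ≤ Λ)
    (hfin : Λ'.relIndex Λ ≠ 0) (h : Subgroup.Commensurable Λ' Δ) : Subgroup.Commensurable Λ Δ := by
  have h1 : Subgroup.Commensurable Λ Λ' := by
    refine ⟨?_, hfin⟩
    rw [Subgroup.relIndex_eq_one.2 hle]
    exact one_ne_zero
  exact h1.trans h

/-- A lattice generated by twisted pieces is contained in `SU(H, K)` up to roots of unity, where
`K` is the common trace field of the standard parts of the pieces, and `H` is definite at the other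
places. -/
theorem form_tw (hk : 1 ≤ k) (Γ₃ : Subgroup (SUGroup k))
    {Γ Γ' : Fin 2 → Subgroup (SUGroup (k + 1))} {g : Fin 2 → SUGroup (k + 2)}
    {Λ : Subgroup (SUGroup (k + 2))} (hT : Tw Γ Γ' g Λ)
    (hfin : ∀ b, (Γ' b).relIndex (Γ b) ≠ 0)
    (h₃ : IsLattice Γ₃) (hL : ∀ b, IsLattice (Γ b)) (hA : ∀ b, IsArithmetic (k + 1) (Γ' b))
    (hsub : ∀ b, ∀ γ ∈ Γ₃, extend k γ ∈ Γ' b)
    (hagree : ∀ γ ∈ Γ₃, g 0 * extend (k + 1) (extend k γ) * (g 0)⁻¹ =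
      g 1 * extend (k + 1) (extend k γ) * (g 1)⁻¹)
    (hlat : IsLattice Λ) (hR : Rec Λ) (HL : HLat Λ) (hRb : ∀ b, Rec (Γ' b))
    (htr : traceField (Γ' 0) = traceField (Γ' 1)) :
    ∃ (H : Matrix (Fin (k + 2 + 1)) (Fin (k + 2 + 1)) (traceField (Γ' 0)))
      (B : Matrix (Fin (k + 2 + 1)) (Fin (k + 2 + 1)) ℂ)
      (hf : IsForm (k + 2) (traceField (Γ' 0)) H B), Λ ≤ ratUp (traceField (Γ' 0)) B hf.det := by
  have hL' : ∀ b, IsLattice (Γ' b) := fun b => isLattice_of_relIndex (hL b) (hT.le b) (hfin b)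
  -- the two fields are equal
  have hdata : ∃ (K : Subfield ℂ) (H : Fin 2 → Matrix (Fin (k + 1 + 1)) (Fin (k + 1 + 1)) K)
      (B : Fin 2 → Matrix (Fin (k + 1 + 1)) (Fin (k + 1 + 1)) ℂ), K = traceField (Γ' 0) ∧
      ∀ b, IsForm (k + 1) K (H b) (B b) ∧ (∀ γ ∈ Γ' b, EntriesIn K (B b) γ.toMatrix) ∧
        Subgroup.Commensurable (Γ' b) (integralPoints (k + 1) K (B b)) := by
    obtain ⟨K₀, H₀, B₀, hf₀, hr₀, hc₀⟩ := hA 0
    obtain ⟨K₁, H₁, B₁, hf₁, hr₁, hc₁⟩ := hA 1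
    have e₀ := traceField_eq (by omega : 2 ≤ k + 1) (Γ' 0) (hL' 0) K₀ H₀ B₀ hf₀ hr₀
    have e₁ := traceField_eq (by omega : 2 ≤ k + 1) (Γ' 1) (hL' 1) K₁ H₁ B₁ hf₁ hr₁
    have e : K₁ = K₀ := by rw [← e₀, ← e₁, htr]
    subst e
    refine ⟨K₁, fun b => if b = 0 then H₀ else H₁, fun b => if b = 0 then B₀ else B₁,
      e₀.symm, ?_⟩
    intro b
    fin_cases b
    · exact ⟨hf₀, hr₀, hc₀⟩
    · exact ⟨hf₁, hr₁, hc₁⟩
  obtain ⟨K, H, B, hK, hB⟩ := hdata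
  subst hK
  have hcm : IsCM (traceField (Γ' 0)) := (hB 0).1.cm
  have hnf : NumberField (traceField (Γ' 0)) := hcm.1
  obtain ⟨D, HD, μ, q, hn, h3D, hQ⟩ := exists_normal_form hk Γ₃ h₃ _ H B (fun b => (hB b).1)
    (fun b γ hγ => (hB b).2.1 _ (hsub b γ hγ))
  obtain ⟨X, ζ, hζ, hX, hg⟩ := frame hk Γ₃ h₃ g hagree
  have h01 := X01_ne_tw hT hlat hζ hX hg
  have hrat' : ∀ b, ∀ γ ∈ Γ' b, EntriesIn (traceField (Γ' 0)) (dsum (μ b) D) γ.toMatrix := by
    intro b γ hγ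
    obtain ⟨σ, Q, hσ, hQd, hQe⟩ := hQ b
    exact EntriesIn.change (hB b).1.det hσ hQd hQe ((hB b).2.1 γ hγ)
  have hsc : ∀ b, ∀ γ ∈ Γ b, ∃ s : ℂ, s ≠ 0 ∧ s ^ (k + 2) ∈ traceField (Γ' 0) ∧
      EntriesIn (traceField (Γ' 0)) (dsum (μ b) D) (s⁻¹ • γ.toMatrix) := by
    intro b γ hγ
    obtain ⟨σ, Q, hσ, hQd, hQe⟩ := hQ b
    obtain ⟨s, hs, hsK, hγs⟩ := exists_rat_scalar_lat (by omega : 1 ≤ k + 1) (hL b) (hB b).1
      (commensurable_of_relIndex (hT.le b) (hfin b) (hB b).2.2) hγ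
    exact ⟨s, hs, hsK, EntriesIn.change (hB b).1.det hσ hQd hQe hγs⟩
  have hspanb : ∀ b, Submodule.span ℂ
      (SUGroup.toMatrix '' (Γ' b : Set (SUGroup (k + 1)))) = ⊤ :=
    fun b => span_top (by omega : 1 ≤ k + 1) (Γ' b) (hL' b)
  have hid : ∀ γ ∈ hybrid Γ' g, γ.toMatrix.trace ∈ traceField (Γ' 0) := by
    intro γ hγ
    refine mem_of_fixed _ _ ?_
    intro t ht
    exact key_id_tw hT hR HL hRb hspanb hn hrat' hsc hζ hX hg h01 t ht γ hγ
  have hzK := angle_mem_of_trace hcm hn Γ' hL' hrat' g X ζ hζ hg (hybrid Γ' g)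
    (fun b γ hγ => Subgroup.subset_closure ⟨b, γ, hγ, rfl⟩) hid
  -- the form
  have hcK : star (X 1 1) * X 1 1 ∈ traceField (Γ' 0) := by
    have h1 : star (X 1 1) * X 1 1 =
        (starRingEnd ℂ) (star (μ 0) * μ 1 * X 1 1) * (star (μ 0) * μ 1 * X 1 1) /
          ((q 0 : ℂ) * (q 1 : ℂ)) := by
      rw [hn.q_eq 0, hn.q_eq 1]
      have h0 : star (μ 0) ≠ 0 := fun h => hn.μ_ne 0 (star_eq_zero.1 h)
      have h1 : star (μ 1) ≠ 0 := fun h => hn.μ_ne 1 (star_eq_zero.1 h)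
      have h0' := hn.μ_ne 0
      have h1' := hn.μ_ne 1
      simp only [map_mul, RCLike.star_def, Complex.conj_conj] at h0 h1 ⊢
      field_simp
    rw [h1]
    exact (traceField (Γ' 0)).div_mem ((traceField (Γ' 0)).mul_mem (hcm.2.2.1 _ hzK) hzK)
      ((traceField (Γ' 0)).mul_mem (q 0).2 (q 1).2)
  obtain ⟨Hg, hHg, hdef⟩ := glue_form_angle hcm hn X hX hzK ⟨_, hcK⟩ rfl (by
    intro τ
    by_cases h1 : ∀ x : traceField (Γ' 0), τ x = x
    · exact Or.inl h1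
    by_cases h2 : ∀ x : traceField (Γ' 0), τ x = (starRingEnd ℂ) (x : ℂ)
    · exact Or.inr (Or.inl h2)
    refine Or.inr (Or.inr ?_)
    obtain ⟨t, ht⟩ := exists_aut (traceField (Γ' 0)) τ
    have h3 := key_lt_tw hT.std HL hRb hspanb hcm hn hrat' hζ hX hg h01 t
      (fun h => h1 (fun x => by rw [← ht x, h x])) (fun h => h2 (fun x => by rw [← ht x, h x]))
    have h4 := ht ⟨_, hcK⟩
    rw [← h4]
    exact h3)
  have hform : IsForm (k + 2) (traceField (Γ' 0)) Hg (gB μ X D) :=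
    { cm := hcm
      det := gB_det μ X D hn.det hn.μ_ne h01
      form := hHg
      definite := hdef }
  have hforms : IsForm (k + 2) (traceField (Γ' 0)) Hg ((g 0).toMatrix * gB μ X D) :=
    hform.conj (g 0)
  refine ⟨Hg, (g 0).toMatrix * gB μ X D, hforms, ?_⟩
  refine hT.gen.trans ((Subgroup.closure_le _).2 ?_)
  rintro x ⟨hxΛ, b, γ, hγ, χ, ψ, h⟩
  obtain ⟨hχ, -⟩ := rou_of_tw hlat.1 (hfin b) (hT.std b) hxΛ hγ h
  obtain ⟨s, hs, hsK, hγs⟩ := hsc b γ hγ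
  have hcoef : ψ * s / χ ∈ traceField (Γ' 0) := mem_of_fixed _ _ fun t ht =>
    key_tw hT hR HL hRb hspanb hn hrat' hsc hζ hX hg h01 t ht b x hxΛ γ χ ψ s hs hsK h hγs
  refine ⟨χ, hχ, ?_⟩
  have hχ0 := hχ.ne_zero
  obtain ⟨A, hAdef⟩ : ∃ A, A = (χ⁻¹ * ψ) • γ.toMatrix := ⟨_, rfl⟩
  have hAent : EntriesIn (traceField (Γ' 0)) (dsum (μ b) D) A := by
    have e : A = (ψ * s / χ) • (s⁻¹ • γ.toMatrix) := by
      rw [hAdef, smul_smul]
      congr 1
      field_simp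
    intro i j
    have h2 := (traceField (Γ' 0)).mul_mem hcoef (hγs i j)
    rw [e, Matrix.mul_smul, Matrix.smul_mul, Matrix.smul_apply, smul_eq_mul]
    exact h2
  have hx : χ⁻¹ • x.toMatrix = (g b).toMatrix * dsum 1 A * ((g b)⁻¹).toMatrix := by
    rw [toMatrix_of_frame h, ← Matrix.smul_mul, ← Matrix.mul_smul, smul_dsum,
      inv_mul_cancel₀ hχ0, smul_smul, hAdef]
  rw [hx]
  clear hx h hAdef hcoef hγs
  fin_cases b
  · have h5 := glue_entries_zero hn X h01 hzK A hAent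
    rw [← entriesIn_conj (g 0)] at h5
    exact h5
  · have h5 := glue_entries_one hcm hn X hX h01 hzK A hAent
    rw [← entriesIn_conj (g 0)] at h5
    have e : (g 0).toMatrix * (bsum X 1 * dsum 1 A * bsum Xᴴ 1) * ((g 0)⁻¹).toMatrix =
        (g 1).toMatrix * dsum 1 A * ((g 1)⁻¹).toMatrix := by
      rw [toMatrix_gen_one hζ hX hg, hg]
      simp only [Matrix.mul_assoc, Matrix.mul_smul, Matrix.smul_mul, smul_smul]
      rw [hζ, one_smul]
    rw [e] at h5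
    exact h5

/-- A lattice generated by twisted pieces is arithmetic if its traces are integral. -/
theorem arith_tw (hk : 1 ≤ k) (Γ₃ : Subgroup (SUGroup k))
    {Γ Γ' : Fin 2 → Subgroup (SUGroup (k + 1))} {g : Fin 2 → SUGroup (k + 2)}
    {Λ : Subgroup (SUGroup (k + 2))} (hT : Tw Γ Γ' g Λ)
    (hfin : ∀ b, (Γ' b).relIndex (Γ b) ≠ 0)
    (h₃ : IsLattice Γ₃) (hL : ∀ b, IsLattice (Γ b)) (hA : ∀ b, IsArithmetic (k + 1) (Γ' b))
    (hsub : ∀ b, ∀ γ ∈ Γ₃, extend k γ ∈ Γ' b)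
    (hagree : ∀ γ ∈ Γ₃, g 0 * extend (k + 1) (extend k γ) * (g 0)⁻¹ =
      g 1 * extend (k + 1) (extend k γ) * (g 1)⁻¹)
    (hlat : IsLattice Λ) (hR : Rec Λ) (HL : HLat Λ) (hRb : ∀ b, Rec (Γ' b))
    (hV : ∀ b, Van (Γ' b)) (hint : ∀ γ ∈ Λ, IsIntegral ℤ γ.toMatrix.trace) :
    IsArith (k + 2) Λ := by
  have hL' : ∀ b, IsLattice (Γ' b) := fun b => isLattice_of_relIndex (hL b) (hT.le b) (hfin b)
  have htr := fields_tw hk Γ₃ hT hfin h₃ hL' hA hsub hagree hR hRb hV HL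
  obtain ⟨H, B, hf, hle⟩ := form_tw hk Γ₃ hT hfin h₃ hL hA hsub hagree hlat hR HL hRb htr
  exact isArith_of_ratUp (by omega) hlat hf hle hint

end Pool.Agent.Lib.MP_5d4057_al.TW
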