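import Pool.Agent.Lib.MP_5d4057_al.TW.Fin
import Pool.Agent.Lib.MP_5d4057_al.TW.Pos
import Pool.Agent.Lib.MP_5d4057_al.TW.Delta
import Pool.Agent.Lib.MP_5d4057_al.TW.Amal
import Pool.Agent.Lib.MP_5d4057_al.TW.Int
import Pool.Agent.Lib.MP_5d4057_al.GX.Fin
import Mathlib.GroupTheory.PushoutI

/-!
# TW: the theorem for the amalgam, with `ρ` standard on subgroups of finite index of the factors
-/

set_option autoImplicit false

namespace Pool.Agent.Lib.MP_5d4057_al.TW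

open Matrix Pool.Agent.Lib.MP_5d4057_al Pool.Agent.Lib.MP_5d4057_al.Hyb
  Pool.Agent.Lib.MP_5d4057_al.HM Pool.Agent.Lib.MP_5d4057_al.NU Pool.Agent.Lib.MP_5d4057_al.RC
  Pool.Agent.Lib.MP_5d4057_al.GX

variable {k m : ℕ}

/-! ### Finitely generated rings of entries -/

theorem fgg_sup {P Q : Subgroup (SUGroup m)} (hP : FGG P) (hQ : FGG Q) : FGG (P ⊔ Q) := by
  refine FGE.mono (FGE.closure (FGE.union hP hQ)) ?_
  rintro _ ⟨x, hx, rfl⟩
  rw [Subgroup.sup_eq_closure] at hx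
  refine Subgroup.closure_induction_left
    (p := fun x _ => x.toMatrix ∈ Submonoid.closure _) ?_ ?_ ?_ hx
  · exact Submonoid.one_mem _
  · rintro x hx y _ hy
    rw [toMatrix_mul]
    refine Submonoid.mul_mem _ (Submonoid.subset_closure ?_) hy
    rcases hx with hx | hx
    · exact Or.inl ⟨x, hx, rfl⟩
    · exact Or.inr ⟨x, hx, rfl⟩
  · rintro x hx y _ hy
    rw [toMatrix_mul]
    refine Submonoid.mul_mem _ (Submonoid.subset_closure ?_) hy
    rcases hx with hx | hx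
    · exact Or.inl ⟨x⁻¹, P.inv_mem hx, rfl⟩
    · exact Or.inr ⟨x⁻¹, Q.inv_mem hx, rfl⟩

theorem fgg_map_emb {Δ : Subgroup (SUGroup m)} (h : FGG Δ) (g : SUGroup (m + 1)) :
    FGG (Δ.map (emb g)) := by
  refine FGE.mono (FGE.mul (FGE.mul (FGE.of_finite (Set.finite_singleton g.toMatrix))
    (FGE.dsum h)) (FGE.of_finite (Set.finite_singleton (g⁻¹).toMatrix))) ?_
  rintro _ ⟨_, ⟨γ, hγ, rfl⟩, rfl⟩
  exact ⟨_, ⟨_, rfl, _, ⟨_, ⟨γ, hγ, rfl⟩, rfl⟩, rfl⟩, _, rfl, rfl⟩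

/-- The image of a group on a subgroup of finite index of which the homomorphism is standard. -/
theorem fgg_range_of_std {Γ Γ' : Subgroup (SUGroup m)} (hF : FGG Γ)
    (hfin : Γ'.relIndex Γ ≠ 0) (r : Γ →* SUGroup (m + 1)) (g : SUGroup (m + 1))
    (hr : ∀ x : Γ, (x : SUGroup m) ∈ Γ' → r x = emb g (x : SUGroup m)) : FGG r.range := by
  have h1 : FGG ((Γ' ⊓ Γ).map (emb g)) := fgg_map_emb (hF.mono inf_le_right) g
  refine h1.of_relIndex ?_
  have h2 : (Γ'.subgroupOf Γ).map r ≤ (Γ' ⊓ Γ).map (emb g) := by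
    rintro _ ⟨x, hx, rfl⟩
    exact ⟨x, ⟨hx, x.2⟩, (hr x hx).symm⟩
  have h3 : ((Γ'.subgroupOf Γ).map r).relIndex r.range ≠ 0 := by
    rw [MonoidHom.range_eq_map, Subgroup.relIndex_map_map, top_sup_eq, Subgroup.relIndex_top_right]
    intro h5
    have h6 : ((Γ'.subgroupOf Γ) ⊔ r.ker).index ∣ (Γ'.subgroupOf Γ).index :=
      Subgroup.index_dvd_of_le le_sup_left
    rw [h5, zero_dvd_iff] at h6
    exact hfin h6
  exact fun h4 => h3 (Nat.eq_zero_of_zero_dvd (h4 ▸ Subgroup.relIndex_dvd_of_le_left _ h2))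

/-! ### Change of frames -/

theorem relIndex_cj (u : SUGroup m) (D Γ : Subgroup (SUGroup m)) :
    (GX.cj u D).relIndex (GX.cj u Γ) = D.relIndex Γ := by
  rw [GX.cj, GX.cj, Subgroup.relIndex_comap, Subgroup.map_comap_eq_self_of_surjective]
  exact (MulAut.conj u).surjective

theorem emb_cj (g : SUGroup (m + 1)) (u γ : SUGroup m) :
    emb (g * extend m u) γ = emb g (u * γ * u⁻¹) := by
  rw [emb_apply, emb_apply, map_mul, map_mul, map_inv]
  group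

theorem TwEl.cj {Γ : Subgroup (SUGroup m)} {g x : SUGroup (m + 1)} (h : TwEl Γ g x)
    (u : SUGroup m) : TwEl (GX.cj u Γ) (g * extend m u) x := by
  obtain ⟨γ, hγ, χ, ψ, hx⟩ := h
  refine ⟨u⁻¹ * γ * u, ?_, χ, ψ, ?_⟩
  · rw [mem_cj]
    have : u * (u⁻¹ * γ * u) * u⁻¹ = γ := by group
    rwa [this]
  · have h1 : (g * extend m u)⁻¹ * x * (g * extend m u) =
        extend m u⁻¹ * (g⁻¹ * x * g) * extend m u := by
      rw [map_inv]
      group
    rw [h1, toMatrix_mul, toMatrix_mul, hx, extend_toMatrix, extend_toMatrix, dsum_mul, dsum_mul,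
      one_mul, mul_one, toMatrix_mul, toMatrix_mul, Matrix.mul_smul, Matrix.smul_mul]

theorem Tw.cj {Γ Γ' : Fin 2 → Subgroup (SUGroup (k + 1))} {g : Fin 2 → SUGroup (k + 2)}
    {G : Subgroup (SUGroup (k + 2))} (h : Tw Γ Γ' g G) (u : Fin 2 → SUGroup (k + 1)) :
    Tw (fun b => GX.cj (u b) (Γ b)) (fun b => GX.cj (u b) (Γ' b))
      (fun b => g b * extend (k + 1) (u b)) G where
  le b := fun x hx => h.le b hx
  std b := fun γ hγ => by
    rw [emb_cj]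
    exact h.std b _ (mem_cj.1 hγ)
  gen := by
    refine h.gen.trans (Subgroup.closure_mono ?_)
    rintro x ⟨hx, b, hb⟩
    exact ⟨hx, b, hb.cj (u b)⟩

/-! ### The theorem without normal frames -/

/-- Integrality of the traces, as a proposition. -/
def IntTw : Prop := ∀ (k : ℕ), 1 ≤ k → ∀ (Γ₃ : Subgroup (SUGroup k))
  (Γ Γ' : Fin 2 → Subgroup (SUGroup (k + 1))) (g : Fin 2 → SUGroup (k + 2))
  (G : Subgroup (SUGroup (k + 2))), Tw Γ Γ' g G → (∀ b, (Γ' b).relIndex (Γ b) ≠ 0) →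
  IsLattice Γ₃ → (∀ b, IsLattice (Γ b)) → (∀ b, IsArith (k + 1) (Γ b)) →
  (∀ b, ∀ γ ∈ Γ₃, extend k γ ∈ Γ' b) →
  (∀ γ ∈ Γ₃, g 0 * extend (k + 1) (extend k γ) * (g 0)⁻¹ =
    g 1 * extend (k + 1) (extend k γ) * (g 1)⁻¹) →
  IsLattice G → FGG G → ∀ γ ∈ G, IsIntegral ℤ γ.toMatrix.trace

/-- **Twisted pieces, arbitrary common group.** -/
theorem arith_tw_gen (HI : IntTw) (hk : 1 ≤ k) {Γ₃ : Subgroup (SUGroup k)} (h₃ : IsLattice Γ₃)
    {Γ Γ' : Fin 2 → Subgroup (SUGroup (k + 1))} {g : Fin 2 → SUGroup (k + 2)}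
    {G : Subgroup (SUGroup (k + 2))} (hT : Tw Γ Γ' g G)
    (hfin : ∀ b, (Γ' b).relIndex (Γ b) ≠ 0) (hL : ∀ b, IsLattice (Γ b))
    (hA : ∀ b, IsArith (k + 1) (Γ b)) (hlat : IsLattice G) (hf : FGG G)
    (j : Γ₃ →* SUGroup (k + 2)) (hj : Function.Injective j)
    (h0 : ∀ γ, j γ ∈ (Γ' 0).map (emb (g 0))) (h1 : ∀ γ, j γ ∈ (Γ' 1).map (emb (g 1))) :
    IsArith (k + 2) G := by
  have hlt := herm_lt_one_tw hk h₃ hT hlat hf j hj h0 h1
  obtain ⟨u, X, hX, hg⟩ := exists_frames g hlt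
  have hTn := hT.cj u
  have hLn : ∀ b, IsLattice (GX.cj (u b) (Γ b)) := fun b => isLattice_cj (u b) (hL b)
  have hfn : ∀ b, (GX.cj (u b) (Γ' b)).relIndex (GX.cj (u b) (Γ b)) ≠ 0 := by
    intro b
    rw [relIndex_cj]
    exact hfin b
  have hLn' : ∀ b, IsLattice (GX.cj (u b) (Γ' b)) := fun b =>
    isLattice_of_relIndex (hLn b) (hTn.le b) (hfn b)
  have hnp : ∀ ζ : ℂ, act (g 1 * extend (k + 1) (u 1)) (e0 (k + 1)) ≠
      ζ • act (g 0 * extend (k + 1) (u 0)) (e0 (k + 1)) := by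
    refine not_prop_line hlat (n := fun b => act (g b * extend (k + 1) (u b)) (e0 (k + 1)))
      (fun b => by
        show q (act (g b * extend (k + 1) (u b)) (e0 (k + 1))) = 1
        rw [q_act, q_e0]) ?_
    refine hTn.gen.trans (Subgroup.closure_mono ?_)
    rintro x ⟨-, b, hb⟩
    obtain ⟨c, hc⟩ := hb.line
    exact ⟨b, c, hc⟩
  have h01 : X 0 1 ≠ 0 := by
    intro h
    exact hnp (X 0 0) (prop_of_zero hX h hg)
  have hag : ∀ γ ∈ common (fun b => GX.cj (u b) (Γ' b)),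
      (g 0 * extend (k + 1) (u 0)) * extend (k + 1) (extend k γ) *
        (g 0 * extend (k + 1) (u 0))⁻¹ =
      (g 1 * extend (k + 1) (u 1)) * extend (k + 1) (extend k γ) *
        (g 1 * extend (k + 1) (u 1))⁻¹ := fun γ _ =>
    agree_of_frame (g := fun b => g b * extend (k + 1) (u b)) hg γ
  have hsub : ∀ b : Fin 2, ∀ γ ∈ common (fun b => GX.cj (u b) (Γ' b)),
      extend k γ ∈ GX.cj (u b) (Γ' b) := by
    intro b γ hγ
    fin_cases b
    · exact hγ.1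
    · exact hγ.2
  have hLc := isLattice_common_tw hk (fun b => hTn.std b) hLn' hlat hf hX h01 hg
  have hAn : ∀ b, IsArith (k + 1) (GX.cj (u b) (Γ b)) := fun b => isArith_cj (u b) (hA b)
  exact arith_tw_all hk _ hTn hfn hLc hLn hAn hsub hag hlat hf
    (HI k hk _ _ _ _ _ hTn hfn hLc hLn hAn hsub hag hlat hf)

/-! ### The amalgam -/

/-- **The theorem for the amalgam**: `ρ` is standard on a subgroup of finite index of each factor. -/
theorem amalgam_tw (HI : IntTw) (k : ℕ) (hk : 1 ≤ k) (Γ₃ : Subgroup (SUGroup k))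
    (Γ D : Fin 2 → Subgroup (SUGroup (k + 1))) (h₃ : IsLattice Γ₃) (hL : ∀ b, IsLattice (Γ b))
    (hA : ∀ b, IsArith (k + 1) (Γ b)) (ι : ∀ b, Γ₃ →* Γ b) (hι : ∀ b, Function.Injective (ι b))
    (ρ : Monoid.PushoutI ι →* SUGroup (k + 2)) (g : Fin 2 → SUGroup (k + 2))
    (hfin : ∀ b, (D b).relIndex (Γ b) ≠ 0)
    (hρ : ∀ (b : Fin 2) (x : Γ b), (x : SUGroup (k + 1)) ∈ D b →
      ρ (Monoid.PushoutI.of b x) = g b * extend (k + 1) (x : SUGroup (k + 1)) * (g b)⁻¹)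
    (hlat : IsLattice ρ.range) : IsArith (k + 2) ρ.range := by
  obtain ⟨r, hr⟩ : ∃ r : ∀ b, Γ b →* SUGroup (k + 2),
      r = fun b => ρ.comp (Monoid.PushoutI.of b) := ⟨_, rfl⟩
  have hr' : ∀ b x, r b x = ρ (Monoid.PushoutI.of b x) := fun b x => by
    rw [hr]
    rfl
  have hstd : ∀ b, ∀ x : Γ b, (x : SUGroup (k + 1)) ∈ D b → r b x = emb (g b) (x : SUGroup (k + 1)) :=
    fun b x hx => by
      rw [hr', hρ b x hx]
      rfl
  have hmem : ∀ b x, r b x ∈ ρ.range := fun b x => ⟨_, (hr' b x).symm⟩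
  have hgen : ρ.range ≤ Subgroup.closure {x | x ∈ ρ.range ∧ ∃ b, ∃ y, x = r b y} := by
    rintro _ ⟨w, rfl⟩
    induction w using Monoid.PushoutI.induction_on with
    | of b x => exact Subgroup.subset_closure ⟨⟨_, rfl⟩, b, x, (hr' b x).symm⟩
    | base x =>
      rw [← Monoid.PushoutI.of_apply_eq_base ι 0 x]
      exact Subgroup.subset_closure ⟨⟨_, rfl⟩, 0, ι 0 x, (hr' 0 (ι 0 x)).symm⟩
    | mul x y hx hy =>
      rw [map_mul]
      exact Subgroup.mul_mem _ hx hy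
  have hT : Tw Γ (fun b => D b ⊓ Γ b) g ρ.range := by
    refine ⟨fun b => inf_le_right, fun b γ hγ => ?_, ?_⟩
    · rw [← hstd b ⟨γ, hγ.2⟩ hγ.1]
      exact hmem b _
    · refine hgen.trans (Subgroup.closure_mono ?_)
      rintro x ⟨hx, b, y, rfl⟩
      refine ⟨hx, b, (y : SUGroup (k + 1)), y.2, ?_⟩
      exact twist_of_hom (by omega) (hL b) (hfin b) (r b) (g b) (hstd b) y
  have hf : FGG ρ.range := by
    refine FGG.mono (fgg_sup
      (fgg_range_of_std (RC.fgg_of_isArith (hA 0)) (hfin 0) (r 0) (g 0) (hstd 0))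
      (fgg_range_of_std (RC.fgg_of_isArith (hA 1)) (hfin 1) (r 1) (g 1) (hstd 1))) ?_
    refine hgen.trans ((Subgroup.closure_le _).2 ?_)
    rintro x ⟨-, b, y, rfl⟩
    fin_cases b
    · exact Subgroup.mem_sup_left ⟨y, rfl⟩
    · exact Subgroup.mem_sup_right ⟨y, rfl⟩
  -- the part of the common group which goes to the standard parts
  obtain ⟨φ, hφ⟩ : ∃ φ : ∀ b, Γ₃ →* SUGroup (k + 1), φ = fun b => (Γ b).subtype.comp (ι b) :=
    ⟨_, rfl⟩
  have hφ' : ∀ b x, φ b x = (ι b x : SUGroup (k + 1)) := fun b x => by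
    rw [hφ]
    rfl
  obtain ⟨E, hE⟩ : ∃ E : Subgroup Γ₃, E = (D 0).comap (φ 0) ⊓ (D 1).comap (φ 1) := ⟨_, rfl⟩
  have hind : ∀ b, ((D b).comap (φ b)).index ≠ 0 := by
    intro b
    rw [Subgroup.index_comap]
    intro h
    refine hfin b (Subgroup.relIndex_eq_zero_of_le_right ?_ h)
    rintro _ ⟨x, rfl⟩
    rw [hφ']
    exact (ι b x).2
  have hEm : ∀ z ∈ E, φ 0 z ∈ D 0 ∧ φ 1 z ∈ D 1 := by
    intro z hz
    rw [hE] at hz
    exact ⟨hz.1, hz.2⟩
  have hEi : E.index ≠ 0 := by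
    rw [hE]
    exact Subgroup.index_inf_ne_zero (hind 0) (hind 1)
  have hE3 : IsLattice (E.map Γ₃.subtype) := by
    refine isLattice_of_relIndex h₃ ?_ ?_
    · rintro _ ⟨x, -, rfl⟩
      exact x.2
    · rw [Subgroup.relIndex, Subgroup.subgroupOf,
        Subgroup.comap_map_eq_self_of_injective Γ₃.subtype_injective]
      exact hEi
  have hle : E.map Γ₃.subtype ≤ Γ₃ := by
    rintro _ ⟨x, -, rfl⟩
    exact x.2
  have hmE : ∀ x : E.map Γ₃.subtype, Subgroup.inclusion hle x ∈ E := by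
    rintro ⟨_, y, hy, rfl⟩
    exact hy
  have hm0 : ∀ x, (ι 0 (Subgroup.inclusion hle x) : SUGroup (k + 1)) ∈ D 0 := by
    intro x
    rw [← hφ' 0]
    exact (hEm _ (hmE x)).1
  have hm1 : ∀ x, (ι 1 (Subgroup.inclusion hle x) : SUGroup (k + 1)) ∈ D 1 := by
    intro x
    rw [← hφ' 1]
    exact (hEm _ (hmE x)).2
  refine arith_tw_gen HI hk hE3 hT (fun b => ?_) hL hA hlat hf
    ((ρ.comp (Monoid.PushoutI.base ι)).comp (Subgroup.inclusion hle)) ?_ ?_ ?_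
  · rw [Subgroup.inf_relIndex_right]
    exact hfin b
  · intro x y hxy
    have h1 : r 0 (ι 0 (Subgroup.inclusion hle x)) = r 0 (ι 0 (Subgroup.inclusion hle y)) := by
      rw [hr', hr', Monoid.PushoutI.of_apply_eq_base, Monoid.PushoutI.of_apply_eq_base]
      exact hxy
    rw [hstd 0 _ (hm0 x), hstd 0 _ (hm0 y)] at h1
    exact Subgroup.inclusion_injective hle (hι 0 (Subtype.ext (emb_injective (g 0) h1)))
  · intro x
    refine ⟨(ι 0 (Subgroup.inclusion hle x) : SUGroup (k + 1)), ⟨hm0 x, (ι 0 _).2⟩, ?_⟩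
    rw [← hstd 0 _ (hm0 x), hr', Monoid.PushoutI.of_apply_eq_base]
    rfl
  · intro x
    refine ⟨(ι 1 (Subgroup.inclusion hle x) : SUGroup (k + 1)), ⟨hm1 x, (ι 1 _).2⟩, ?_⟩
    rw [← hstd 1 _ (hm1 x), hr', Monoid.PushoutI.of_apply_eq_base]
    rfl

theorem intTw : IntTw := by
  intro k hk Γ₃ Γ Γ' g G hT hfin h₃ hL hA hsub hagree hlat hf
  obtain ⟨X, ζ, hζ, -, hg⟩ := frame hk Γ₃ h₃ g hagree
  have hζ0 : ζ ≠ 0 := by
    intro h
    rw [h, mul_zero] at hζ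
    exact zero_ne_one hζ
  exact integral_tw hk hT (fun b => isLattice_of_relIndex (hL b) (hT.le b) (hfin b)) hA hζ0
    (act_gen_one hg) hlat hf

/-- **The theorem for the amalgam, without hypotheses.** -/
theorem amalgam_twisted (k : ℕ) (hk : 1 ≤ k) (Γ₃ : Subgroup (SUGroup k))
    (Γ D : Fin 2 → Subgroup (SUGroup (k + 1))) (h₃ : IsLattice Γ₃) (hL : ∀ b, IsLattice (Γ b))
    (hA : ∀ b, IsArith (k + 1) (Γ b)) (ι : ∀ b, Γ₃ →* Γ b) (hι : ∀ b, Function.Injective (ι b))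
    (ρ : Monoid.PushoutI ι →* SUGroup (k + 2)) (g : Fin 2 → SUGroup (k + 2))
    (hfin : ∀ b, (D b).relIndex (Γ b) ≠ 0)
    (hρ : ∀ (b : Fin 2) (x : Γ b), (x : SUGroup (k + 1)) ∈ D b →
      ρ (Monoid.PushoutI.of b x) = g b * extend (k + 1) (x : SUGroup (k + 1)) * (g b)⁻¹)
    (hlat : IsLattice ρ.range) : IsArith (k + 2) ρ.range :=
  amalgam_tw intTw k hk Γ₃ Γ D h₃ hL hA ι hι ρ g hfin hρ hlat

end Pool.Agent.Lib.MP_5d4057_al.TW
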