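import Pool.Agent.Lib.MP_5d4057_al.TW.Int
import Pool.Agent.Lib.MP_5d4057_al.TW.Top

/-!
# TW: integrality of the traces, in the shape used by `TW/Top.lean`
-/

set_option autoImplicit false

namespace Pool.Agent.Lib.MP_5d4057_al.TW

open Matrix Pool.Agent.Lib.MP_5d4057_al Pool.Agent.Lib.MP_5d4057_al.Hyb
  Pool.Agent.Lib.MP_5d4057_al.HM Pool.Agent.Lib.MP_5d4057_al.RC Pool.Agent.Lib.MP_5d4057_al.NU

/-- Integrality of the traces. -/
theorem int_tw : IntTw := by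
  intro k hk Γ₃ Γ Γ' g G hT hfin h₃ hL hA _ hag hlat hf
  obtain ⟨X, ζ, hζ, -, hg⟩ := frame hk Γ₃ h₃ g hag
  have hζ0 : ζ ≠ 0 := by
    rintro rfl
    rw [mul_zero] at hζ
    exact zero_ne_one hζ
  exact integral_tw hk hT (fun b => isLattice_of_relIndex (hL b) (hT.le b) (hfin b)) hA hζ0
    (act_gen_one hg) hlat hf

end Pool.Agent.Lib.MP_5d4057_al.TW
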