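import Pool.Agent.Lib.MP_5d4057_al.TW.Slice

/-! TW: the metric on the two hyperplanes in the mixed case. -/

set_option autoImplicit false

namespace Pool.Agent.Lib.MP_5d4057_al.TW

open Matrix Filter Topology Pool.Agent.Lib.MP_5d4057_al
  Pool.Agent.Lib.MP_5d4057_al.Hyb Pool.Agent.Lib.MP_5d4057_al.HM Pool.Agent.Lib.MP_5d4057_al.RC

open scoped ComplexOrder MatrixOrder Matrix.Norms.L2Operator

variable {k : ℕ}

/-- The metric on the two hyperplanes, for an automorphism of the complex numbers which fixes the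
first trace field but not the second. -/
theorem mix_data_tw (hk : 1 ≤ k) (Γ₃ : Subgroup (SUGroup k))
    {Γ Γ' : Fin 2 → Subgroup (SUGroup (k + 1))} {g : Fin 2 → SUGroup (k + 2)}
    {Λ : Subgroup (SUGroup (k + 2))} (hT : Tw Γ Γ' g Λ)
    (hfin : ∀ b, (Γ' b).relIndex (Γ b) ≠ 0)
    (h₃ : IsLattice Γ₃) (hL : ∀ b, IsLattice (Γ' b)) (hA : ∀ b, IsArithmetic (k + 1) (Γ' b))
    (hsub : ∀ b, ∀ γ ∈ Γ₃, extend k γ ∈ Γ' b)
    (hagree : ∀ γ ∈ Γ₃, g 0 * extend (k + 1) (extend k γ) * (g 0)⁻¹ =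
      g 1 * extend (k + 1) (extend k γ) * (g 1)⁻¹)
    (hcocb : ∀ b, Rec (Γ' b)) (t : ℂ ≃+* ℂ) {F : Vec (k + 2) → Mat (k + 3)} (hF : HarmG F)
    (hFe : Equi (rhoT t Λ) F) (ht0 : ∀ x ∈ traceField (Γ' 0), t x = x)
    (ht1 : ¬ ∀ x ∈ traceField (Γ' 1), t x = x) :
    ∃ (X Y : Mat 2) (N : Mat (k + 1)) (Q : Mat (k + 3)) (ζ ν0 ν1 l0 a0 l1 a1 : ℂ), star ζ * ζ = 1 ∧ Xᴴ * X = 1 ∧
      (g 1).toMatrix = (g 0).toMatrix * (ζ • bsum X 1) ∧ ν0 ≠ 0 ∧ ν1 ≠ 0 ∧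
      Y = t ζ • (!![1, 0; 0, ν0⁻¹] * X.map t * !![1, 0; 0, ν1]) ∧ IsUnit N ∧ IsUnit Q ∧
      IsUnit (Q * bsum Y N) ∧
      0 < l0 ∧ 0 < a0 ∧ 0 < l1 ∧ 0 < a1 ∧
      (∀ w ∈ Cone (k + 1), F (HM.hyp (g 0) w) = Q * dsum l0 (a0 • std w) * Qᴴ) ∧
      (∀ w ∈ Cone (k + 1), F (HM.hyp (g 1) w) =
        (Q * bsum Y N) * dsum l1 (a1 • (std w).map cj) * (Q * bsum Y N)ᴴ) ∧
      (∀ γ ∈ Γ' 0, (g 0 * extend (k + 1) γ * (g 0)⁻¹).toMatrix.map t =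
        Q * dsum 1 γ.toMatrix * Q⁻¹) ∧
      (∀ γ ∈ Γ' 1, (g 1 * extend (k + 1) γ * (g 1)⁻¹).toMatrix.map t =
        (Q * bsum Y N) * dsum 1 (γ.toMatrix.map cj) * (Q * bsum Y N)⁻¹) ∧
      (∀ x ∈ Λ, TwEl (Γ 0) (g 0) x → ∃ (γ : SUGroup (k + 1)) (χ ψ : ℂ), χ * star χ = 1 ∧
        ψ * star ψ = 1 ∧ x.toMatrix.map t = Q * dsum χ (ψ • γ.toMatrix) * Q⁻¹) ∧
      ∀ x ∈ Λ, TwEl (Γ 1) (g 1) x → ∃ (γ : SUGroup (k + 1)) (χ ψ : ℂ), χ * star χ = 1 ∧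
        ψ * star ψ = 1 ∧ x.toMatrix.map t =
          (Q * bsum Y N) * dsum χ (ψ • γ.toMatrix.map cj) * (Q * bsum Y N)⁻¹ := by
  obtain ⟨X, ζ, hζ, hX, hg⟩ := frame hk Γ₃ h₃ g hagree
  -- `t` is complex conjugation on the second field
  have ht1' : ∀ x ∈ traceField (Γ' 1), t x = cj x := by
    rcases piece_alt (by omega) (Γ' 1) (hL 1) (hA 1) t with h | h | ⟨C, hC⟩
    · exact absurd h ht1
    · exact h
    · exfalso
      obtain ⟨γ, hγ, hlt⟩ := trace_unbounded hk Γ₃ h₃ (C + 1)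
      have h1 := hC _ (hsub 1 γ hγ)
      have h2 : (extend k γ).toMatrix.trace ∈ traceField (Γ' 0) :=
        Subfield.subset_closure ⟨_, hsub 0 γ hγ, rfl⟩
      rw [ht0 _ h2, extend_toMatrix, trace_dsum] at h1
      have h3 : ‖γ.toMatrix.trace‖ ≤ ‖1 + γ.toMatrix.trace‖ + ‖(1 : ℂ)‖ := by
        calc ‖γ.toMatrix.trace‖ = ‖(1 + γ.toMatrix.trace) - 1‖ := by rw [add_sub_cancel_left]
          _ ≤ _ := norm_sub_le _ _
      rw [norm_one] at h3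
      linarith
  obtain ⟨μ0, D0, hμ0, hD0, hrat0⟩ := piece_frame hk Γ₃ h₃ (Γ' 0) (hL 0) (hA 0) (hsub 0)
  obtain ⟨μ1, D1, hμ1, hD1, hrat1⟩ := piece_frame hk Γ₃ h₃ (Γ' 1) (hL 1) (hA 1) (hsub 1)
  obtain ⟨ν0, E0, l0, a0, hν0, hE0, hl0, ha0, hF0, hc0, hw0⟩ := slice_data_tw (hT.le 0)
    (hL 0) (hfin 0) (hcocb 0) (hT.std 0) hμ0 hD0 hrat0 t (RingEquiv.refl ℂ) t (fun x => rfl)
    (fun x => ht0 x x.2) harm_std pol_std_inv (equi_std_refl (Γ 0)) hF.toHarm hF.gr hFe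
  obtain ⟨ν1, E1, l1, a1, hν1, hE1, hl1, ha1, hF1, hc1, hw1⟩ := slice_data_tw (hT.le 1)
    (hL 1) (hfin 1) (hcocb 1) (hT.std 1) hμ1 hD1 hrat1 t cj (t.trans cj)
    (fun x => (Complex.conj_conj (t x)).symm)
    (fun x => by
      show cj (t (x : ℂ)) = x
      rw [ht1' x x.2]
      exact Complex.conj_conj _) harm_std.cj pol_std_cj_inv (equi_std_cj (Γ 1)) hF.toHarm hF.gr hFe
  have hE0d : E0.det ≠ 0 := ((isUnit_iff_isUnit_det E0).1 hE0).ne_zero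
  have hR0 : IsUnit (dsum ν0 E0) := by
    rw [isUnit_iff_isUnit_det, det_dsum, isUnit_iff_ne_zero]
    exact mul_ne_zero hν0 hE0d
  set Q0 : Mat (k + 3) := (g 0).toMatrix.map t * dsum 1 (dsum ν0 E0) with hQ0
  have hQ0u : IsUnit Q0 := by
    refine (tm_gp_unit t (g 0)).mul ?_
    rw [isUnit_iff_isUnit_det, det_dsum, one_mul]
    exact (isUnit_iff_isUnit_det _).1 hR0
  have hζ00 : ζ ≠ 0 := by
    intro h
    rw [h, mul_zero] at hζ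
    exact zero_ne_one hζ
  have hζ0 : t ζ ≠ 0 := (map_ne_zero t).2 hζ00
  set Y : Mat 2 := t ζ • (!![1, 0; 0, ν0⁻¹] * X.map t * !![1, 0; 0, ν1]) with hY
  set N : Mat (k + 1) := t ζ • (E0⁻¹ * E1) with hN
  have hNu : IsUnit N := by
    have h1 : N = (t ζ • (1 : Mat (k + 1))) * (E0⁻¹ * E1) := by
      rw [Matrix.smul_mul, Matrix.one_mul]
    have h2 : IsUnit (t ζ • (1 : Mat (k + 1))) := by
      refine IsUnit.of_mul_eq_one ((t ζ)⁻¹ • (1 : Mat (k + 1))) ?_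
      rw [Matrix.smul_mul, Matrix.mul_smul, smul_smul, mul_inv_cancel₀ hζ0, one_smul,
        Matrix.one_mul]
    rw [h1]
    exact h2.mul ((isUnit_nonsing_inv_iff.2 hE0).mul hE1)
  have hQ1 : (g 1).toMatrix.map t * dsum 1 (dsum ν1 E1) = Q0 * bsum Y N := by
    rw [hQ0, hg, tm_mul, tm_smul, tm_bsum, tm_one, dsum_dsum, dsum_dsum, Matrix.mul_assoc,
      Matrix.mul_assoc]
    congr 1
    rw [Matrix.smul_mul, bsum_mul, bsum_mul, smul_bsum]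
    congr 1
    · rw [hY, Matrix.mul_smul, ← Matrix.mul_assoc, ← Matrix.mul_assoc]
      have h4 : (!![1, 0; 0, ν0] : Mat 2) * !![1, 0; 0, ν0⁻¹] = 1 := by
        rw [Matrix.mul_fin_two, Matrix.one_fin_two]
        simp [hν0]
      rw [h4, Matrix.one_mul]
    · rw [Matrix.one_mul, hN, Matrix.mul_smul, ← Matrix.mul_assoc,
        mul_nonsing_inv _ ((isUnit_iff_isUnit_det E0).1 hE0), Matrix.one_mul]
  have hQ1u : IsUnit (Q0 * bsum Y N) := by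
    rw [← hQ1]
    refine (tm_gp_unit t (g 1)).mul ?_
    rw [isUnit_iff_isUnit_det, det_dsum, one_mul, det_dsum, isUnit_iff_ne_zero]
    exact mul_ne_zero hν1 ((isUnit_iff_isUnit_det E1).1 hE1).ne_zero
  have hrefl : ∀ A : Mat (k + 2), A.map (RingEquiv.refl ℂ) = A := by
    intro A
    ext i j
    simp
  rw [hQ1] at hF1 hc1 hw1
  simp only [hrefl] at hc0 hw0
  refine ⟨X, Y, N, Q0, ζ, ν0, ν1, l0, a0, l1, a1, hζ, hX, hg, hν0, hν1, hY, hNu, hQ0u, hQ1u,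
    hl0, ha0, hl1, ha1, hF0, hF1, hc0, hc1, ?_, ?_⟩
  · rintro x hx ⟨γ, hγ, χ, ψ, h⟩
    exact ⟨γ, hw0 x hx γ hγ χ ψ h⟩
  · rintro x hx ⟨γ, hγ, χ, ψ, h⟩
    exact ⟨γ, hw1 x hx γ hγ χ ψ h⟩

end Pool.Agent.Lib.MP_5d4057_al.TW
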