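import Pool.Agent.Lib.MP_5d4057_al.TW.Delta
import Pool.Agent.Lib.MP_5d4057_al.TW.Pos
import Pool.Agent.Lib.MP_5d4057_al.TW.Amal
import Pool.Agent.Lib.MP_5d4057_al.GX.Amal
import Pool.Agent.Lib.MP_5d4057_al.RC.WideD

/-!
# TW: the theorem in terms of the amalgamated product
-/

set_option autoImplicit false

namespace Pool.Agent.Lib.MP_5d4057_al.TW

open Matrix Pool.Agent.Lib.MP_5d4057_al Pool.Agent.Lib.MP_5d4057_al.Hyb
  Pool.Agent.Lib.MP_5d4057_al.HM Pool.Agent.Lib.MP_5d4057_al.NU Pool.Agent.Lib.MP_5d4057_al.GX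
  Pool.Agent.Lib.MP_5d4057_al.RC

variable {m k : ℕ}

/-- The theorem on twisted pieces in adapted frames as a proposition. -/
def TwAll : Prop := ∀ (k : ℕ), 1 ≤ k → ∀ (Γ₃ : Subgroup (SUGroup k))
  (Γ Γ' : Fin 2 → Subgroup (SUGroup (k + 1))) (g : Fin 2 → SUGroup (k + 2))
  (G : Subgroup (SUGroup (k + 2))), Tw Γ Γ' g G → (∀ b, (Γ' b).relIndex (Γ b) ≠ 0) →
  IsLattice Γ₃ → (∀ b, IsLattice (Γ b)) → (∀ b, IsArith (k + 1) (Γ b)) →
  (∀ b, ∀ γ ∈ Γ₃, extend k γ ∈ Γ' b) →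
  (∀ γ ∈ Γ₃, g 0 * extend (k + 1) (extend k γ) * (g 0)⁻¹ =
    g 1 * extend (k + 1) (extend k γ) * (g 1)⁻¹) →
  IsLattice G → FGG G → IsArith (k + 2) G

/-- A group generated by finitely many groups with entries in finitely generated rings. -/
theorem fgg_of_gen {n : ℕ} {I : Type} [Finite I] (S : I → Subgroup (SUGroup n))
    (h : ∀ i, FGG (S i)) {G : Subgroup (SUGroup n)}
    (hgen : G ≤ Subgroup.closure (⋃ i, (S i : Set (SUGroup n)))) : FGG G := by
  classical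
  have := Fintype.ofFinite I
  choose E hE using h
  refine ⟨Finset.univ.biUnion E, ?_⟩
  have hmono : ∀ i, (Algebra.adjoin ℤ (E i : Set ℂ)) ≤
      Algebra.adjoin ℤ ((Finset.univ.biUnion E : Finset ℂ) : Set ℂ) := by
    intro i
    refine Algebra.adjoin_mono ?_
    rw [Finset.coe_biUnion]
    exact Set.subset_biUnion_of_mem (u := fun i => (E i : Set ℂ)) (Finset.mem_coe.2 (Finset.mem_univ i))
  have hall : ∀ x ∈ Subgroup.closure (⋃ i, (S i : Set (SUGroup n))), ∀ i j,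
      x.toMatrix i j ∈ Algebra.adjoin ℤ ((Finset.univ.biUnion E : Finset ℂ) : Set ℂ) := by
    intro x hx
    induction hx using Subgroup.closure_induction'' with
    | mem x hx =>
      obtain ⟨i, hi⟩ := Set.mem_iUnion.1 hx
      intro a b
      exact hmono i (hE i _ ⟨x, hi, rfl⟩ a b)
    | inv_mem x hx =>
      obtain ⟨i, hi⟩ := Set.mem_iUnion.1 hx
      intro a b
      exact hmono i (hE i _ ⟨x⁻¹, (S i).inv_mem hi, rfl⟩ a b)
    | one =>
      intro a b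
      rw [toMatrix_one, Matrix.one_apply]
      split_ifs
      · exact Subalgebra.one_mem _
      · exact Subalgebra.zero_mem _
    | mul x y _ _ hx hy =>
      intro a b
      rw [toMatrix_mul, Matrix.mul_apply]
      exact Subalgebra.sum_mem _ fun l _ => Subalgebra.mul_mem _ (hx a l) (hy l b)
  rintro _ ⟨x, hx, rfl⟩
  exact hall x (hgen hx)

/-- The standard image of a group with entries in a finitely generated ring. -/
theorem fgg_map_emb {Γ : Subgroup (SUGroup m)} (h : FGG Γ) (g : SUGroup (m + 1)) :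
    FGG (Γ.map (emb g)) := by
  refine FGE.mono (FGE.mul (FGE.mul (FGE.of_finite (Set.finite_singleton g.toMatrix))
    (FGE.dsum h)) (FGE.of_finite (Set.finite_singleton (g⁻¹).toMatrix))) ?_
  rintro _ ⟨_, ⟨γ, hγ, rfl⟩, rfl⟩
  exact ⟨_, ⟨_, rfl, _, ⟨_, ⟨γ, hγ, rfl⟩, rfl⟩, rfl⟩, _, rfl, by rw [emb_apply]; rfl⟩

/-- The image of the standard part has finite index in the image of the piece. -/
theorem relIndex_range {Γ Γ' : Subgroup (SUGroup m)} (hfin : Γ'.relIndex Γ ≠ 0)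
    (r : Γ →* SUGroup (m + 1)) (g : SUGroup (m + 1))
    (hr : ∀ x : Γ, (x : SUGroup m) ∈ Γ' → r x = emb g (x : SUGroup m)) :
    (Γ'.map (emb g)).relIndex r.range ≠ 0 := by
  have h1 : (Γ'.subgroupOf Γ).map r ≤ Γ'.map (emb g) := by
    rintro _ ⟨x, hx, rfl⟩
    exact ⟨x, hx, (hr x hx).symm⟩
  have h2 : ((Γ'.subgroupOf Γ).map r).relIndex r.range ≠ 0 := by
    rw [MonoidHom.range_eq_map, Subgroup.relIndex_map_map, top_sup_eq,
      Subgroup.relIndex_top_right]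
    intro h0
    have h3 := Subgroup.index_dvd_of_le (show Γ'.subgroupOf Γ ≤ Γ'.subgroupOf Γ ⊔ r.ker from
      le_sup_left)
    rw [h0, zero_dvd_iff] at h3
    exact hfin h3
  intro h0
  have h3 := Subgroup.relIndex_dvd_of_le_left r.range h1
  rw [h0, zero_dvd_iff] at h3
  exact h2 h3

/-- Change of frame of a twisted element. -/
theorem TwEl.cj {Γ : Subgroup (SUGroup m)} {g x : SUGroup (m + 1)} (h : TwEl Γ g x)
    (u : SUGroup m) : TwEl (GX.cj u Γ) (g * extend m u) x := by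
  obtain ⟨γ, hγ, χ, ψ, hx⟩ := h
  refine ⟨u⁻¹ * γ * u, ?_, χ, ψ, ?_⟩
  · rw [mem_cj]
    have e : u * (u⁻¹ * γ * u) * u⁻¹ = γ := by group
    rwa [e]
  · have e : (g * extend m u)⁻¹ * x * (g * extend m u) =
        (extend m u)⁻¹ * (g⁻¹ * x * g) * extend m u := by group
    rw [e, toMatrix_mul, toMatrix_mul, hx, ← map_inv, extend_toMatrix, extend_toMatrix,
      dsum_mul, dsum_mul, one_mul, mul_one, toMatrix_mul, toMatrix_mul, Matrix.mul_smul,
      Matrix.smul_mul]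

/-- Change of frame. -/
theorem emb_cj (g : SUGroup (m + 1)) (u γ : SUGroup m) :
    emb (g * extend m u) (u⁻¹ * γ * u) = emb g γ := by
  rw [emb_apply, emb_apply, map_mul, map_mul, map_inv]
  group

theorem Tw.cj {Γ Γ' : Fin 2 → Subgroup (SUGroup (k + 1))} {g : Fin 2 → SUGroup (k + 2)}
    {G : Subgroup (SUGroup (k + 2))} (h : Tw Γ Γ' g G) (u : Fin 2 → SUGroup (k + 1)) :
    Tw (fun b => GX.cj (u b) (Γ b)) (fun b => GX.cj (u b) (Γ' b))
      (fun b => g b * extend (k + 1) (u b)) G where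
  le b x hx := h.le b hx
  std b x hx := by
    have h1 := h.std b _ (mem_cj.1 hx)
    rw [← emb_cj (g b) (u b)] at h1
    have e : (u b)⁻¹ * (u b * x * (u b)⁻¹) * u b = x := by group
    rwa [e] at h1
  gen := by
    refine h.gen.trans (Subgroup.closure_mono ?_)
    rintro x ⟨hx, b, hb⟩
    exact ⟨hx, b, hb.cj (u b)⟩

theorem relIndex_cj (u : SUGroup m) {Γ Γ' : Subgroup (SUGroup m)} (h : Γ'.relIndex Γ ≠ 0) :
    (GX.cj u Γ').relIndex (GX.cj u Γ) ≠ 0 := by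
  rw [GX.cj, GX.cj, Subgroup.relIndex_comap, Subgroup.map_comap_eq_self_of_surjective
    (MulAut.conj u).surjective]
  exact h

/-- The image of a homomorphism from the amalgam is generated by the images of the factors. -/
theorem range_le_closure {Γ₃ : Subgroup (SUGroup k)} {Γ : Fin 2 → Subgroup (SUGroup (k + 1))}
    {ι : ∀ b, Γ₃ →* Γ b} (ρ : Monoid.PushoutI ι →* SUGroup (k + 2)) :
    ρ.range ≤ Subgroup.closure
      (⋃ b, ((ρ.comp (Monoid.PushoutI.of b)).range : Set (SUGroup (k + 2)))) := by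
  rintro _ ⟨w, rfl⟩
  induction w using Monoid.PushoutI.induction_on with
  | of b x =>
    exact Subgroup.subset_closure (Set.mem_iUnion.2 ⟨b, x, rfl⟩)
  | base x =>
    rw [← Monoid.PushoutI.of_apply_eq_base ι 0 x]
    exact Subgroup.subset_closure (Set.mem_iUnion.2 ⟨0, ι 0 x, rfl⟩)
  | mul x y hx hy =>
    rw [map_mul]
    exact Subgroup.mul_mem _ hx hy

/-- **The theorem for the amalgam: `ρ` standard up to finite index on both factors.** -/
theorem amalgam_tw (H : TwAll) (k : ℕ) (hk : 1 ≤ k) (Γ₃ : Subgroup (SUGroup k))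
    (Γ Γ' : Fin 2 → Subgroup (SUGroup (k + 1))) (h₃ : IsLattice Γ₃) (hL : ∀ b, IsLattice (Γ b))
    (hA : ∀ b, IsArith (k + 1) (Γ b)) (hle : ∀ b, Γ' b ≤ Γ b)
    (hfin : ∀ b, (Γ' b).relIndex (Γ b) ≠ 0)
    (ι : ∀ b, Γ₃ →* Γ b) (hι : ∀ b, Function.Injective (ι b))
    (ρ : Monoid.PushoutI ι →* SUGroup (k + 2)) (g : Fin 2 → SUGroup (k + 2))
    (hρ : ∀ (b : Fin 2) (x : Γ b), (x : SUGroup (k + 1)) ∈ Γ' b → ρ (Monoid.PushoutI.of b x) =
      g b * extend (k + 1) (x : SUGroup (k + 1)) * (g b)⁻¹)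
    (hlat : IsLattice ρ.range) : IsArith (k + 2) ρ.range := by
  have hr : ∀ b, ∀ x : Γ b, (x : SUGroup (k + 1)) ∈ Γ' b →
      (ρ.comp (Monoid.PushoutI.of b)) x = emb (g b) (x : SUGroup (k + 1)) := fun b x hx => hρ b x hx
  have hT : Tw Γ Γ' g ρ.range := by
    refine ⟨hle, fun b γ hγ => ⟨Monoid.PushoutI.of b ⟨γ, hle b hγ⟩, hr b ⟨γ, hle b hγ⟩ hγ⟩, ?_⟩
    refine (range_le_closure ρ).trans (Subgroup.closure_mono ?_)
    intro x hx
    obtain ⟨b, hb⟩ := Set.mem_iUnion.1 hx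
    obtain ⟨y, rfl⟩ := hb
    obtain ⟨χ, ψ, h⟩ := twist_of_hom (by omega) (hL b) (hfin b) _ (g b) (hr b) y
    exact ⟨⟨_, rfl⟩, b, y, y.2, χ, ψ, h⟩
  have hf : FGG ρ.range := by
    refine fgg_of_gen (fun b => (ρ.comp (Monoid.PushoutI.of b)).range) (fun b => ?_)
      (range_le_closure ρ)
    exact (fgg_map_emb ((RC.fgg_of_isArith (hA b)).mono (hle b)) (g b)).of_relIndex
      (relIndex_range (hfin b) _ (g b) (hr b))
  -- the common part
  obtain ⟨Δ, hΔ⟩ : ∃ Δ : Subgroup Γ₃, Δ = ((Γ' 0).subgroupOf (Γ 0)).comap (ι 0) ⊓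
      ((Γ' 1).subgroupOf (Γ 1)).comap (ι 1) := ⟨_, rfl⟩
  have hΔi : Δ.index ≠ 0 := by
    rw [hΔ]
    have h1 : ∀ b, (((Γ' b).subgroupOf (Γ b)).comap (ι b)).index ≠ 0 := by
      intro b
      rw [Subgroup.index_comap]
      exact fun h0 => hfin b (Subgroup.index_eq_zero_of_relIndex_eq_zero h0)
    exact Subgroup.index_inf_ne_zero (h1 0) (h1 1)
  have hΔm : ∀ b, ∀ x ∈ Δ, (ι b x : SUGroup (k + 1)) ∈ Γ' b := by
    intro b x hx
    rw [hΔ] at hx
    fin_cases b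
    · exact hx.1
    · exact hx.2
  obtain ⟨Γ₄, hΓ₄⟩ : ∃ Γ₄ : Subgroup (SUGroup k), Γ₄ = Δ.map Γ₃.subtype := ⟨_, rfl⟩
  have h₄ : IsLattice Γ₄ := by
    refine isLattice_of_relIndex h₃ ?_ ?_
    · rw [hΓ₄]
      exact Subgroup.map_subtype_le _
    · rw [hΓ₄, Subgroup.relIndex, Subgroup.subgroupOf,
        Subgroup.comap_map_eq_self_of_injective Γ₃.subtype_injective]
      exact hΔi
  have hin : ∀ x : Γ₄, ∃ h : (x : SUGroup k) ∈ Γ₃, (⟨x, h⟩ : Γ₃) ∈ Δ := by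
    rintro ⟨x, hx⟩
    rw [hΓ₄] at hx
    obtain ⟨y, hy, rfl⟩ := hx
    exact ⟨y.2, hy⟩
  have hle₄ : Γ₄ ≤ Γ₃ := fun x hx => (hin ⟨x, hx⟩).1
  obtain ⟨j, hj⟩ : ∃ j : Γ₄ →* SUGroup (k + 2),
      j = (emb (g 0)).comp ((Γ 0).subtype.comp ((ι 0).comp (Subgroup.inclusion hle₄))) :=
    ⟨_, rfl⟩
  have hjb : ∀ b, ∀ x : Γ₄, j x = emb (g b) (ι b (Subgroup.inclusion hle₄ x) : SUGroup (k + 1)) := by
    have h0 : ∀ x : Γ₄, j x = ρ (Monoid.PushoutI.base ι (Subgroup.inclusion hle₄ x)) := by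
      intro x
      rw [← Monoid.PushoutI.of_apply_eq_base ι 0]
      have h1 := hr 0 (ι 0 (Subgroup.inclusion hle₄ x)) (hΔm 0 _ (hin x).2)
      rw [hj]
      exact h1.symm
    intro b x
    rw [h0, ← Monoid.PushoutI.of_apply_eq_base ι b]
    exact hr b (ι b (Subgroup.inclusion hle₄ x)) (hΔm b _ (hin x).2)
  have hlt := herm_lt_one_tw hk h₄ hT hlat hf j (by
      rw [hj]
      exact (emb_injective (g 0)).comp ((Γ 0).subtype_injective.comp ((hι 0).comp
        (Subgroup.inclusion_injective hle₄))))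
    (fun x => ⟨ι 0 (Subgroup.inclusion hle₄ x), hΔm 0 _ (hin x).2, (hjb 0 x).symm⟩)
    (fun x => ⟨ι 1 (Subgroup.inclusion hle₄ x), hΔm 1 _ (hin x).2, (hjb 1 x).symm⟩)
  obtain ⟨u, X, hX, hg⟩ := exists_frames g hlt
  have hT' := hT.cj u
  have h01 : X 0 1 ≠ 0 := by
    intro h0
    refine not_prop_line hlat (n := fun b => act (g b * extend (k + 1) (u b)) (e0 (k + 1)))
      (fun b => by rw [q_act, q_e0]) (hT'.gen.trans (Subgroup.closure_mono ?_)) (X 0 0) ?_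
    · rintro x ⟨-, b, hx⟩
      exact ⟨b, hx.line⟩
    · exact prop_of_zero hX h0 hg
  have hL' : ∀ b, IsLattice (GX.cj (u b) (Γ' b)) := fun b =>
    isLattice_cj (u b) (isLattice_of_relIndex (hL b) (hle b) (hfin b))
  exact H k hk (common fun b => GX.cj (u b) (Γ' b)) (fun b => GX.cj (u b) (Γ b))
    (fun b => GX.cj (u b) (Γ' b)) (fun b => g b * extend (k + 1) (u b)) ρ.range hT'
    (fun b => relIndex_cj (u b) (hfin b))
    (isLattice_common_tw hk hT'.std hL' hlat hf hX h01 hg)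
    (fun b => isLattice_cj (u b) (hL b)) (fun b => isArith_cj (u b) (hA b))
    (fun b γ hγ => by
      fin_cases b
      · exact hγ.1
      · exact hγ.2)
    (fun γ _ => agree_of_frame (g := fun b => g b * extend (k + 1) (u b)) hg γ) hlat hf

end Pool.Agent.Lib.MP_5d4057_al.TW
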