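import Pool.Agent.Lib.MP_5d4057_al.TW.Defs
import Pool.Agent.Lib.MP_5d4057_al.NU.LatC
import Pool.Agent.Lib.MP_5d4057_al.NU.CuspC

/-!
# TW: rationality up to roots of unity

A group whose generators are rational over a number field up to roots of unity has a subgroup of
finite index which is rational.
-/

set_option autoImplicit false

namespace Pool.Agent.Lib.MP_5d4057_al.TW

open Matrix Filter Topology Pool.Agent.Lib.MP_5d4057_al Pool.Agent.Lib.MP_5d4057_al.Hyb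
  Pool.Agent.Lib.MP_5d4057_al.HM Pool.Agent.Lib.MP_5d4057_al.NU

variable {m k : ℕ}

/-- `l` is a root of unity. -/
def IsRou (l : ℂ) : Prop := ∃ r : ℕ, 0 < r ∧ l ^ r = 1

theorem IsRou.ne_zero {l : ℂ} (h : IsRou l) : l ≠ 0 := by
  rintro rfl
  obtain ⟨r, hr, h1⟩ := h
  rw [zero_pow hr.ne'] at h1
  exact zero_ne_one h1

theorem IsRou.one : IsRou 1 := ⟨1, one_pos, one_pow 1⟩

theorem IsRou.mul {l l' : ℂ} (h : IsRou l) (h' : IsRou l') : IsRou (l * l') := by
  obtain ⟨r, hr, h1⟩ := h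
  obtain ⟨r', hr', h1'⟩ := h'
  refine ⟨r * r', Nat.mul_pos hr hr', ?_⟩
  rw [mul_pow, pow_mul, h1, one_pow, one_mul, mul_comm r, pow_mul, h1', one_pow]

theorem IsRou.inv {l : ℂ} (h : IsRou l) : IsRou l⁻¹ := by
  obtain ⟨r, hr, h1⟩ := h
  exact ⟨r, hr, by rw [inv_pow, h1, inv_one]⟩

theorem IsRou.of_pow {l : ℂ} {r : ℕ} (hr : 0 < r) (h : IsRou (l ^ r)) : IsRou l := by
  obtain ⟨s, hs, h1⟩ := h
  exact ⟨r * s, Nat.mul_pos hr hs, by rw [pow_mul, h1]⟩

/-- The roots of unity some power of which lies in a number field. -/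
theorem finite_scalars (K : Subfield ℂ) (hK : NumberField K) {n : ℕ} (hn : 0 < n) :
    {l : ℂ | IsRou l ∧ l ^ n ∈ K}.Finite := by
  have h1 := NumberField.Embeddings.finite_of_norm_le K ℂ 1
  have h2 : (⋃ x ∈ {x : K | IsIntegral ℤ x ∧ ∀ φ : K →+* ℂ, ‖φ x‖ ≤ 1},
      {l : ℂ | l ^ n = (x : ℂ)}).Finite := by
    refine h1.biUnion fun x _ => ?_
    have h3 : {l : ℂ | l ^ n = (x : ℂ)} ⊆ ((Polynomial.nthRoots n (x : ℂ)).toFinset : Set ℂ) := by
      intro l hl
      rw [Finset.mem_coe, Multiset.mem_toFinset, Polynomial.mem_nthRoots hn]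
      exact hl
    exact (Finset.finite_toSet _).subset h3
  refine h2.subset ?_
  rintro l ⟨⟨r, hr, hl⟩, hlK⟩
  rw [Set.mem_iUnion₂]
  have hx : (⟨l ^ n, hlK⟩ : K) ^ r = 1 := by
    apply Subtype.ext
    show (l ^ n) ^ r = 1
    rw [← pow_mul, mul_comm, pow_mul, hl, one_pow]
  refine ⟨⟨l ^ n, hlK⟩, ⟨?_, fun φ => ?_⟩, rfl⟩
  · refine IsIntegral.of_pow hr ?_
    rw [hx]
    exact isIntegral_one
  · have h3 : φ ⟨l ^ n, hlK⟩ ^ r = 1 := by rw [← map_pow, hx, map_one]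
    exact (Complex.norm_eq_one_of_pow_eq_one h3 hr.ne').le

theorem exists_coe {K : Subfield ℂ} {n : ℕ} {B A : Matrix (Fin n) (Fin n) ℂ}
    (h : EntriesIn K B A) : ∃ M : Matrix (Fin n) (Fin n) K,
      B⁻¹ * A * B = M.map (fun x : K => (x : ℂ)) :=
  ⟨fun i j => ⟨_, h i j⟩, rfl⟩

theorem det_mem {K : Subfield ℂ} {n : ℕ} {B A : Matrix (Fin n) (Fin n) ℂ} (hB : B.det ≠ 0)
    (h : EntriesIn K B A) : A.det ∈ K := by
  obtain ⟨M, hM⟩ := exists_coe h
  have h1 : (M.map (fun x : K => (x : ℂ))).det = ((M.det : K) : ℂ) :=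
    (RingHom.map_det K.subtype M).symm
  have h2 : (B⁻¹ * A * B).det = A.det := by
    rw [det_mul, det_mul, det_nonsing_inv, Ring.inverse_eq_inv']
    field_simp
  rw [← h2, hM, h1]
  exact (M.det).2

theorem entries_inv {K : Subfield ℂ} {n : ℕ} {B A : Matrix (Fin n) (Fin n) ℂ} (hB : B.det ≠ 0)
    (hA : A.det ≠ 0) (h : EntriesIn K B A) : EntriesIn K B A⁻¹ := by
  obtain ⟨M, hM⟩ := exists_coe h
  have hBu := isUnit_iff_ne_zero.2 hB
  have h1 : (M.map (fun x : K => (x : ℂ))).det = ((M.det : K) : ℂ) :=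
    (RingHom.map_det K.subtype M).symm
  have h2 : (B⁻¹ * A * B).det = A.det := by
    rw [det_mul, det_mul, det_nonsing_inv, Ring.inverse_eq_inv']
    field_simp
  have hMd : M.det ≠ 0 := by
    intro h3
    rw [hM, h1, h3] at h2
    exact hA h2.symm
  have h4 : (M.map (fun x : K => (x : ℂ)))⁻¹ = (M⁻¹).map (fun x : K => (x : ℂ)) := by
    apply inv_eq_right_inv
    have h5 : (M * M⁻¹).map (fun x : K => (x : ℂ)) =
        M.map (fun x : K => (x : ℂ)) * (M⁻¹).map (fun x : K => (x : ℂ)) :=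
      Matrix.map_mul (f := K.subtype)
    rw [← h5, Matrix.mul_nonsing_inv _ (isUnit_iff_ne_zero.2 hMd)]
    exact Matrix.map_one _ rfl rfl
  have h6 : B⁻¹ * A⁻¹ * B = (M⁻¹).map (fun x : K => (x : ℂ)) := by
    rw [← h4, ← hM, Matrix.mul_inv_rev, Matrix.mul_inv_rev, nonsing_inv_nonsing_inv _ hBu,
      Matrix.mul_assoc]
  intro i j
  rw [h6]
  exact (M⁻¹ i j).2

/-- `x` is rational over `K` in the basis `B`, up to a root of unity. -/
def RatUp (K : Subfield ℂ) (B : Matrix (Fin (m + 1)) (Fin (m + 1)) ℂ) (x : SUGroup m) : Prop :=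
  ∃ l : ℂ, IsRou l ∧ EntriesIn K B (l⁻¹ • x.toMatrix)

/-- The group of the elements which are rational up to a root of unity. -/
def ratUp (K : Subfield ℂ) (B : Matrix (Fin (m + 1)) (Fin (m + 1)) ℂ) (hB : B.det ≠ 0) :
    Subgroup (SUGroup m) where
  carrier := {x | RatUp K B x}
  mul_mem' := by
    rintro x y ⟨l, hl, h⟩ ⟨l', hl', h'⟩
    refine ⟨l * l', hl.mul hl', ?_⟩
    have h1 := EntriesIn.mul (R := K.toSubring) h h'
    rw [Matrix.smul_mul, Matrix.mul_smul, smul_smul, ← toMatrix_mul] at h1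
    rwa [mul_inv]
  one_mem' := ⟨1, IsRou.one, by
    rw [inv_one, one_smul, toMatrix_one]
    exact EntriesIn.one (R := K.toSubring)⟩
  inv_mem' := by
    rintro x ⟨l, hl, h⟩
    refine ⟨l⁻¹, hl.inv, ?_⟩
    have hd : (l⁻¹ • x.toMatrix).det ≠ 0 := by
      rw [det_smul, det_toMatrix, mul_one]
      exact pow_ne_zero _ (inv_ne_zero hl.ne_zero)
    have h1 := entries_inv hB hd h
    have h2 : (l⁻¹ • x.toMatrix)⁻¹ = l⁻¹⁻¹ • (x⁻¹).toMatrix := by
      apply inv_eq_right_inv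
      rw [Matrix.smul_mul, Matrix.mul_smul, smul_smul, toMatrix_mul_inv,
        mul_inv_cancel₀ (inv_ne_zero hl.ne_zero), one_smul]
    rwa [h2] at h1

theorem mem_ratUp {K : Subfield ℂ} {B : Matrix (Fin (m + 1)) (Fin (m + 1)) ℂ} {hB : B.det ≠ 0}
    {x : SUGroup m} : x ∈ ratUp K B hB ↔ RatUp K B x := Iff.rfl

/-- A group of elements which are rational up to a root of unity has a rational subgroup of finite
index. -/
theorem relIndex_ratPart {Λ : Subgroup (SUGroup m)} {K : Subfield ℂ} (hK : NumberField K)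
    {B : Matrix (Fin (m + 1)) (Fin (m + 1)) ℂ} (hB : B.det ≠ 0)
    (h : Λ ≤ ratUp K B hB) : (ratPart Λ K B).relIndex Λ ≠ 0 := by
  have h1 : ∀ x : Λ, RatUp K B (x : SUGroup m) := fun x => h x.2
  choose l hl hx using h1
  have hS := finite_scalars K hK (Nat.succ_pos m)
  have hlS : ∀ x : Λ, l x ∈ {l : ℂ | IsRou l ∧ l ^ (m + 1) ∈ K} := by
    intro x
    refine ⟨hl x, ?_⟩
    have h2 := det_mem hB (hx x)
    rw [det_smul, det_toMatrix, mul_one, Fintype.card_fin, inv_pow] at h2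
    have h3 := K.inv_mem h2
    rwa [inv_inv] at h3
  have hfin : Finite ({l : ℂ | IsRou l ∧ l ^ (m + 1) ∈ K} : Set ℂ) := hS
  have hq : Finite (Λ ⧸ (ratPart Λ K B).subgroupOf Λ) := by
    refine Finite.of_injective (β := ({l : ℂ | IsRou l ∧ l ^ (m + 1) ∈ K} : Set ℂ))
      (fun q => ⟨l q.out, hlS q.out⟩) ?_
    intro q q' hqq
    have h4 : l q.out = l q'.out := congrArg Subtype.val hqq
    have h5 : (q.out)⁻¹ * q'.out ∈ (ratPart Λ K B).subgroupOf Λ := by
      rw [Subgroup.mem_subgroupOf]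
      have hrat : ∀ x y : Λ, l x = l y →
          EntriesIn K B ((x : SUGroup m)⁻¹ * (y : SUGroup m)).toMatrix := by
        intro x y hxy
        have hd : ((l x)⁻¹ • (x : SUGroup m).toMatrix).det ≠ 0 := by
          rw [det_smul, det_toMatrix, mul_one]
          exact pow_ne_zero _ (inv_ne_zero (hl x).ne_zero)
        have h6 := entries_inv hB hd (hx x)
        have h7 : ((l x)⁻¹ • (x : SUGroup m).toMatrix)⁻¹ =
            (l x) • ((x : SUGroup m)⁻¹).toMatrix := by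
          apply inv_eq_right_inv
          rw [Matrix.smul_mul, Matrix.mul_smul, smul_smul, toMatrix_mul_inv,
            inv_mul_cancel₀ (hl x).ne_zero, one_smul]
        rw [h7] at h6
        have h8 := EntriesIn.mul (R := K.toSubring) h6 (hx y)
        rwa [Matrix.smul_mul, Matrix.mul_smul, smul_smul, ← hxy, mul_inv_cancel₀ (hl x).ne_zero,
          one_smul, ← toMatrix_mul] at h8
      refine ⟨((q.out)⁻¹ * q'.out).2, hrat _ _ h4, ?_⟩
      have h9 : ((((q.out)⁻¹ * q'.out : Λ) : SUGroup m))⁻¹ =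
          ((q'.out : Λ) : SUGroup m)⁻¹ * ((q.out : Λ) : SUGroup m) := by
        rw [Subgroup.coe_mul, Subgroup.coe_inv]
        group
      rw [h9]
      exact hrat _ _ h4.symm
    have h6 : (QuotientGroup.mk q.out : Λ ⧸ (ratPart Λ K B).subgroupOf Λ) =
        QuotientGroup.mk q'.out := QuotientGroup.eq.2 h5
    rwa [QuotientGroup.out_eq', QuotientGroup.out_eq'] at h6
  exact Subgroup.index_ne_zero_of_finite

/-- In a discrete group an element whose conjugate is a scalar on the last coordinate has finite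
order. -/
theorem fin_of_base {n : ℕ} {Λ : Subgroup (SUGroup n)} (hd : DiscreteTopology Λ) (g : SUGroup n)
    {y : SUGroup n} (hy : y ∈ Λ) {c : ℂ} (hc : star c * c = 1)
    (h : act (g⁻¹ * y * g) (base n) = c • base n) : ∃ s : ℕ, 0 < s ∧ y ^ s = 1 := by
  obtain ⟨x, hx⟩ : ∃ x, x = g⁻¹ * y * g := ⟨_, rfl⟩
  rw [← hx] at h
  have h3 : ∀ i : ℕ, act (x ^ i) (base n) = c ^ i • base n := by
    intro i
    induction i with
    | zero => rw [pow_zero, act_one, pow_zero, one_smul]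
    | succ i ih => rw [pow_succ, act_mul, h, act_smul, ih, smul_smul, pow_succ, mul_comm]
  have hcn : ‖c‖ = 1 := by
    have h1 : ‖c‖ * ‖c‖ = 1 := by
      have h2 := congrArg norm hc
      rwa [norm_mul, norm_star, norm_one] at h2
    nlinarith [norm_nonneg c]
  have h6 : ∀ i : ℕ, ch (x ^ i) ≤ 1 := by
    intro i
    have h' : (x ^ i).toMatrix (Fin.last n) (Fin.last n) = act (x ^ i) (base n) (Fin.last n) := by
      rw [act, base, mulVec_single_one]
      rfl
    rw [ch, h', h3, Pi.smul_apply, base, Pi.single_eq_same, smul_eq_mul, mul_one, norm_pow, hcn,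
      one_pow]
  have h8 := finite_ch hd (4 * ch g * ch g)
  have h9 : ∀ i : ℕ, y ^ i ∈ {γ : SUGroup n | γ ∈ Λ ∧ ch γ ≤ 4 * ch g * ch g} := by
    intro i
    refine ⟨Λ.pow_mem hy i, ?_⟩
    have h' : y ^ i = g * x ^ i * g⁻¹ := by
      rw [hx]
      have e := conj_pow (i := i) (a := g⁻¹) (b := y)
      rw [inv_inv] at e
      rw [e]
      group
    have e1 := ch_mul_le' (g * x ^ i) g⁻¹
    have e2 := ch_mul_le' g (x ^ i)
    rw [ch_inv] at e1
    have e3 := one_le_ch g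
    have e4 := one_le_ch (x ^ i)
    rw [h']
    calc ch (g * x ^ i * g⁻¹) ≤ 2 * ch (g * x ^ i) * ch g := e1
      _ ≤ 2 * (2 * ch g * ch (x ^ i)) * ch g := by gcongr
      _ ≤ 2 * (2 * ch g * 1) * ch g := by gcongr; exact h6 i
      _ = 4 * ch g * ch g := by ring
  obtain ⟨a, -, b, -, hab, he⟩ := Set.infinite_univ.exists_ne_map_eq_of_mapsTo
    (f := fun i : ℕ => y ^ i) (fun i _ => h9 i) h8
  have key : ∀ a b : ℕ, a < b → y ^ a = y ^ b → ∃ s : ℕ, 0 < s ∧ y ^ s = 1 := by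
    intro a b hab he
    refine ⟨b - a, by omega, ?_⟩
    rw [pow_sub _ hab.le, ← he, mul_inv_cancel]
  rcases lt_or_gt_of_ne hab with h' | h'
  · exact key a b h' he
  · exact key b a h' he.symm

theorem dsum_pow {n : ℕ} (c : ℂ) (A : Matrix (Fin n) (Fin n) ℂ) (i : ℕ) :
    dsum c A ^ i = dsum (c ^ i) (A ^ i) := by
  induction i with
  | zero => rw [pow_zero, pow_zero, pow_zero, dsum_one]
  | succ i ih => rw [pow_succ, ih, dsum_mul, pow_succ, pow_succ]

theorem toMatrix_pow {n : ℕ} (x : SUGroup n) (i : ℕ) : (x ^ i).toMatrix = x.toMatrix ^ i := by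
  induction i with
  | zero => rw [pow_zero, pow_zero, toMatrix_one]
  | succ i ih => rw [pow_succ, toMatrix_mul, ih, pow_succ]

/-- The scalars of the twisted elements of a discrete group are roots of unity. -/
theorem rou_of_tw {Γ Γ' : Subgroup (SUGroup m)} {g : SUGroup (m + 1)}
    {Λ : Subgroup (SUGroup (m + 1))} (hd : DiscreteTopology Λ) (hfin : Γ'.relIndex Γ ≠ 0)
    (hstd : ∀ γ ∈ Γ', emb g γ ∈ Λ) {x : SUGroup (m + 1)} (hx : x ∈ Λ) {γ : SUGroup m}
    (hγ : γ ∈ Γ) {χ ψ : ℂ} (h : (g⁻¹ * x * g).toMatrix = dsum χ (ψ • γ.toMatrix)) :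
    IsRou χ ∧ IsRou ψ := by
  obtain ⟨hχ, hψ, -⟩ := TwEl.scalars h
  obtain ⟨r, hr, -, hγr⟩ := Subgroup.exists_pow_mem_of_relIndex_ne_zero hfin hγ
  obtain ⟨y, hy⟩ : ∃ y, y = x ^ r * (emb g (γ ^ r))⁻¹ := ⟨_, rfl⟩
  have hyΛ : y ∈ Λ := by
    rw [hy]
    exact Λ.mul_mem (Λ.pow_mem hx r) (Λ.inv_mem (hstd _ hγr.1))
  have h1 : g⁻¹ * y * g = (g⁻¹ * x * g) ^ r * (extend m (γ ^ r))⁻¹ := by
    rw [hy, emb_apply]
    have e := conj_pow (i := r) (a := g⁻¹) (b := x)
    rw [inv_inv] at e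
    rw [e]
    group
  have h2 : (g⁻¹ * y * g).toMatrix = dsum (χ ^ r) (ψ ^ r • (1 : Matrix _ _ ℂ)) := by
    rw [h1, toMatrix_mul, toMatrix_pow, h, dsum_pow, ← map_inv, extend_toMatrix, dsum_mul, mul_one,
      smul_pow, Matrix.smul_mul, ← toMatrix_pow, toMatrix_mul_inv]
  have h3 : act (g⁻¹ * y * g) (base (m + 1)) = ψ ^ r • base (m + 1) := by
    have e : base (m + 1) = inc m (base m) := (inc_base (j := m)).symm
    rw [e, act, h2, dsum_mulVec_inc, smul_mulVec, one_mulVec, map_smul]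
  have hψr : star (ψ ^ r) * ψ ^ r = 1 := by
    rw [star_pow, ← mul_pow, hψ, one_pow]
  obtain ⟨s, hs, hys⟩ := fin_of_base hd g hyΛ hψr h3
  have h4 : (g⁻¹ * y * g) ^ s = 1 := by
    have e := conj_pow (i := s) (a := g⁻¹) (b := y)
    rw [inv_inv] at e
    rw [e, hys]
    group
  have h5 := congrArg SUGroup.toMatrix h4
  rw [toMatrix_pow, h2, dsum_pow, toMatrix_one, smul_pow, one_pow] at h5
  constructor
  · refine IsRou.of_pow hr ⟨s, hs, ?_⟩
    have h6 := congrFun (congrFun h5 0) 0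
    rwa [dsum_zero_zero, one_apply_eq] at h6
  · refine IsRou.of_pow hr ⟨s, hs, ?_⟩
    have h6 := congrFun (congrFun h5 (Fin.last m).succ) (Fin.last m).succ
    rwa [dsum_succ_succ, Matrix.smul_apply, one_apply_eq, one_apply_eq, smul_eq_mul,
      mul_one] at h6

end Pool.Agent.Lib.MP_5d4057_al.TW
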